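import Pool.Agent.Helper16K9.TH.Cst

set_option autoImplicit false
set_option linter.unusedSectionVars false
set_option linter.unusedVariables false

/-!
# Structured matrices: the lower bounds
-/

namespace Pool.Agent.Helper16K9.TH

open MvPolynomial Matrix Pool.Agent.W956.KF Finset

/-! ### computations exist -/

section
variable {F : Type} [Field F]

theorem Obt.le {R : Type} [CommRing R] [Algebra F R] {S T : Submodule F R} {s : ℕ}
    (h : Obt F S s T) : S ≤ T := by
  induction h with
  | start => exact le_rfl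
  | mul _ _ _ ih => exact ih.trans le_sup_left

theorem exists_obt {V : Type} (p : MvPolynomial V F) :
    ∀ (s : ℕ) (T : Submodule F (MvPolynomial V F)), Obt F (inputs F V) s T →
      ∃ s' T', Obt F (inputs F V) s' T' ∧ T ≤ T' ∧ p ∈ T' := by
  induction p using MvPolynomial.induction_on with
  | C a =>
    intro s T h
    refine ⟨s, T, h, le_rfl, h.le ?_⟩
    have : (C a : MvPolynomial V F) = a • 1 := by
      rw [smul_eq_C_mul, mul_one]
    rw [this]
    exact Submodule.smul_mem _ _ (Submodule.subset_span (Set.mem_insert _ _))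
  | add p q hp hq =>
    intro s T h
    obtain ⟨s1, T1, h1, h2, h3⟩ := hp s T h
    obtain ⟨s2, T2, h4, h5, h6⟩ := hq s1 T1 h1
    exact ⟨s2, T2, h4, h2.trans h5, T2.add_mem (h5 h3) h6⟩
  | mul_X p i hp =>
    intro s T h
    obtain ⟨s1, T1, h1, h2, h3⟩ := hp s T h
    refine ⟨s1 + 1, _, Obt.mul h1 h3 (h1.le (Submodule.subset_span
      (Set.mem_insert_of_mem _ ⟨i, rfl⟩))), h2.trans le_sup_left, ?_⟩
    exact Submodule.mem_sup_right (Submodule.mem_span_singleton_self _)

theorem exists_obt_finset {V : Type} (P : Set (MvPolynomial V F)) (hP : P.Finite) :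
    ∃ s T, Obt F (inputs F V) s T ∧ P ⊆ T := by
  induction P, hP using Set.Finite.induction_on with
  | empty => exact ⟨0, _, Obt.start, Set.empty_subset _⟩
  | @insert a P _ _ ih =>
    obtain ⟨s, T, h1, h2⟩ := ih
    obtain ⟨s', T', h3, h4, h5⟩ := exists_obt a s T h1
    exact ⟨s', T', h3, Set.insert_subset h5 (h2.trans h4)⟩

theorem cost_spec {V : Type} (P : Set (MvPolynomial V F)) (hP : P.Finite) :
    ∃ T, Obt F (inputs F V) (cost P) T ∧ P ⊆ T :=
  Nat.sInf_mem (s := {s | ∃ T, Obt F (inputs F V) s T ∧ P ⊆ T}) (exists_obt_finset P hP)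

theorem cost_le {V : Type} {P : Set (MvPolynomial V F)} {s : ℕ}
    {T : Submodule F (MvPolynomial V F)} (h : Obt F (inputs F V) s T) (hP : P ⊆ T) :
    cost P ≤ s := Nat.sInf_le ⟨T, h, hP⟩

end

/-! ### the space of linear maps -/

section
variable {F : Type} [Field F] {m d : ℕ}

theorem comb_add (B : Fin d → Matrix (Fin m) (Fin m) F) (a b : Fin d → F) :
    comb B (a + b) = comb B a + comb B b := by
  unfold comb
  simp only [Pi.add_apply, add_smul, Finset.sum_add_distrib]

theorem comb_smul (B : Fin d → Matrix (Fin m) (Fin m) F) (r : F) (a : Fin d → F) :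
    comb B (r • a) = r • comb B a := by
  unfold comb
  simp only [Pi.smul_apply, smul_eq_mul, mul_smul, Finset.smul_sum]

/-- the linear map with the matrix `M * comb B a` -/
noncomputable def Phi (M : Matrix (Fin m) (Fin m) F) (B : Fin d → Matrix (Fin m) (Fin m) F) :
    (Fin d → F) →ₗ[F] Module.End F (Fin m → F) where
  toFun a := Matrix.toLin' (M * comb B a)
  map_add' a b := by rw [comb_add, Matrix.mul_add, map_add]
  map_smul' r a := by rw [comb_smul, Matrix.mul_smul, map_smul, RingHom.id_apply]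

theorem Phi_apply (M : Matrix (Fin m) (Fin m) F) (B : Fin d → Matrix (Fin m) (Fin m) F)
    (a : Fin d → F) : Phi M B a = Matrix.toLin' (M * comb B a) := rfl

theorem Phi_injective {M M' : Matrix (Fin m) (Fin m) F} (hM : M' * M = 1)
    {B : Fin d → Matrix (Fin m) (Fin m) F} (hB : LinearIndependent F B) :
    Function.Injective (Phi M B) := by
  rw [← LinearMap.ker_eq_bot, LinearMap.ker_eq_bot']
  intro a ha
  rw [Phi_apply] at ha
  have h1 : M * comb B a = 0 := by
    have := Matrix.toLin'.map_eq_zero_iff.1 ha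
    exact this
  have h2 : comb B a = 0 := by
    calc comb B a = (M' * M) * comb B a := by rw [hM, Matrix.one_mul]
      _ = 0 := by rw [Matrix.mul_assoc, h1, Matrix.mul_zero]
  funext l
  exact Fintype.linearIndependent_iff.1 hB a h2 l

theorem trace_Phi3 (M : Matrix (Fin m) (Fin m) F) (B : Fin d → Matrix (Fin m) (Fin m) F)
    (a b e : Fin d → F) : LinearMap.trace F (Fin m → F) (Phi M B a * Phi M B b * Phi M B e) =
      Matrix.trace (M * comb B a * (M * comb B b) * (M * comb B e)) := by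
  rw [Phi_apply, Phi_apply, Phi_apply, Module.End.mul_eq_comp, Module.End.mul_eq_comp,
    ← Matrix.toLin'_mul, ← Matrix.toLin'_mul, Matrix.trace_toLin'_eq]

theorem trace_Phi1 (M : Matrix (Fin m) (Fin m) F) (B : Fin d → Matrix (Fin m) (Fin m) F)
    (a : Fin d → F) : LinearMap.trace F (Fin m → F) (Phi M B a) =
      Matrix.trace (M * comb B a) := by
  rw [Phi_apply, Matrix.trace_toLin'_eq]

/-- the three blocks -/
theorem blocks (hT3 : S_T3) [Infinite F] {M M' : Matrix (Fin m) (Fin m) F} (hM : M' * M = 1)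
    {B : Fin d → Matrix (Fin m) (Fin m) F} (hB : LinearIndependent F B) {k : ℕ} (hk : 1 ≤ k)
    (hd : m ^ 2 + 6 * k * m < 2 * d) :
    ∃ α β γ : Matrix (Fin k) (Fin k) F →ₗ[F] (Fin d → F), ∀ X Y Z,
      Matrix.trace (M * comb B (α X)) = 0 ∧ Matrix.trace (M * comb B (β Y)) = 0 ∧
      Matrix.trace (M * comb B (γ Z)) = 0 ∧
      Matrix.trace (M * comb B (α X) * (M * comb B (β Y)) * (M * comb B (γ Z))) =
        Matrix.trace (X * Y * Z) ∧
      Matrix.trace (M * comb B (α X) * (M * comb B (γ Z)) * (M * comb B (β Y))) = 0 := by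
  have hinj := Phi_injective hM hB
  have hfin : Module.finrank F (LinearMap.range (Phi M B)) = d := by
    rw [LinearMap.finrank_range_of_inj hinj, Module.finrank_fin_fun]
  obtain ⟨N, hN⟩ : ∃ N, 3 * k = N + 1 := ⟨3 * k - 1, by omega⟩
  have hdim : Module.finrank F (Fin m → F) * (Module.finrank F (Fin m → F) + 1) +
      2 * N * Module.finrank F (Fin m → F) <
      2 * Module.finrank F (LinearMap.range (Phi M B)) := by
    rw [hfin, Module.finrank_fin_fun]
    have h1 : 2 * N + 2 = 6 * k := by omega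
    nlinarith
  obtain ⟨E, hE1, _, hE3⟩ := hT3 F (Fin m → F) (LinearMap.range (Phi M B)) N hdim
  have hex : ∀ i j, ∃ v : Fin d → F, i ≠ j → Phi M B v = E i j := by
    intro i j
    by_cases hij : i = j
    · exact ⟨0, fun h => absurd hij h⟩
    · obtain ⟨v, hv⟩ := (hE1 i j hij).1
      exact ⟨v, fun _ => hv⟩
  choose e he using hex
  let g : Fin 3 → Fin k → Fin (N + 1) := fun s i => finCongr hN (finProdFinEquiv (s, i))
  have hg : ∀ s i t j, g s i = g t j ↔ s = t ∧ i = j := by
    intro s i t j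
    simp only [g]
    rw [(finCongr hN).injective.eq_iff, finProdFinEquiv.injective.eq_iff, Prod.mk.injEq]
  have hne : ∀ s i t j, s ≠ t → g s i ≠ g t j := fun s i t j hst h => hst ((hg s i t j).1 h).1
  let lin : Fin 3 → Fin 3 → (Matrix (Fin k) (Fin k) F →ₗ[F] (Fin d → F)) := fun s t =>
    { toFun := fun X => ∑ i, ∑ j, X i j • e (g s i) (g t j)
      map_add' := fun X Y => by
        simp only [Matrix.add_apply, add_smul, Finset.sum_add_distrib]
      map_smul' := fun r X => by
        simp only [Matrix.smul_apply, smul_eq_mul, mul_smul, Finset.smul_sum, RingHom.id_apply] }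
  have hlin : ∀ s t, s ≠ t → ∀ X, Phi M B (lin s t X) = ∑ i, ∑ j, X i j • E (g s i) (g t j) := by
    intro s t hst X
    simp only [lin, LinearMap.coe_mk, AddHom.coe_mk, map_sum, map_smul]
    refine sum_congr rfl fun i _ => sum_congr rfl fun j _ => ?_
    rw [he _ _ (hne s i t j hst)]
  have htr : ∀ s t, s ≠ t → ∀ X, Matrix.trace (M * comb B (lin s t X)) = 0 := by
    intro s t hst X
    rw [← trace_Phi1, hlin s t hst, map_sum]
    refine sum_eq_zero fun i _ => ?_
    rw [map_sum]
    refine sum_eq_zero fun j _ => ?_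
    rw [map_smul, (hE1 _ _ (hne s i t j hst)).2, smul_zero]
  have htr3 : ∀ s t s' t' s'' t'', s ≠ t → s' ≠ t' → s'' ≠ t'' → ∀ X Y Z,
      Matrix.trace (M * comb B (lin s t X) * (M * comb B (lin s' t' Y)) *
        (M * comb B (lin s'' t'' Z))) = if t = s' ∧ t' = s'' ∧ t'' = s then
          Matrix.trace (X * Y * Z) else 0 := by
    intro s t s' t' s'' t'' h1 h2 h3 X Y Z
    rw [← trace_Phi3, hlin s t h1, hlin s' t' h2, hlin s'' t'' h3]
    have key : ∀ i j j' l l' i', LinearMap.trace F (Fin m → F) (E (g s i) (g t j) *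
        E (g s' j') (g t' l) * E (g s'' l') (g t'' i')) =
        if t = s' ∧ t' = s'' ∧ t'' = s then
          (if j = j' ∧ l = l' ∧ i' = i then 1 else 0) else 0 := by
      intro i j j' l l' i'
      rw [hE3 _ _ _ _ _ _ (hne s i t j h1) (hne s' j' t' l h2) (hne s'' l' t'' i' h3)]
      by_cases hc : t = s' ∧ t' = s'' ∧ t'' = s
      · rw [if_pos hc]
        refine if_congr ?_ rfl rfl
        rw [hg, hg, hg]
        simp [hc.1, hc.2.1, hc.2.2]
      · rw [if_neg hc, if_neg]
        rintro ⟨a, b, c⟩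
        exact hc ⟨((hg _ _ _ _).1 a).1, ((hg _ _ _ _).1 b).1, ((hg _ _ _ _).1 c).1⟩
    simp only [Finset.sum_mul, Finset.mul_sum, map_sum, smul_mul_assoc, mul_smul_comm, map_smul,
      key, smul_eq_mul]
    split_ifs with hc
    · rw [Matrix.trace_mul_comm]
      simp only [Matrix.trace, Matrix.diag_apply, Matrix.mul_apply, Finset.mul_sum]
      refine sum_congr rfl fun x _ => sum_congr rfl fun x1 _ => sum_congr rfl fun x2 _ => ?_
      rw [Finset.sum_eq_single x, Finset.sum_eq_single x1, Finset.sum_eq_single x2]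
      · rw [if_pos ⟨rfl, rfl, rfl⟩]
        ring
      · intro b _ hb
        rw [if_neg (fun h => hb h.1)]
        ring
      · intro h
        exact absurd (mem_univ _) h
      · intro b _ hb
        refine sum_eq_zero fun c _ => ?_
        rw [if_neg (fun h => hb h.2.2.symm)]
        ring
      · intro h
        exact absurd (mem_univ _) h
      · intro b _ hb
        refine sum_eq_zero fun c _ => sum_eq_zero fun c' _ => ?_
        rw [if_neg (fun h => hb h.2.1)]
        ring
      · intro h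
        exact absurd (mem_univ _) h
    · simp
  refine ⟨lin 0 1, lin 1 2, lin 2 0, fun X Y Z => ⟨htr _ _ (by decide) _, htr _ _ (by decide) _,
    htr _ _ (by decide) _, ?_, ?_⟩⟩
  · rw [htr3 _ _ _ _ _ _ (by decide) (by decide) (by decide), if_pos ⟨rfl, rfl, rfl⟩]
  · rw [htr3 _ _ _ _ _ _ (by decide) (by decide) (by decide), if_neg (by decide)]

theorem trank_zero : trank F 0 0 0 = 0 := by
  have h := trank_le (rankLE_cube F 0 0 0)
  simpa using h

/-- the determinant -/
theorem bound_det (hT3 : S_T3) (hdet : S_DET) [Infinite F] (A : Matrix (Fin m) (Fin m) F)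
    {B : Fin d → Matrix (Fin m) (Fin m) F} (hB : LinearIndependent F B) {k : ℕ}
    (hd : m ^ 2 + 6 * k * m < 2 * d) (hx : ∃ x, (A + comb B x).det ≠ 0) :
    trank F k k k ≤ 6 * cost {detOn A B} := by
  rcases Nat.eq_zero_or_pos k with hk | hk
  · subst hk
    rw [trank_zero]
    exact Nat.zero_le _
  obtain ⟨x, hx⟩ := hx
  have hu : IsUnit (A + comb B x).det := isUnit_iff_ne_zero.2 hx
  obtain ⟨T, hT, hp⟩ := cost_spec {detOn A B} (Set.finite_singleton _)
  obtain ⟨α, β, γ, H⟩ := blocks hT3 (Matrix.mul_nonsing_inv _ hu) hB hk hd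
  refine trank_le (cst3 hT x (detOn A B) (hp rfl) α β γ (A + comb B x).det hx fun X Y Z => ?_)
  obtain ⟨h1, h2, h3, h4, h5⟩ := H X Y Z
  rw [hdet F m d A B x (α X) (β Y) (γ Z) _ (Matrix.nonsing_inv_mul _ hu), h1, h2, h3, h4, h5]
  ring

/-- the trace of the cube -/
theorem bound_cube (hT3 : S_T3) (hc : S_CUBE) [Infinite F] (h3F : (3 : F) ≠ 0)
    (A : Matrix (Fin m) (Fin m) F)
    {B : Fin d → Matrix (Fin m) (Fin m) F} (hB : LinearIndependent F B) {k : ℕ}
    (hd : m ^ 2 + 6 * k * m < 2 * d) :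
    trank F k k k ≤ 6 * cost {cubeOn A B} := by
  rcases Nat.eq_zero_or_pos k with hk | hk
  · subst hk
    rw [trank_zero]
    exact Nat.zero_le _
  obtain ⟨T, hT, hp⟩ := cost_spec {cubeOn A B} (Set.finite_singleton _)
  obtain ⟨α, β, γ, H⟩ := blocks hT3 (M := 1) (M' := 1) (Matrix.mul_one _) hB hk hd
  refine trank_le (cst3 hT 0 (cubeOn A B) (hp rfl) α β γ 3 h3F fun X Y Z => ?_)
  obtain ⟨h1, h2, h3, h4, h5⟩ := H X Y Z
  simp only [Matrix.one_mul] at h4 h5
  rw [hc F m d A B 0 (α X) (β Y) (γ Z), h4, h5, add_zero]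

/-- the square -/
theorem bound_sq (hT2 : S_T2) (hs : S_SQ) [Infinite F] (A : Matrix (Fin m) (Fin m) F)
    {B : Fin d → Matrix (Fin m) (Fin m) F} (hB : LinearIndependent F B) {k : ℕ}
    (hd : m ^ 2 + 16 * k * m < 4 * d) :
    trank F k k k ≤ 2 * cost (squareOn A B) := by
  have hinj := Phi_injective (M := 1) (M' := 1) (Matrix.mul_one _) hB
  have hfin : Module.finrank F (LinearMap.range (Phi 1 B)) = d := by
    rw [LinearMap.finrank_range_of_inj hinj, Module.finrank_fin_fun]
  obtain ⟨β, γ, e, P, hW, H⟩ := hT2 F (Fin m → F) (LinearMap.range (Phi 1 B)) k (by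
    rw [hfin, Module.finrank_fin_fun]
    exact hd)
  have hfs : (squareOn A B).Finite := by
    refine (Set.finite_range fun ij : Fin m × Fin m => (gen A B * gen A B) ij.1 ij.2).subset ?_
    rintro _ ⟨i, j, rfl⟩
    exact ⟨(i, j), rfl⟩
  obtain ⟨T, hT, hp⟩ := cost_spec (squareOn A B) hfs
  let eq := LinearEquiv.ofInjective (Phi 1 B) hinj
  have hlift : ∀ β : Matrix (Fin k) (Fin k) F →ₗ[F] Module.End F (Fin m → F),
      (∀ X, β X ∈ LinearMap.range (Phi 1 B)) →
      ∃ β' : Matrix (Fin k) (Fin k) F →ₗ[F] (Fin d → F), ∀ X, Phi 1 B (β' X) = β X := by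
    intro β hβ
    refine ⟨eq.symm.toLinearMap.comp (β.codRestrict _ hβ), fun X => ?_⟩
    have h1 : eq (eq.symm (β.codRestrict _ hβ X)) = β.codRestrict _ hβ X :=
      LinearEquiv.apply_symm_apply _ _
    have h2 := congrArg Subtype.val h1
    rw [LinearEquiv.ofInjective_apply] at h2
    exact h2
  obtain ⟨β', hβ'⟩ := hlift β fun X => (hW X).1
  obtain ⟨γ', hγ'⟩ := hlift γ fun X => (hW X).2
  refine trank_le (cst2 hT 0 (fun i j => (gen A B * gen A B) i j) (fun i j => hp ⟨i, j, rfl⟩)
    β' γ' (fun i j u v => P (Pi.single u 1) i * e j v) fun X Y i j => ?_)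
  have h1 : ∀ u v, eval 0 (dd (β' X) (dd (γ' Y) ((gen A B * gen A B) u v))) =
      (comb B (β' X) * comb B (γ' Y) + comb B (γ' Y) * comb B (β' X)) u v :=
    fun u v => hs F m d A B 0 (β' X) (γ' Y) u v
  simp only [h1]
  set S := comb B (β' X) * comb B (γ' Y) + comb B (γ' Y) * comb B (β' X) with hS
  have h2 : β X = Matrix.toLin' (comb B (β' X)) := by
    rw [← hβ' X, Phi_apply, Matrix.one_mul]
  have h3 : γ Y = Matrix.toLin' (comb B (γ' Y)) := by
    rw [← hγ' Y, Phi_apply, Matrix.one_mul]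
  have h4 : S.mulVec (e j) = β X (γ Y (e j)) + γ Y (β X (e j)) := by
    rw [hS, h2, h3, Matrix.add_mulVec, ← Matrix.mulVec_mulVec, ← Matrix.mulVec_mulVec]
    simp only [Matrix.toLin'_apply]
  obtain ⟨h5, h6⟩ := H X Y i j
  rw [h6, add_zero] at h4
  rw [← h5, ← h4]
  have h7 : S.mulVec (e j) = ∑ u, (S.mulVec (e j)) u • (Pi.single u 1 : Fin m → F) := by
    funext a
    rw [Finset.sum_apply]
    simp [Pi.single_apply]
  rw [h7, map_sum, Finset.sum_apply]
  refine sum_congr rfl fun u _ => ?_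
  rw [map_smul, Pi.smul_apply, smul_eq_mul, Matrix.mulVec, dotProduct, Finset.sum_mul]
  refine sum_congr rfl fun v _ => ?_
  ring

end

end Pool.Agent.Helper16K9.TH
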