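import Pool.Agent.Helper16K9.TH.Df

set_option autoImplicit false

/-!
# Structured matrices: circuits and computations
-/

namespace Pool.Agent.Helper16K9.TH

open MvPolynomial Pool.Agent.W956.KF Pool.Agent.H522R2

namespace CirL

variable {F V : Type} [Field F]

theorem inputs_le {s : ℕ} {T : Submodule F (MvPolynomial V F)} (h : Obt F (inputs F V) s T) :
    inputs F V ≤ T := by
  induction h with
  | start => exact le_rfl
  | mul _ _ _ ih => exact ih.trans le_sup_left

theorem X_mem (x : V) : (X x : MvPolynomial V F) ∈ inputs F V :=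
  Submodule.subset_span (Set.mem_insert_of_mem _ (Set.mem_range_self x))

theorem C_mem (c : F) : (C c : MvPolynomial V F) ∈ inputs F V := by
  have h : (C c : MvPolynomial V F) = c • (1 : MvPolynomial V F) := by
    rw [MvPolynomial.smul_eq_C_mul, mul_one]
  rw [h]
  exact Submodule.smul_mem _ _ (Submodule.subset_span (Set.mem_insert _ _))

open Classical in
/-- the number of nonscalar multiplications among the first `n` nodes -/
noncomputable def cnt (C : Circuit F V) (n : ℕ) : ℕ :=
  (Finset.univ.filter fun k : Fin C.nodes => (k : ℕ) < n ∧ C.IsNonscalar k).card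

theorem cnt_mono (C : Circuit F V) {a b : ℕ} (h : a ≤ b) : cnt C a ≤ cnt C b := by
  classical
  unfold cnt
  apply Finset.card_le_card
  intro k hk
  rw [Finset.mem_filter] at hk ⊢
  exact ⟨hk.1, hk.2.1.trans_le h, hk.2.2⟩

theorem cnt_succ (C : Circuit F V) {n : ℕ} (hn : n < C.nodes) (h : C.IsNonscalar ⟨n, hn⟩) :
    cnt C n + 1 ≤ cnt C (n + 1) := by
  classical
  unfold cnt
  have h1 : (⟨n, hn⟩ : Fin C.nodes) ∉
      (Finset.univ.filter fun k : Fin C.nodes => (k : ℕ) < n ∧ C.IsNonscalar k) := by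
    rw [Finset.mem_filter]
    rintro ⟨_, h2, _⟩
    exact lt_irrefl _ h2
  rw [← Finset.card_insert_of_notMem h1]
  apply Finset.card_le_card
  intro k hk
  rw [Finset.mem_insert] at hk
  rw [Finset.mem_filter]
  rcases hk with rfl | hk
  · exact ⟨Finset.mem_univ _, Nat.lt_succ_self _, h⟩
  · rw [Finset.mem_filter] at hk
    exact ⟨hk.1, hk.2.1.trans (Nat.lt_succ_self _), hk.2.2⟩

theorem cnt_le (C : Circuit F V) (n : ℕ) : cnt C n ≤ C.nonscalarCount := by
  classical
  unfold cnt Circuit.nonscalarCount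
  rw [Nat.card_eq_fintype_card, Fintype.card_subtype]
  apply Finset.card_le_card
  intro k hk
  rw [Finset.mem_filter] at hk ⊢
  exact ⟨hk.1, hk.2.2⟩

theorem main (C : Circuit F V) (n : ℕ) (hn : n ≤ C.nodes) :
    ∃ (s : ℕ) (T : Submodule F (MvPolynomial V F)), s ≤ cnt C n ∧ Obt F (inputs F V) s T ∧
      ∀ k : Fin C.nodes, (k : ℕ) < n → C.poly k ∈ T := by
  induction n with
  | zero => exact ⟨0, _, Nat.zero_le _, .start, fun k hk => absurd hk (Nat.not_lt_zero _)⟩
  | succ n ih =>
    obtain ⟨s, T, hs, hT, hk⟩ := ih (Nat.le_of_succ_le hn)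
    have hn' : n < C.nodes := hn
    have hI := inputs_le hT
    -- it is enough to treat the node `n`
    have key : ∀ (s' : ℕ) (T' : Submodule F (MvPolynomial V F)), s' ≤ cnt C (n + 1) →
        Obt F (inputs F V) s' T' → T ≤ T' → C.poly ⟨n, hn'⟩ ∈ T' →
        ∃ (s : ℕ) (T : Submodule F (MvPolynomial V F)), s ≤ cnt C (n + 1) ∧
          Obt F (inputs F V) s T ∧ ∀ k : Fin C.nodes, (k : ℕ) < n + 1 → C.poly k ∈ T := by
      intro s' T' h1 h2 h3 h4
      refine ⟨s', T', h1, h2, fun k hk' => ?_⟩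
      rcases Nat.lt_succ_iff_lt_or_eq.1 hk' with h | h
      · exact h3 (hk k h)
      · have : k = ⟨n, hn'⟩ := Fin.ext h
        rw [this]; exact h4
    have hs' : s ≤ cnt C (n + 1) := hs.trans (cnt_mono C (Nat.le_succ n))
    cases hg : C.gate ⟨n, hn'⟩ with
    | var x =>
      refine key s T hs' hT le_rfl (hI ?_)
      rw [Circuit.poly, hg]
      exact X_mem x
    | const c =>
      refine key s T hs' hT le_rfl (hI ?_)
      rw [Circuit.poly, hg]
      exact C_mem c
    | add i j =>
      refine key s T hs' hT le_rfl ?_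
      rw [Circuit.poly, hg]
      exact T.add_mem (hk _ i.2) (hk _ j.2)
    | mul i j =>
      have hi : C.poly (C.up ⟨n, hn'⟩ i) ∈ T := hk _ i.2
      have hj : C.poly (C.up ⟨n, hn'⟩ j) ∈ T := hk _ j.2
      have he : C.poly ⟨n, hn'⟩ = C.poly (C.up ⟨n, hn'⟩ i) * C.poly (C.up ⟨n, hn'⟩ j) := by
        conv_lhs => rw [Circuit.poly, hg]
      by_cases hc : C.IsNonscalar ⟨n, hn'⟩
      · refine key (s + 1) (T ⊔ Submodule.span F
          {C.poly (C.up ⟨n, hn'⟩ i) * C.poly (C.up ⟨n, hn'⟩ j)})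
          ((Nat.succ_le_succ hs).trans (cnt_succ C hn' hc)) (.mul hT hi hj) le_sup_left ?_
        rw [he]
        exact le_sup_right (a := T) (Submodule.mem_span_singleton_self _)
      · refine key s T hs' hT le_rfl ?_
        rw [he]
        by_cases h1 : ∃ c : F, C.poly (C.up ⟨n, hn'⟩ i) = MvPolynomial.C c
        · obtain ⟨c, hc1⟩ := h1
          rw [hc1, ← MvPolynomial.smul_eq_C_mul]
          exact T.smul_mem c hj
        · by_cases h2 : ∃ c : F, C.poly (C.up ⟨n, hn'⟩ j) = MvPolynomial.C c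
          · obtain ⟨c, hc1⟩ := h2
            rw [hc1, mul_comm, ← MvPolynomial.smul_eq_C_mul]
            exact T.smul_mem c hi
          · exact absurd ⟨i, j, hg, fun c h => h1 ⟨c, h⟩, fun c h => h2 ⟨c, h⟩⟩ hc

end CirL

theorem cir : S_CIR := by
  intro F _ V C P hP
  obtain ⟨s, T, hs, hT, hk⟩ := CirL.main C C.nodes le_rfl
  have h1 : cost P ≤ s := by
    refine Nat.sInf_le ⟨T, hT, fun p hp => ?_⟩
    obtain ⟨k, rfl⟩ := hP hp
    exact hk k k.2
  exact h1.trans (hs.trans (CirL.cnt_le C _))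

end Pool.Agent.Helper16K9.TH
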