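import Pool.Agent.Helper16K9.TH.Df

set_option autoImplicit false

/-!
# [DET]: third derivatives of the determinant (Jacobi formula for derivations)
-/

namespace Pool.Agent.Helper16K9.TH

open MvPolynomial Matrix

namespace DetL

section
variable {F R : Type} [CommRing F] [CommRing R] [Algebra F R] (D : Derivation F R R)

/-- the product rule for finite products -/
lemma D_prod {ι : Type} [DecidableEq ι] (s : Finset ι) (f : ι → R) :
    D (∏ i ∈ s, f i) = ∑ i ∈ s, (∏ j ∈ s.erase i, f j) * D (f i) := by
  induction s using Finset.induction_on with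
  | empty => simp
  | insert a s ha ih =>
    rw [Finset.prod_insert ha, D.leibniz, ih, Finset.sum_insert ha, Finset.erase_insert ha]
    simp only [smul_eq_mul]
    rw [Finset.mul_sum, add_comm]
    congr 1
    refine Finset.sum_congr rfl fun i hi => ?_
    have h1 : a ≠ i := fun h => ha (h ▸ hi)
    have h2 : a ∉ s.erase i := fun h => ha (Finset.mem_of_mem_erase h)
    rw [Finset.erase_insert_of_ne h1, Finset.prod_insert h2]
    ring

/-- Jacobi's formula -/
lemma jacobi {m : ℕ} (P : Matrix (Fin m) (Fin m) R) :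
    D P.det = trace (P.adjugate * P.map D) := by
  have h1 : D P.det = ∑ i, (P.updateCol i (fun j => D (P j i))).det := by
    simp only [Matrix.det_apply']
    rw [map_sum, Finset.sum_comm]
    refine Finset.sum_congr rfl fun σ _ => ?_
    have h2 : ((Equiv.Perm.sign σ : ℤ) : R) * ∏ i, P (σ i) i =
        (Equiv.Perm.sign σ : ℤ) • ∏ i, P (σ i) i := by
      rw [zsmul_eq_mul]
    rw [h2, map_zsmul, D_prod, zsmul_eq_mul, Finset.mul_sum]
    refine Finset.sum_congr rfl fun i _ => ?_
    congr 1
    rw [← Finset.mul_prod_erase Finset.univ _ (Finset.mem_univ i), Matrix.updateCol_self, mul_comm]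
    congr 1
    refine Finset.prod_congr rfl fun j hj => ?_
    rw [Matrix.updateCol_ne (Finset.ne_of_mem_erase hj)]
  rw [h1]
  simp only [Matrix.trace, Matrix.diag_apply, Matrix.mul_apply, Matrix.map_apply]
  refine Finset.sum_congr rfl fun i _ => ?_
  rw [← Matrix.cramer_apply, Matrix.cramer_eq_adjugate_mulVec]
  rfl

lemma map_mul' {m : ℕ} (P Q : Matrix (Fin m) (Fin m) R) :
    (P * Q).map D = P.map D * Q + P * Q.map D := by
  ext i j
  simp only [Matrix.map_apply, Matrix.mul_apply, Matrix.add_apply, map_sum]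
  rw [← Finset.sum_add_distrib]
  refine Finset.sum_congr rfl fun l _ => ?_
  rw [D.leibniz]
  simp only [smul_eq_mul]
  ring

lemma map_smul_one {m : ℕ} (x : R) :
    (x • (1 : Matrix (Fin m) (Fin m) R)).map D = (D x) • (1 : Matrix (Fin m) (Fin m) R) := by
  ext i j
  simp only [Matrix.map_apply, Matrix.smul_apply, Matrix.one_apply, smul_eq_mul]
  split_ifs <;> simp

lemma dtrace {m : ℕ} (P : Matrix (Fin m) (Fin m) R) : D (trace P) = trace (P.map D) := by
  simp only [Matrix.trace, Matrix.diag_apply, Matrix.map_apply, map_sum]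

end

section
variable {F : Type} [Field F] {m d : ℕ}

lemma dd_gen (A : Matrix (Fin m) (Fin m) F) (B : Fin d → Matrix (Fin m) (Fin m) F)
    (a : Fin d → F) : (gen A B).map (dd a) = (comb B a).map C := by
  refine Matrix.ext fun i j => ?_
  rw [Matrix.map_apply, Matrix.map_apply]
  unfold gen comb dd
  rw [map_add, map_sum, Matrix.sum_apply, map_sum]
  have h1 : (mkDerivation F fun i => C (a i)) (C (A i j)) = (0 : MvPolynomial (Fin d) F) := by
    exact Derivation.map_algebraMap _ _
  rw [h1, zero_add]
  refine Finset.sum_congr rfl fun l _ => ?_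
  rw [Derivation.leibniz, mkDerivation_X]
  have h2 : (mkDerivation F fun i => C (a i)) (C (B l i j)) = (0 : MvPolynomial (Fin d) F) := by
    exact Derivation.map_algebraMap _ _
  rw [h2, smul_zero, add_zero, Matrix.smul_apply, smul_eq_mul, smul_eq_mul, map_mul, mul_comm]

lemma dd_const (K : Matrix (Fin m) (Fin m) F) (a : Fin d → F) :
    (K.map C).map (dd a) = (0 : Matrix (Fin m) (Fin m) (MvPolynomial (Fin d) F)) := by
  refine Matrix.ext fun i j => ?_
  rw [Matrix.map_apply, Matrix.map_apply]
  exact Derivation.map_algebraMap _ _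

lemma eval_gen (A : Matrix (Fin m) (Fin m) F) (B : Fin d → Matrix (Fin m) (Fin m) F)
    (c : Fin d → F) : (eval c).mapMatrix (gen A B) = A + comb B c := by
  refine Matrix.ext fun i j => ?_
  rw [RingHom.mapMatrix_apply, Matrix.map_apply, Matrix.add_apply]
  unfold gen comb
  rw [map_add, map_sum, eval_C, Matrix.sum_apply]
  congr 1
  refine Finset.sum_congr rfl fun l _ => ?_
  rw [map_mul, eval_C, eval_X, Matrix.smul_apply, smul_eq_mul, mul_comm]

lemma eval_const (K : Matrix (Fin m) (Fin m) F) (c : Fin d → F) :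
    (eval c).mapMatrix (K.map C) = K := by
  refine Matrix.ext fun i j => ?_
  rw [RingHom.mapMatrix_apply, Matrix.map_apply, Matrix.map_apply, eval_C]

lemma eval_trace (c : Fin d → F) (P : Matrix (Fin m) (Fin m) (MvPolynomial (Fin d) F)) :
    eval c (trace P) = trace ((eval c).mapMatrix P) := by
  simp only [Matrix.trace, Matrix.diag_apply, RingHom.mapMatrix_apply, Matrix.map_apply, map_sum]

lemma eval_smul_one (c : Fin d → F) (x : MvPolynomial (Fin d) F) :
    (eval c).mapMatrix (x • (1 : Matrix (Fin m) (Fin m) (MvPolynomial (Fin d) F))) =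
      (eval c x) • (1 : Matrix (Fin m) (Fin m) F) := by
  refine Matrix.ext fun i j => ?_
  rw [RingHom.mapMatrix_apply, Matrix.map_apply, Matrix.smul_apply, Matrix.smul_apply]
  simp only [Matrix.one_apply, smul_eq_mul]
  split_ifs <;> simp

end

end DetL

open DetL

theorem det3 : S_DET := by
  intro F _ m d A B c a b e M hM
  set P0 : Matrix (Fin m) (Fin m) F := A + comb B c with hP0
  have hM' : P0 * M = 1 := mul_eq_one_comm.1 hM
  set P := gen A B with hP
  set Q := P.adjugate with hQ
  set δ := P0.det with hδ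
  -- values at `c`
  set E := (eval c).mapMatrix (m := Fin m) with hE
  have eP : E P = P0 := eval_gen A B c
  have eC : ∀ K : Matrix (Fin m) (Fin m) F, E (K.map C) = K := fun K => eval_const K c
  have eQ : E Q = δ • M := by
    have h1 : E Q = P0.adjugate := by
      rw [hE, hQ, RingHom.map_adjugate, ← hE, eP]
    rw [h1]
    calc P0.adjugate = P0.adjugate * (P0 * M) := by rw [hM', mul_one]
      _ = (P0.adjugate * P0) * M := by rw [mul_assoc]
      _ = δ • M := by rw [Matrix.adjugate_mul, Matrix.smul_mul, one_mul]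
  -- the derivatives of the determinant
  have j1 : ∀ u : Fin d → F, dd u P.det = trace (Q * (comb B u).map C) := fun u => by
    rw [jacobi, dd_gen]
  have j2 : ∀ u v : Fin d → F, dd u (dd v P.det) = trace (Q.map (dd u) * (comb B v).map C) :=
    fun u v => by
      rw [j1, dtrace, map_mul', dd_const, mul_zero, add_zero]
  have j3 : dd a (dd b (dd e P.det)) = trace ((Q.map (dd b)).map (dd a) * (comb B e).map C) := by
    rw [j2, dtrace, map_mul', dd_const, mul_zero, add_zero]
  -- the derivatives of the identity `Q P = det P`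
  have q0 : Q * P = P.det • (1 : Matrix (Fin m) (Fin m) (MvPolynomial (Fin d) F)) :=
    Matrix.adjugate_mul P
  have q1 : ∀ u : Fin d → F, Q.map (dd u) * P + Q * (comb B u).map C =
      (dd u P.det) • (1 : Matrix (Fin m) (Fin m) (MvPolynomial (Fin d) F)) := fun u => by
    rw [← map_smul_one, ← q0, map_mul', dd_gen]
  have q2 : (Q.map (dd b)).map (dd a) * P + Q.map (dd b) * (comb B a).map C +
      Q.map (dd a) * (comb B b).map C =
      (dd a (dd b P.det)) • (1 : Matrix (Fin m) (Fin m) (MvPolynomial (Fin d) F)) := by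
    rw [← map_smul_one, ← q1 b]
    have : ∀ U V : Matrix (Fin m) (Fin m) (MvPolynomial (Fin d) F),
        (U + V).map (dd a) = U.map (dd a) + V.map (dd a) := fun U V => by
      ext i j
      simp
    rw [this, map_mul', map_mul', dd_gen, dd_const, mul_zero, add_zero]
  -- values
  have v1 : ∀ u : Fin d → F, eval c (dd u P.det) = δ * trace (M * comb B u) := fun u => by
    rw [j1, eval_trace, ← hE, map_mul, eQ, eC, Matrix.smul_mul, Matrix.trace_smul, smul_eq_mul]
  have w1 : ∀ u : Fin d → F, E (Q.map (dd u)) =
      δ • (trace (M * comb B u) • M - M * comb B u * M) := fun u => by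
    have h1 := congrArg E (q1 u)
    rw [map_add, map_mul, map_mul, eP, eQ, eC, eval_smul_one, v1] at h1
    have h2 : E (Q.map (dd u)) * P0 = (δ * trace (M * comb B u)) • (1 : Matrix (Fin m) (Fin m) F) -
        δ • M * comb B u := eq_sub_of_add_eq h1
    calc E (Q.map (dd u)) = E (Q.map (dd u)) * P0 * M := by rw [mul_assoc, hM', mul_one]
      _ = _ := by
        rw [h2, Matrix.sub_mul, Matrix.smul_mul, one_mul, smul_sub, smul_smul, Matrix.smul_mul,
          Matrix.smul_mul]
  have v2 : eval c (dd a (dd b P.det)) =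
      δ * (trace (M * comb B a) * trace (M * comb B b) - trace (M * comb B a * (M * comb B b))) := by
    rw [j2, eval_trace, ← hE, map_mul, w1, eC, Matrix.smul_mul, Matrix.trace_smul, Matrix.sub_mul,
      Matrix.trace_sub, Matrix.smul_mul, Matrix.trace_smul, smul_eq_mul, smul_eq_mul, mul_assoc _ M]
  have w2 : E ((Q.map (dd b)).map (dd a)) = ((eval c (dd a (dd b P.det))) •
      (1 : Matrix (Fin m) (Fin m) F) - E (Q.map (dd b)) * comb B a -
      E (Q.map (dd a)) * comb B b) * M := by
    have h1 := congrArg E q2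
    rw [map_add, map_add, map_mul, map_mul, map_mul, eP, eC, eC, eval_smul_one] at h1
    have h2 : E ((Q.map (dd b)).map (dd a)) * P0 = (eval c (dd a (dd b P.det))) •
        (1 : Matrix (Fin m) (Fin m) F) - E (Q.map (dd b)) * comb B a -
        E (Q.map (dd a)) * comb B b := by
      rw [← h1]; abel
    calc E ((Q.map (dd b)).map (dd a)) = E ((Q.map (dd b)).map (dd a)) * P0 * M := by
          rw [mul_assoc, hM', mul_one]
      _ = _ := by rw [h2]
  show eval c (dd a (dd b (dd e P.det))) = _
  rw [j3, eval_trace, ← hE, map_mul, eC, w2, v2, w1, w1]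
  have cyc : ∀ x y z : Matrix (Fin m) (Fin m) F, trace (y * x * z) = trace (x * z * y) :=
    fun x y z => by rw [Matrix.trace_mul_comm (x * z) y, mul_assoc]
  generalize hα : M * comb B a = α at *
  generalize hβ : M * comb B b = β at *
  generalize hε : M * comb B e = ε at *
  have e1 : ∀ (x : F) (U V : Matrix (Fin m) (Fin m) F),
      (x • (1 : Matrix (Fin m) (Fin m) F) - U * comb B a - V * comb B b) * M * comb B e =
        x • ε - U * comb B a * ε - V * comb B b * ε := fun x U V => by
    rw [Matrix.sub_mul, Matrix.sub_mul, Matrix.sub_mul, Matrix.sub_mul, Matrix.smul_mul,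
      Matrix.smul_mul, one_mul, mul_assoc _ M, mul_assoc _ M, hε]
  rw [e1]
  have e2 : δ • (trace β • M - β * M) * comb B a = δ • (trace β • α - β * α) := by
    rw [Matrix.smul_mul, Matrix.sub_mul, Matrix.smul_mul, mul_assoc, hα]
  have e3 : δ • (trace α • M - α * M) * comb B b = δ • (trace α • β - α * β) := by
    rw [Matrix.smul_mul, Matrix.sub_mul, Matrix.smul_mul, mul_assoc, hβ]
  rw [e2, e3]
  simp only [Matrix.smul_mul, Matrix.sub_mul, Matrix.trace_sub, Matrix.trace_smul, smul_eq_mul]
  rw [cyc α β ε]
  ring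

end Pool.Agent.Helper16K9.TH
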