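import Pool.Agent.Helper44K9.TH.Grd

set_option autoImplicit false

/-! The greedy choice (written by helper44). -/

namespace Pool.Agent.Helper16K9.TH

theorem grd : S_GRD := Pool.Agent.Helper44K9.TH.grd

end Pool.Agent.Helper16K9.TH
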