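import Pool.Agent.Helper16K9.TH.Df
import Pool.Agent.Helper16K9.Adds.Equiv

set_option autoImplicit false
set_option linter.unusedSectionVars false
set_option linter.unusedVariables false

/-!
# [GRW] growth
-/

namespace Pool.Agent.Helper16K9.TH

open Finset Filter Pool.Agent.W956.KF Pool.Agent.H826R3.SM

namespace GrwL

variable {F : Type} [Field F]

theorem trank_upper {τ : ℝ} (hτ : omegaMM F < τ) :
    ∃ D : ℝ, 0 ≤ D ∧ ∀ m : ℕ, (trank F m m m : ℝ) ≤ D * (m : ℝ) ^ τ := by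
  obtain ⟨C, hC⟩ := sizeMM_upper (K := F) hτ
  refine ⟨2 * |C|, by positivity, fun m => ?_⟩
  have h1 : (trank F m m m : ℝ) ≤ 2 * sizeMM F m := by
    exact_mod_cast Pool.Agent.Helper16K9.Adds.trank_le_two_size F m
  have h2 := hC m
  have h3 : C * (m : ℝ) ^ τ ≤ |C| * (m : ℝ) ^ τ :=
    mul_le_mul_of_nonneg_right (le_abs_self C) (Real.rpow_nonneg (Nat.cast_nonneg m) _)
  linarith

theorem f_upper {f : ℕ → ℕ} (hup : ∀ m, f m ≤ trank F m m m + m ^ 2) {τ : ℝ}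
    (hτ : omegaMM F < τ) : ∃ D : ℝ, 0 ≤ D ∧ ∀ N : ℕ, (f N : ℝ) ≤ D * (N : ℝ) ^ τ := by
  obtain ⟨D, hD0, hD⟩ := trank_upper hτ
  refine ⟨2 * D, by positivity, fun N => ?_⟩
  have h1 : f N ≤ 2 * trank F N N N := by
    have := hup N
    have := sq_le_trank F N
    omega
  have h1' : (f N : ℝ) ≤ 2 * (trank F N N N : ℝ) := by exact_mod_cast h1
  have h2 := hD N
  linarith

theorem f_lower {f : ℕ → ℕ} {δ : ℝ} {K m₀ : ℕ} (hδ : 0 < δ)
    (hlow : ∀ m k : ℕ, m₀ ≤ m → (k : ℝ) < δ * m → trank F k k k ≤ K * f m) :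
    ∃ m₁ : ℕ, 1 ≤ m₁ ∧ ∀ m : ℕ, m₁ ≤ m →
      (δ / 4) ^ omegaMM F * (m : ℝ) ^ omegaMM F ≤ ((K : ℝ) + 1) * f m := by
  refine ⟨max (max m₀ 1) ⌈4 / δ⌉₊, (le_max_right _ _).trans (le_max_left _ _), fun m hm => ?_⟩
  have hm0 : m₀ ≤ m := (le_max_left _ _).trans ((le_max_left _ _).trans hm)
  have hm1 : 1 ≤ m := (le_max_right _ _).trans ((le_max_left _ _).trans hm)
  have hm2 : 4 / δ ≤ m := (Nat.le_ceil _).trans (by exact_mod_cast (le_max_right _ _).trans hm)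
  have hmr : (1 : ℝ) ≤ m := by exact_mod_cast hm1
  rw [div_le_iff₀ hδ] at hm2
  set k : ℕ := ⌊δ * m / 2⌋₊ with hk
  have hk1 : (k : ℝ) ≤ δ * m / 2 := Nat.floor_le (by positivity)
  have hk2 : δ * m / 2 < k + 1 := Nat.lt_floor_add_one _
  have hk3 : δ / 4 * m ≤ k := by linarith
  have hk4 : 1 ≤ k := by
    have : (0 : ℝ) < k := lt_of_lt_of_le (by positivity) hk3
    exact_mod_cast this
  have h1 := rpow_omega_le F k hk4
  have h2 : trank F k k k ≤ K * f m := hlow m k hm0 (by nlinarith)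
  have h3 : (trank F k k k : ℝ) ≤ (K : ℝ) * f m := by exact_mod_cast h2
  have h4 : (δ / 4 * m) ^ omegaMM F ≤ (k : ℝ) ^ omegaMM F :=
    Real.rpow_le_rpow (by positivity) hk3 omega_nonneg
  rw [Real.mul_rpow (by positivity) (Nat.cast_nonneg m)] at h4
  have h5 : (0 : ℝ) ≤ f m := Nat.cast_nonneg _
  linarith

theorem omega_le_of {f : ℕ → ℕ} {c : ℝ} {C : ℝ} {m₁ : ℕ} (hc : 0 < c) (hC : 0 < C)
    (hlow : ∀ m : ℕ, m₁ ≤ m → c * (m : ℝ) ^ omegaMM F ≤ C * f m) {τ D : ℝ}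
    (h : ∀ᶠ N : ℕ in atTop, (f N : ℝ) ≤ D * (N : ℝ) ^ τ) : omegaMM F ≤ τ := by
  by_contra hcon
  push Not at hcon
  have hlim : Tendsto (fun q : ℕ => (q : ℝ) ^ (omegaMM F - τ)) atTop atTop :=
    (tendsto_rpow_atTop (by linarith)).comp tendsto_natCast_atTop_atTop
  obtain ⟨N, hN1, ⟨hN2, hN2'⟩, hN3⟩ := ((hlim.eventually_gt_atTop (C * D / c)).and
      (((eventually_ge_atTop 1).and (eventually_ge_atTop m₁)).and h)).exists
  have hN0 : (0 : ℝ) < N := by exact_mod_cast (by omega : 0 < N)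
  have h1 := hlow N hN2'
  have h2 : (N : ℝ) ^ omegaMM F = (N : ℝ) ^ (omegaMM F - τ) * (N : ℝ) ^ τ := by
    rw [← Real.rpow_add hN0]
    congr 1
    ring
  have h3 : (0 : ℝ) < (N : ℝ) ^ τ := Real.rpow_pos_of_pos hN0 _
  rw [div_lt_iff₀ hc] at hN1
  have h4 := mul_lt_mul_of_pos_right hN1 h3
  have h5 : c * (N : ℝ) ^ omegaMM F ≤ C * (D * (N : ℝ) ^ τ) :=
    h1.trans (mul_le_mul_of_nonneg_left hN3 hC.le)
  rw [h2] at h5
  nlinarith

end GrwL

open GrwL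

/-- [GRW] -/
theorem grw : S_GRW := by
  intro F _ f δ K m₀ hδ hlow0 hup
  obtain ⟨m₁, hm₁, hlow⟩ := f_lower hδ hlow0
  have hc : 0 < (δ / 4) ^ omegaMM F := Real.rpow_pos_of_pos (by positivity) _
  have hK : (0 : ℝ) < (K : ℝ) + 1 := by positivity
  constructor
  · rw [omega_eq]
    have hl : ∀ τ ∈ {τ : ℝ | ∃ D : ℝ, ∀ m : ℕ, (f m : ℝ) ≤ D * (m : ℝ) ^ τ},
        omegaMM F ≤ τ := by
      rintro τ ⟨D, hD⟩
      exact omega_le_of hc hK hlow (Eventually.of_forall hD)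
    apply le_antisymm
    · refine le_of_forall_pos_le_add fun ε hε => ?_
      obtain ⟨D, _, hD⟩ := f_upper hup (τ := omegaMM F + ε) (by linarith)
      exact csInf_le ⟨omegaMM F, hl⟩ ⟨D, hD⟩
    · obtain ⟨D, _, hD⟩ := f_upper hup (τ := omegaMM F + 1) (by linarith)
      exact le_csInf ⟨_, D, hD⟩ hl
  · rw [Pool.Agent.Helper16K9.Adds.superlinear_size_iff]
    have hpow : ∀ (α : ℝ) (N : ℕ), ((N : ℝ) ^ 2) ^ α = (N : ℝ) ^ (2 * α) := by
      intro α N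
      rw [← Real.rpow_natCast (N : ℝ) 2, ← Real.rpow_mul (Nat.cast_nonneg N)]
      norm_num
    constructor
    · intro hω
      refine ⟨omegaMM F / 2, by linarith, (δ / 4) ^ omegaMM F / ((K : ℝ) + 1), by positivity,
        m₁, fun N hN => ?_⟩
      have h1 := hlow N hN
      rw [hpow, show 2 * (omegaMM F / 2) = omegaMM F by ring, div_mul_eq_mul_div,
        div_le_iff₀ hK]
      linarith
    · rintro ⟨α, hα, c, hc, m₂, h⟩
      by_contra hcon
      push Not at hcon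
      obtain ⟨D, hD0, hD⟩ := f_upper hup (τ := 1 + α) (by linarith)
      have hlim : Tendsto (fun q : ℕ => (q : ℝ) ^ (α - 1)) atTop atTop :=
        (tendsto_rpow_atTop (by linarith)).comp tendsto_natCast_atTop_atTop
      obtain ⟨N, hN1, hN2, hN3⟩ := ((hlim.eventually_gt_atTop (D / c)).and
        ((eventually_ge_atTop 1).and (eventually_ge_atTop m₂))).exists
      have hN0 : (0 : ℝ) < N := by exact_mod_cast (by omega : 0 < N)
      have h1 := (h N hN3).trans (hD N)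
      rw [hpow] at h1
      have h2 : (N : ℝ) ^ (2 * α) = (N : ℝ) ^ (α - 1) * (N : ℝ) ^ (1 + α) := by
        rw [← Real.rpow_add hN0]
        congr 1
        ring
      rw [h2] at h1
      have h3 : (0 : ℝ) < (N : ℝ) ^ (1 + α) := Real.rpow_pos_of_pos hN0 _
      rw [div_lt_iff₀ hc] at hN1
      have h4 := mul_lt_mul_of_pos_right hN1 h3
      nlinarith

end Pool.Agent.Helper16K9.TH
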