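import Pool.Agent.Helper16K9.TH.Asm
import Pool.Agent.Helper16K9.Adds.Equiv

set_option autoImplicit false
set_option linter.unusedSectionVars false
set_option linter.unusedVariables false

/-!
# Growth: the lower bound
-/

namespace Pool.Agent.Helper16K9.TH

open Pool.Agent.W956.KF Pool.Agent.H826R3.SM Filter Finset

variable {F : Type} [Field F]

theorem omega_nonneg' : 0 ≤ omegaMM F := by
  refine le_csInf omega_set_nonempty ?_
  rintro τ ⟨C, hC⟩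
  by_contra hcon
  push Not at hcon
  have hlim : Tendsto (fun q : ℕ => (q : ℝ) ^ (-τ)) atTop atTop :=
    (tendsto_rpow_atTop (by linarith)).comp tendsto_natCast_atTop_atTop
  obtain ⟨N, hN1, hN2⟩ := ((hlim.eventually_gt_atTop C).and (eventually_ge_atTop 1)).exists
  have hN0 : (0 : ℝ) < N := by exact_mod_cast (by omega : 0 < N)
  have h1 : (1 : ℝ) ≤ rk F N := by
    rw [← trank_eq_rk]
    have h2 := sq_le_trank F N
    have h3 : 1 ≤ N ^ 2 := Nat.one_le_pow _ _ hN2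
    exact_mod_cast h3.trans h2
  have h3 : (0 : ℝ) < (N : ℝ) ^ τ := Real.rpow_pos_of_pos hN0 _
  have h2 : (1 : ℝ) = (N : ℝ) ^ (-τ) * (N : ℝ) ^ τ := by
    rw [← Real.rpow_add hN0, neg_add_cancel, Real.rpow_zero]
  have h4 := mul_lt_mul_of_pos_right hN1 h3
  have h5 := hC N
  linarith

/-- the lower bound with the exponent -/
theorem low_pow {f : ℕ → ℕ} {δ : ℝ} {K m₀ : ℕ} (hδ : 0 < δ)
    (hf : ∀ m k : ℕ, m₀ ≤ m → (k : ℝ) < δ * m → trank F k k k ≤ K * f m) :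
    ∃ c : ℝ, 0 < c ∧ ∃ m₁ : ℕ, ∀ m : ℕ, m₁ ≤ m → c * (m : ℝ) ^ omegaMM F ≤ f m := by
  have hω := omega_nonneg' (F := F)
  refine ⟨(δ / 4) ^ omegaMM F / (K + 1), by positivity, max m₀ (⌈2 / δ⌉₊), fun m hm => ?_⟩
  have hm0 : m₀ ≤ m := (le_max_left _ _).trans hm
  have hm1 : 2 / δ ≤ (m : ℝ) := by
    have h1 : ⌈2 / δ⌉₊ ≤ m := (le_max_right _ _).trans hm
    exact (Nat.le_ceil _).trans (by exact_mod_cast h1)
  have hm2 : 2 ≤ δ * m := by
    rw [div_le_iff₀ hδ] at hm1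
    linarith
  have hk0 : (0 : ℝ) ≤ δ * m / 2 := by linarith
  have hk1 := Nat.floor_le hk0
  have hk2 := Nat.lt_floor_add_one (δ * m / 2)
  have hk3 : 1 ≤ ⌊δ * m / 2⌋₊ := Nat.le_floor (by push_cast; linarith)
  have hk4 : (1 : ℝ) ≤ ⌊δ * m / 2⌋₊ := by exact_mod_cast hk3
  have h1 := hf m ⌊δ * m / 2⌋₊ hm0 (by linarith)
  have h2 := rpow_omega_le F _ hk3
  have h3 : (trank F ⌊δ * m / 2⌋₊ ⌊δ * m / 2⌋₊ ⌊δ * m / 2⌋₊ : ℝ) ≤ K * f m := by
    exact_mod_cast h1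
  have h4 : (δ / 4 * m) ^ omegaMM F ≤ (⌊δ * m / 2⌋₊ : ℝ) ^ omegaMM F :=
    Real.rpow_le_rpow (by positivity) (by linarith) hω
  rw [Real.mul_rpow (by positivity) (by positivity)] at h4
  have h5 : (K : ℝ) * f m ≤ (K + 1) * f m :=
    mul_le_mul_of_nonneg_right (by linarith) (Nat.cast_nonneg _)
  rw [div_mul_eq_mul_div, div_le_iff₀ (by positivity)]
  linarith

/-- `f` grows at least like matrix multiplication -/
def AtLeastMM (F : Type) [Field F] (f : ℕ → ℕ) : Prop :=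
  (∀ τ D : ℝ, {m : ℕ | (f m : ℝ) ≤ D * (m : ℝ) ^ τ}.Infinite → omega F ≤ τ) ∧
  (Superlinear (sizeMM F) → ∃ α : ℝ, 1 < α ∧ ∃ c : ℝ, 0 < c ∧ ∃ m₁ : ℕ,
      ∀ m : ℕ, m₁ ≤ m → c * (((m : ℝ) ^ 2) ^ α) ≤ f m)

theorem atLeast {f : ℕ → ℕ} {δ : ℝ} {K m₀ : ℕ} (hδ : 0 < δ)
    (hf : ∀ m k : ℕ, m₀ ≤ m → (k : ℝ) < δ * m → trank F k k k ≤ K * f m) : AtLeastMM F f := by
  obtain ⟨c, hc, m₁, H⟩ := low_pow hδ hf
  refine ⟨fun τ D hinf => ?_, fun hs => ?_⟩
  · rw [omega_eq]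
    by_contra hcon
    push Not at hcon
    have hlim : Tendsto (fun q : ℕ => (q : ℝ) ^ (omegaMM F - τ)) atTop atTop :=
      (tendsto_rpow_atTop (by linarith)).comp tendsto_natCast_atTop_atTop
    obtain ⟨N, hN⟩ := (hlim.eventually_gt_atTop (D / c)).exists_forall_of_atTop
    obtain ⟨m, hm, hmN⟩ := hinf.exists_gt (max (max N 1) m₁)
    have hm1 : 1 ≤ m := ((le_max_right _ _).trans (le_max_left _ _)).trans hmN.le
    have hm0 : (0 : ℝ) < m := by exact_mod_cast hm1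
    have h1 := hN m (((le_max_left _ _).trans (le_max_left _ _)).trans hmN.le)
    have h2 := H m ((le_max_right _ _).trans hmN.le)
    have h3 : (m : ℝ) ^ (omegaMM F - τ) * (m : ℝ) ^ τ = (m : ℝ) ^ omegaMM F := by
      rw [← Real.rpow_add hm0]
      congr 1
      ring
    rw [div_lt_iff₀ hc] at h1
    have h4 := mul_lt_mul_of_pos_right h1 (Real.rpow_pos_of_pos hm0 τ)
    have h5 : (f m : ℝ) ≤ D * (m : ℝ) ^ τ := hm
    have h6 : (m : ℝ) ^ (omegaMM F - τ) * c * (m : ℝ) ^ τ = c * (m : ℝ) ^ omegaMM F := by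
      rw [← h3]
      ring
    linarith
  · rw [Adds.superlinear_size_iff] at hs
    refine ⟨omegaMM F / 2, by linarith, c, hc, m₁, fun m hm => ?_⟩
    have e1 : ((m : ℝ) ^ 2) ^ (omegaMM F / 2) = (m : ℝ) ^ omegaMM F := by
      rw [← Real.rpow_natCast (m : ℝ) 2, ← Real.rpow_mul (Nat.cast_nonneg m)]
      congr 1
      push_cast
      ring
    rw [e1]
    exact H m hm

end Pool.Agent.Helper16K9.TH
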