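import Pool.Agent.Helper16K9.TH.Df

set_option autoImplicit false

/-!
# Spaces of matrices of dimension more than a quarter: the greedy basis gives matrix multiplication
-/

namespace Pool.Agent.Helper16K9.TH

open Module

namespace SqaL

section
variable {F : Type} [Field F] {V : Type} [AddCommGroup V] [Module F V]

lemma mem_Wj {W : Submodule F (Module.End F V)} {e : ℕ → V} {j : ℕ} {A : Module.End F V} :
    A ∈ Wj W e j ↔ A ∈ W ∧ ∀ i < j, A (e i) = 0 := Iff.rfl

lemma mem_Cj {W : Submodule F (Module.End F V)} {e : ℕ → V} {j : ℕ} {v : V} :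
    v ∈ Cj W e j ↔ ∃ A ∈ Wj W e j, A (e j) = v := Iff.rfl

lemma Fl_mono {e : ℕ → V} {i j : ℕ} (h : i ≤ j) : Fl F e i ≤ Fl F e j :=
  Submodule.span_mono (Set.image_mono fun _ hx => lt_of_lt_of_le hx h)

lemma mem_Fl {e : ℕ → V} {i j : ℕ} (h : i < j) : e i ∈ Fl F e j :=
  Submodule.subset_span ⟨i, h, rfl⟩

lemma kill {A : Module.End F V} {e : ℕ → V} {j : ℕ} (h : ∀ i < j, A (e i) = 0) {v : V}
    (hv : v ∈ Fl F e j) : A v = 0 := by
  have : Fl F e j ≤ LinearMap.ker A := by
    refine Submodule.span_le.2 ?_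
    rintro _ ⟨i, hi, rfl⟩
    exact h i hi
  exact this hv

lemma grow [FiniteDimensional F V] (C : Submodule F V) (e : ℕ → V) (L n : ℕ)
    (h : ∀ j, L ≤ j → j < n → C ⊔ Fl F e j ≠ ⊤ → e j ∉ C ⊔ Fl F e j) :
    ∀ t, L + t ≤ n → C ⊔ Fl F e (L + t) = ⊤ ∨
      finrank F C + t ≤ finrank F (C ⊔ Fl F e (L + t) : Submodule F V) := by
  intro t
  induction t with
  | zero =>
    intro _
    right
    exact Submodule.finrank_mono le_sup_left
  | succ t ih =>
    intro ht
    have hmono : C ⊔ Fl F e (L + t) ≤ C ⊔ Fl F e (L + (t + 1)) :=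
      sup_le_sup_left (Fl_mono (by omega)) _
    rcases ih (by omega) with h1 | h1
    · left
      exact top_le_iff.1 (h1 ▸ hmono)
    · by_cases h2 : C ⊔ Fl F e (L + t) = ⊤
      · left
        exact top_le_iff.1 (h2 ▸ hmono)
      · right
        have h3 := h (L + t) (by omega) (by omega) h2
        have h4 : C ⊔ Fl F e (L + t) < C ⊔ Fl F e (L + (t + 1)) := by
          refine lt_of_le_of_ne hmono fun h5 => h3 ?_
          rw [h5]
          exact (le_sup_right : Fl F e (L + (t + 1)) ≤ _) (mem_Fl (by omega))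
        have := Submodule.finrank_lt_finrank_of_lt h4
        omega

/-- a map onto `F ^ L` which is onto on finitely many given subspaces -/
lemma exists_P [Infinite F] [FiniteDimensional F V] {ι : Type} [Finite ι] (L : ℕ) :
    ∀ C : ι → Submodule F V, (∀ i, L ≤ finrank F (C i)) →
      ∃ P : V →ₗ[F] (Fin L → F), ∀ i, ∀ y, ∃ v ∈ C i, P v = y := by
  induction L with
  | zero =>
    intro C _
    exact ⟨0, fun i y => ⟨0, (C i).zero_mem, Subsingleton.elim _ _⟩⟩
  | succ L ih =>
    intro C hC
    have hu : ∀ i, ∃ u ∈ C i, u ≠ 0 := by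
      intro i
      apply Submodule.exists_mem_ne_zero_of_ne_bot
      rintro h
      have := hC i
      rw [h, finrank_bot] at this
      omega
    choose u hu hu0 using hu
    obtain ⟨q, hq⟩ := Module.exists_dual_forall_apply_ne_zero (K := F) u hu0
    have hdim : ∀ i, L ≤ finrank F (C i ⊓ LinearMap.ker q : Submodule F V) := by
      intro i
      have h1 := Submodule.finrank_sup_add_finrank_inf_eq (C i) (LinearMap.ker q)
      have h2 := LinearMap.finrank_range_add_finrank_ker q
      have h3 : finrank F (LinearMap.range q) ≤ 1 := by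
        have := Submodule.finrank_le (LinearMap.range q)
        rwa [finrank_self] at this
      have h4 : finrank F (C i ⊔ LinearMap.ker q : Submodule F V) ≤ finrank F V :=
        Submodule.finrank_le _
      have := hC i
      omega
    obtain ⟨P, hP⟩ := ih (fun i => C i ⊓ LinearMap.ker q) hdim
    refine ⟨LinearMap.pi (Fin.cons q fun i => (LinearMap.proj i).comp P), fun i y => ?_⟩
    obtain ⟨w, hw, hw'⟩ := hP i (Fin.tail y - P ((y 0 / q (u i)) • u i))
    refine ⟨(y 0 / q (u i)) • u i + w, (C i).add_mem ((C i).smul_mem _ (hu i)) hw.1, ?_⟩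
    have hw2 : q w = 0 := hw.2
    funext j
    refine Fin.cases ?_ (fun j => ?_) j
    · simp [hw2, hq i]
    · simp [hw', Fin.tail]

lemma counts (n L D : ℕ) (f : ℕ → ℕ) (hn : 0 < n) (hf : ∀ j < n, f j ≤ n)
    (hL : 1 ≤ L)
    (hanti : ∀ j, j + 1 < n → f (j + 1) ≤ f j) (hsum : ∑ j ∈ Finset.range n, f j = D)
    (hD : n ^ 2 + 16 * L * n < 4 * D) :
    ∃ b, 2 * L ≤ b ∧ b ≤ n ∧ (∀ j < b, L ≤ f j) ∧ (∀ k < L, n + 2 * L ≤ f k + b) := by
  have hanti' : ∀ i j, i ≤ j → j < n → f j ≤ f i := by
    intro i j hij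
    induction j, hij using Nat.le_induction with
    | base => intro _; exact le_rfl
    | succ j hj ih =>
      intro h
      exact (hanti j h).trans (ih (by omega))
  have hDn : D ≤ n * n := by
    rw [← hsum]
    calc ∑ j ∈ Finset.range n, f j ≤ ∑ _j ∈ Finset.range n, n :=
          Finset.sum_le_sum fun j hj => hf j (Finset.mem_range.1 hj)
      _ = n * n := by simp
  have hLn : L < n := by
    by_contra h
    push Not at h
    nlinarith
  classical
  -- b = the number of j < n with L ≤ f j
  obtain ⟨b, hbn, hb1, hb2⟩ : ∃ b ≤ n, (∀ j < b, L ≤ f j) ∧ ∀ j, b ≤ j → j < n → f j < L := by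
    by_cases hex : ∃ j, j < n ∧ f j < L
    · refine ⟨Nat.find hex, (Nat.find_spec hex).1.le, fun j hj => ?_, fun j hj hjn => ?_⟩
      · by_contra h
        exact Nat.find_min hex hj ⟨hj.trans (Nat.find_spec hex).1, not_le.1 h⟩
      · exact lt_of_le_of_lt (hanti' _ _ hj hjn) (Nat.find_spec hex).2
    · push Not at hex
      exact ⟨n, le_rfl, hex, fun j h1 h2 => absurd h2 (by omega)⟩
  have hsum2 : D ≤ n * L + f (L - 1) * b + L * n := by
    rw [← hsum]
    calc ∑ j ∈ Finset.range n, f j
        ≤ ∑ j ∈ Finset.range n, ((if j < L then n else 0) + (if j < b then f (L - 1) else 0) + L) := by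
          refine Finset.sum_le_sum fun j hj => ?_
          have hj := Finset.mem_range.1 hj
          by_cases h1 : j < L
          · rw [if_pos h1]
            have := hf j hj
            omega
          · by_cases h2 : j < b
            · rw [if_pos h2]
              have := hanti' (L - 1) j (by omega) hj
              omega
            · have := hb2 j (by omega) hj
              omega
      _ = n * L + f (L - 1) * b + L * n := by
          rw [Finset.sum_add_distrib, Finset.sum_add_distrib, ← Finset.sum_filter, ← Finset.sum_filter,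
            Finset.sum_const, Finset.sum_const, Finset.sum_const]
          have e1 : (Finset.range n).filter (fun j => j < L) = Finset.range L := by
            ext j
            simp only [Finset.mem_filter, Finset.mem_range]
            omega
          have e2 : (Finset.range n).filter (fun j => j < b) = Finset.range b := by
            ext j
            simp only [Finset.mem_filter, Finset.mem_range]
            omega
          rw [e1, e2]
          simp only [Finset.card_range, smul_eq_mul]
          ring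
  have ha : f (L - 1) ≤ n := hf _ (by omega)
  have key : n + 2 * L ≤ f (L - 1) + b := by
    by_contra h
    push Not at h
    generalize f (L - 1) = a at *
    have h1 : (a + b) ^ 2 ≤ (n + 2 * L) ^ 2 := Nat.pow_le_pow_left h.le 2
    have h2 : 4 * (a * b) ≤ (a + b) ^ 2 := by
      zify
      nlinarith [sq_nonneg ((a : ℤ) - b)]
    nlinarith
  refine ⟨b, by omega, hbn, hb1, fun k hk => ?_⟩
  have := hanti' k (L - 1) (by omega) (by omega)
  omega

/-- the values at `e s, …, e (s + L - 1)` of the elements of `Wj W e s` can be prescribed modulo the kernel of `P` -/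
lemma fill1 (W : Submodule F (Module.End F V)) (e : ℕ → V) (s L : ℕ) (P : V →ₗ[F] (Fin L → F))
    (hP : ∀ j, j < L → ∀ y, ∃ v ∈ Cj W e (s + j), P v = y) (c : ℕ → Fin L → F) :
    ∀ t, t ≤ L → ∃ A ∈ Wj W e s, ∀ j < t, P (A (e (s + j))) = c j := by
  intro t
  induction t with
  | zero => intro _; exact ⟨0, (Wj W e s).zero_mem, fun j hj => absurd hj (by omega)⟩
  | succ t ih =>
    intro ht
    obtain ⟨A, hA, hA'⟩ := ih (by omega)
    obtain ⟨v, hv, hv'⟩ := hP t (by omega) (c t - P (A (e (s + t))))
    obtain ⟨D, hD, rfl⟩ := mem_Cj.1 hv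
    refine ⟨A + D, (Wj W e s).add_mem hA ⟨hD.1, fun i hi => hD.2 i (by omega)⟩, fun j hj => ?_⟩
    rcases Nat.lt_succ_iff_lt_or_eq.1 hj with h | rfl
    · rw [LinearMap.add_apply, hD.2 (s + j) (by omega), add_zero, hA' j h]
    · rw [LinearMap.add_apply, map_add, hv']
      abel

/-- the values at `e 0, …, e (L - 1)` of the elements of `W` can be prescribed modulo `S` -/
lemma fill2 (W : Submodule F (Module.End F V)) (e : ℕ → V) (L : ℕ) (S : Submodule F V)
    (hS : ∀ k < L, Cj W e k ⊔ S = ⊤) (y : ℕ → V) :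
    ∀ t, t ≤ L → ∃ B ∈ W, ∀ k < t, B (e k) - y k ∈ S := by
  intro t
  induction t with
  | zero => intro _; exact ⟨0, W.zero_mem, fun j hj => absurd hj (by omega)⟩
  | succ t ih =>
    intro ht
    obtain ⟨B, hB, hB'⟩ := ih (by omega)
    have hmem : y t - B (e t) ∈ Cj W e t ⊔ S := by rw [hS t (by omega)]; trivial
    obtain ⟨v, hv, w, hw, hvw⟩ := Submodule.mem_sup.1 hmem
    obtain ⟨D, hD, rfl⟩ := mem_Cj.1 hv
    refine ⟨B + D, W.add_mem hB hD.1, fun j hj => ?_⟩
    rcases Nat.lt_succ_iff_lt_or_eq.1 hj with h | rfl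
    · rw [LinearMap.add_apply, hD.2 j h, add_zero]
      exact hB' j h
    · have hz : (B + D) (e j) - y j = -w := by
        rw [LinearMap.add_apply]
        have h2 := hvw
        rw [eq_sub_iff_add_eq] at h2
        rw [← h2]
        abel
      rw [hz]
      exact S.neg_mem hw

end

end SqaL

open SqaL in
theorem sqa (hG : S_GRD) : S_T2 := by
  intro F _ _ V _ _ _ W L hW
  rcases Nat.eq_zero_or_pos L with rfl | hL
  · exact ⟨0, 0, Fin.elim0, 0, fun X => ⟨W.zero_mem, W.zero_mem⟩, fun X Y i => i.elim0⟩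
  obtain ⟨e, he, hanti, hsum, hgr⟩ := hG F V W L
  have hn0 : 0 < finrank F V := by
    rcases Nat.eq_zero_or_pos (finrank F V) with h | h
    · rw [h] at hsum hW
      simp only [Finset.range_zero, Finset.sum_empty] at hsum
      rw [← hsum] at hW
      simp at hW
    · exact h
  obtain ⟨b, hb1, hb2, hb3, hb4⟩ := counts (finrank F V) L (finrank F W)
    (fun j => finrank F (Cj W e j)) hn0 (fun j _ => Submodule.finrank_le _) hL hanti hsum hW
  have hsup : ∀ k < L, Cj W e k ⊔ Fl F e (b - L) = ⊤ := by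
    intro k hk
    have h := grow (Cj W e k) e L (finrank F V) (fun j h1 h2 h3 => hgr k j hk h1 h2 h3)
      (b - 2 * L) (by omega)
    have e1 : L + (b - 2 * L) = b - L := by omega
    rw [e1] at h
    rcases h with h | h
    · exact h
    · have h5 := hb4 k hk
      apply Submodule.eq_top_of_finrank_eq
      apply le_antisymm (Submodule.finrank_le _)
      omega
  obtain ⟨P, hP⟩ := exists_P (F := F) L (fun j : Fin L => Cj W e (b - L + j))
    (fun j => hb3 _ (by have := j.isLt; omega))
  generalize hs : b - L = s at *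
  have hLs : L ≤ s := by omega
  let S : Wj W e s →ₗ[F] (Fin L → Fin L → F) :=
    LinearMap.pi fun j : Fin L => P ∘ₗ (LinearMap.applyₗ (e (s + j))) ∘ₗ (Wj W e s).subtype
  have hS : Function.Surjective S := by
    intro c
    obtain ⟨A, hA, hA'⟩ := fill1 W e s L P (fun j hj y => hP ⟨j, hj⟩ y)
      (fun j => if h : j < L then c ⟨j, h⟩ else 0) L le_rfl
    refine ⟨⟨A, hA⟩, ?_⟩
    funext j
    have := hA' j j.isLt
    rw [dif_pos j.isLt] at this
    exact this
  obtain ⟨σ, hσ⟩ := S.exists_rightInverse_of_surjective (LinearMap.range_eq_top.2 hS)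
  let T : W →ₗ[F] (Fin L → V ⧸ Fl F e s) :=
    LinearMap.pi fun k : Fin L => (Fl F e s).mkQ ∘ₗ (LinearMap.applyₗ (e k)) ∘ₗ W.subtype
  have hT : Function.Surjective T := by
    intro y
    choose z hz using fun k : Fin L => (Fl F e s).mkQ_surjective (y k)
    obtain ⟨B, hB, hB'⟩ := fill2 W e L (Fl F e s) hsup
      (fun k => if h : k < L then z ⟨k, h⟩ else 0) L le_rfl
    refine ⟨⟨B, hB⟩, ?_⟩
    funext k
    have := hB' k k.isLt
    rw [dif_pos k.isLt] at this
    rw [← hz k]
    exact (Submodule.Quotient.eq _).2 this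
  obtain ⟨τ, hτ⟩ := T.exists_rightInverse_of_surjective (LinearMap.range_eq_top.2 hT)
  let tr : Matrix (Fin L) (Fin L) F →ₗ[F] (Fin L → Fin L → F) :=
    { toFun := fun X j i => X i j
      map_add' := fun _ _ => rfl
      map_smul' := fun _ _ => rfl }
  let yy : Matrix (Fin L) (Fin L) F →ₗ[F] (Fin L → V ⧸ Fl F e s) :=
    { toFun := fun Y k => (Fl F e s).mkQ (∑ j : Fin L, Y j k • e (s + j))
      map_add' := fun X Y => by
        funext k
        simp only [Matrix.add_apply, add_smul, Finset.sum_add_distrib, map_add, Pi.add_apply]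
      map_smul' := fun a Y => by
        funext k
        simp only [Matrix.smul_apply, smul_assoc, ← Finset.smul_sum, map_smul, Pi.smul_apply,
          RingHom.id_apply] }
  refine ⟨(Wj W e s).subtype ∘ₗ σ ∘ₗ tr, W.subtype ∘ₗ τ ∘ₗ yy, fun k => e k, P,
    fun X => ⟨(σ (tr X)).2.1, (τ (yy X)).2⟩, fun X Y i k => ?_⟩
  have hβ1 : ∀ j < s, (σ (tr X)).1 (e j) = 0 := (σ (tr X)).2.2
  have hβ2 : ∀ j : Fin L, P ((σ (tr X)).1 (e (s + j))) = fun i => X i j := fun j =>
    congrFun (LinearMap.congr_fun hσ (tr X)) j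
  have hγ2 : (τ (yy Y)).1 (e k) - ∑ j : Fin L, Y j k • e (s + j) ∈ Fl F e s := by
    have h1 : (Fl F e s).mkQ ((τ (yy Y)).1 (e k)) = (Fl F e s).mkQ (∑ j : Fin L, Y j k • e (s + j)) :=
      congrFun (LinearMap.congr_fun hτ (yy Y)) k
    exact (Submodule.Quotient.eq _).1 h1
  constructor
  · change P ((σ (tr X)).1 ((τ (yy Y)).1 (e k))) i = _
    have h2 := kill hβ1 hγ2
    rw [map_sub, sub_eq_zero] at h2
    rw [h2, map_sum, map_sum, Finset.sum_apply, Matrix.mul_apply]
    refine Finset.sum_congr rfl fun j _ => ?_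
    rw [map_smul, map_smul, hβ2 j, Pi.smul_apply, smul_eq_mul, mul_comm]
  · change (τ (yy Y)).1 ((σ (tr X)).1 (e k)) = 0
    rw [hβ1 k (lt_of_lt_of_le k.isLt hLs), map_zero]

end Pool.Agent.Helper16K9.TH
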