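import Pool.Agent.Helper16K9.TH.Df

/-!
STK: `N (N - 1)` elements of `W` which behave like elementary matrices, if all spaces `VV W φ` are
large.
-/

set_option autoImplicit false

namespace Pool.Agent.Helper16K9.TH

namespace StkL

open Module

/-- the pencil lemma -/
theorem pencil {F : Type} [Field F] {V Z : Type} [AddCommGroup V] [Module F V]
    [FiniteDimensional F V] [AddCommGroup Z] [Module F Z] (B0 B1 : V →ₗ[F] Z) :
    {s : F | finrank F (LinearMap.ker B0) < finrank F (LinearMap.ker (B0 + s • B1))}.Finite := by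
  obtain ⟨V', hV'⟩ := (LinearMap.ker B0).exists_isCompl
  have hker : LinearMap.ker (B0.domRestrict V') = ⊥ := by
    rw [LinearMap.ker_eq_bot']
    intro x hx
    have h1 : (x : V) ∈ LinearMap.ker B0 ⊓ V' := ⟨hx, x.2⟩
    rw [hV'.inf_eq_bot] at h1
    exact Subtype.ext h1
  obtain ⟨π, hπ⟩ := (B0.domRestrict V').exists_leftInverse_of_injective hker
  let C : Module.End F V' := π ∘ₗ (B1.domRestrict V')
  have hfin : Set.Finite {μ | C.HasEigenvalue μ} := Module.End.finite_hasEigenvalue C
  have hfin2 : Set.Finite ((fun s : F => -s⁻¹) ⁻¹' {μ | C.HasEigenvalue μ}) := by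
    refine hfin.preimage (Function.Injective.injOn ?_)
    intro a b h
    exact inv_injective (neg_injective h)
  refine hfin2.subset ?_
  intro s hs
  by_contra hne
  have hdis : Disjoint (LinearMap.ker (B0 + s • B1)) V' := by
    rw [Submodule.disjoint_def]
    intro x hx hxV
    by_contra hx0
    apply hne
    have h1 : B0 x + s • B1 x = 0 := hx
    have h2 : (⟨x, hxV⟩ : V') + s • C ⟨x, hxV⟩ = 0 := by
      have h3 := congrArg (fun f : V' →ₗ[F] V' => f ⟨x, hxV⟩) hπ
      have h4 : π (B0 x) = ⟨x, hxV⟩ := h3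
      have h5 : C ⟨x, hxV⟩ = π (B1 x) := rfl
      rw [h5, ← h4, ← map_smul, ← map_add, h1, map_zero]
    have hs0 : s ≠ 0 := by
      intro h
      rw [h, zero_smul, add_zero] at h2
      exact hx0 (congrArg Subtype.val h2)
    show C.HasEigenvalue (-s⁻¹)
    refine Module.End.hasEigenvalue_of_hasEigenvector (x := ⟨x, hxV⟩) ⟨?_, ?_⟩
    · rw [Module.End.mem_eigenspace_iff]
      have h6 : s • C ⟨x, hxV⟩ = -(⟨x, hxV⟩ : V') := by
        rw [add_comm] at h2
        exact eq_neg_of_add_eq_zero_left h2
      have h7 : C ⟨x, hxV⟩ = s⁻¹ • (s • C ⟨x, hxV⟩) := by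
        rw [smul_smul, inv_mul_cancel₀ hs0, one_smul]
      rw [h7, h6, smul_neg, neg_smul]
    · intro h
      exact hx0 (congrArg Subtype.val h)
  have h1 := Submodule.finrank_add_finrank_le_of_disjoint hdis
  have h2 := Submodule.finrank_add_eq_of_isCompl hV'
  have h3 : finrank F (LinearMap.ker B0) < finrank F (LinearMap.ker (B0 + s • B1)) := hs
  omega

section
variable {F : Type} [Field F] {V : Type} [AddCommGroup V] [Module F V] [FiniteDimensional F V]

theorem dim_split {t : ℕ} (U : Submodule F V) (g : V →ₗ[F] (Fin t → F)) :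
    finrank F (U.map g) + finrank F (U ⊓ LinearMap.ker g : Submodule F V) = finrank F U := by
  have h1 := LinearMap.finrank_range_add_finrank_ker (g ∘ₗ U.subtype)
  have h2 : LinearMap.range (g ∘ₗ U.subtype) = U.map g := by
    rw [LinearMap.range_comp, Submodule.range_subtype]
  have h3 : finrank F (LinearMap.ker (g ∘ₗ U.subtype)) =
      finrank F (U ⊓ LinearMap.ker g : Submodule F V) := by
    rw [LinearMap.ker_comp, ← Submodule.map_comap_subtype, Submodule.finrank_map_subtype_eq]
  rw [h2, h3] at h1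
  exact h1

theorem exists_ne {t : ℕ} (U : Submodule F V) (g : V →ₗ[F] (Fin t → F)) (h : t < finrank F U) :
    ∃ u ∈ U, u ≠ 0 ∧ g u = 0 := by
  have h1 := dim_split U g
  have h2 : finrank F (U.map g) ≤ t := by
    have := Submodule.finrank_le (U.map g)
    rwa [Module.finrank_fin_fun] at this
  have h3 : (U ⊓ LinearMap.ker g : Submodule F V) ≠ ⊥ := by
    intro h4
    rw [h4, finrank_bot] at h1
    omega
  obtain ⟨u, hu, hu0⟩ := Submodule.exists_mem_ne_zero_of_ne_bot h3
  exact ⟨u, hu.1, hu0, hu.2⟩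

end

open Module in
/-- the two properties of the construction -/
def PP {F : Type} [Field F] {V : Type} [AddCommGroup V] [Module F V]
    (W : Submodule F (Module.End F V)) (φs : Module.Dual F V) (t : ℕ) : Prop :=
  ∃ φ : Fin t → Module.Dual F V,
    (∀ p (c : Fin t → F), c p = 0 → ∃ v ∈ VV W (φ p), ∀ q, φ q v = c q) ∧
    (∀ c : Fin t → F, ∃ v ∈ VV W φs, ∀ q, φ q v = c q)

theorem step {F : Type} [Field F] [Infinite F] {V : Type} [AddCommGroup V] [Module F V]
    [FiniteDimensional F V] (W : Submodule F (Module.End F V)) (N : ℕ)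
    (hN : ∀ φ : Module.Dual F V, N ≤ Module.finrank F (VV W φ)) (φs : Module.Dual F V)
    (hmin : ∀ φ : Module.Dual F V, finrank F (VV W φs) ≤ finrank F (VV W φ)) (t : ℕ) (ht : t < N)
    (h : PP W φs t) : PP W φs (t + 1) := by
  classical
  obtain ⟨φ, hA, hB⟩ := h
  set g : V →ₗ[F] (Fin t → F) := LinearMap.pi φ with hg
  have hgq : ∀ v q, g v q = φ q v := fun v q => rfl
  obtain ⟨us, hus, hus0, husg⟩ := exists_ne (VV W φs) g (lt_of_lt_of_le ht (hN φs))
  have hu0 : ∀ p : Fin t, ∃ u ∈ VV W (φ p), u ≠ 0 ∧ g u = 0 := fun p =>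
    exists_ne (VV W (φ p)) g (lt_of_lt_of_le ht (hN _))
  choose u hu hun hug using hu0
  obtain ⟨ψ, hψ⟩ := Module.exists_dual_forall_apply_ne_zero (K := F)
    (fun o : Option (Fin t) => o.elim us u) (by
      intro o
      cases o with
      | none => exact hus0
      | some p => exact hun p)
  have hψs : ψ us ≠ 0 := hψ none
  have hψp : ∀ p, ψ (u p) ≠ 0 := fun p => hψ (some p)
  -- the pencil
  let B0 : V →ₗ[F] ((Module.End F V ⧸ W) × F) × (Fin t → F) :=
    ((W.mkQ ∘ₗ (LinearMap.smulRightₗ φs)).prod φs).prod g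
  let B1 : V →ₗ[F] ((Module.End F V ⧸ W) × F) × (Fin t → F) :=
    ((W.mkQ ∘ₗ (LinearMap.smulRightₗ ψ)).prod ψ).prod 0
  have hker : ∀ s : F, LinearMap.ker (B0 + s • B1) = VV W (φs + s • ψ) ⊓ LinearMap.ker g := by
    intro s
    ext v
    constructor
    · intro hv
      have h1 : B0 v + s • B1 v = 0 := hv
      have h2 := congrArg (fun z : ((Module.End F V ⧸ W) × F) × (Fin t → F) => z.1.1) h1
      have h3 := congrArg (fun z : ((Module.End F V ⧸ W) × F) × (Fin t → F) => z.1.2) h1
      have h4 := congrArg (fun z : ((Module.End F V ⧸ W) × F) × (Fin t → F) => z.2) h1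
      have h5 : W.mkQ (LinearMap.smulRight φs v) + s • W.mkQ (LinearMap.smulRight ψ v) = 0 := h2
      have h6 : φs v + s • ψ v = 0 := h3
      have h7 : g v + s • (0 : Fin t → F) = 0 := h4
      refine ⟨⟨h6, ?_⟩, ?_⟩
      · rw [← map_smul, ← map_add, Submodule.mkQ_apply, Submodule.Quotient.mk_eq_zero] at h5
        convert h5 using 1
        ext x
        simp [add_smul, mul_smul]
      · rw [smul_zero, add_zero] at h7
        exact h7
    · rintro ⟨⟨h1, h2⟩, h3⟩
      show B0 v + s • B1 v = 0
      have h5 : W.mkQ (LinearMap.smulRight φs v) + s • W.mkQ (LinearMap.smulRight ψ v) = 0 := by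
        rw [← map_smul, ← map_add, Submodule.mkQ_apply, Submodule.Quotient.mk_eq_zero]
        convert h2 using 1
        ext x
        simp [add_smul, mul_smul]
      have h6 : φs v + s • ψ v = 0 := h1
      have h7 : g v + s • (0 : Fin t → F) = 0 := by
        rw [smul_zero, add_zero]
        exact h3
      exact Prod.ext (Prod.ext h5 h6) h7
  have hbad := pencil B0 B1
  -- the choice of `s`
  obtain ⟨s, hs⟩ : ∃ s : F, s ∉ {s : F | finrank F (LinearMap.ker B0) <
      finrank F (LinearMap.ker (B0 + s • B1))} ∪ ({0} ∪ Set.range fun p => -(φs (u p) / ψ (u p))) := by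
    exact ((hbad.union ((Set.finite_singleton 0).union (Set.finite_range _))).infinite_compl).nonempty
  rw [Set.mem_union, Set.mem_union, not_or, not_or] at hs
  obtain ⟨hs1, hs2, hs3⟩ := hs
  have hs0 : s ≠ 0 := fun h => hs2 (by rw [h]; exact Set.mem_singleton _)
  set φn : Module.Dual F V := φs + s • ψ with hφn
  have hn1 : φn us ≠ 0 := by
    have h1 : φs us = 0 := hus.1
    have h2 : φn us = s * ψ us := by
      rw [hφn, LinearMap.add_apply, h1, zero_add]
      rfl
    rw [h2]
    exact mul_ne_zero hs0 hψs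
  have hn2 : ∀ p, φn (u p) ≠ 0 := by
    intro p h1
    apply hs3
    refine ⟨p, ?_⟩
    have h2 : φs (u p) + s * ψ (u p) = 0 := h1
    show -(φs (u p) / ψ (u p)) = s
    rw [neg_eq_iff_eq_neg, div_eq_iff (hψp p)]
    linear_combination h2
  -- the evaluation on the new space is onto
  have hdim0 : finrank F ((VV W φs).map g) = t := by
    have h1 : (VV W φs).map g = ⊤ := by
      rw [eq_top_iff]
      intro c _
      obtain ⟨v, hv, hvc⟩ := hB c
      exact ⟨v, hv, funext hvc⟩
    rw [h1, finrank_top, Module.finrank_fin_fun]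
  have hker0 : LinearMap.ker B0 = VV W φs ⊓ LinearMap.ker g := by
    have h1 := hker 0
    rw [zero_smul, add_zero] at h1
    rw [h1]
    congr 2
    rw [zero_smul, add_zero]
  have honto : (VV W φn).map g = ⊤ := by
    apply Submodule.eq_top_of_finrank_eq
    rw [Module.finrank_fin_fun]
    have h1 := dim_split (VV W φs) g
    have h2 := dim_split (VV W φn) g
    have h3 : finrank F (LinearMap.ker (B0 + s • B1)) ≤ finrank F (LinearMap.ker B0) :=
      not_lt.1 hs1
    rw [hker s, hker0, ← hφn] at h3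
    have h4 := hmin φn
    have h5 : finrank F ((VV W φn).map g) ≤ t := by
      have := Submodule.finrank_le ((VV W φn).map g)
      rwa [Module.finrank_fin_fun] at this
    omega
  refine ⟨Fin.snoc φ φn, ?_, ?_⟩
  · intro p c hc
    refine Fin.lastCases ?_ ?_ p (motive := fun p => c p = 0 →
      ∃ v ∈ VV W (Fin.snoc (α := fun _ => Module.Dual F V) φ φn p),
        ∀ q, Fin.snoc (α := fun _ => Module.Dual F V) φ φn q v = c q) hc
    · intro hc
      have h1 : (fun q : Fin t => c q.castSucc) ∈ (VV W φn).map g := by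
        rw [honto]
        exact Submodule.mem_top
      obtain ⟨v, hv, hvc⟩ := h1
      rw [Fin.snoc_last]
      refine ⟨v, hv, fun q => ?_⟩
      refine Fin.lastCases ?_ (fun q => ?_) q
      · rw [Fin.snoc_last, hc]
        exact hv.1
      · rw [Fin.snoc_castSucc]
        exact congrFun hvc q
    · intro p hc
      obtain ⟨v, hv, hvc⟩ := hA p (fun q => c q.castSucc) hc
      rw [Fin.snoc_castSucc]
      refine ⟨v + ((c (Fin.last t) - φn v) / φn (u p)) • u p,
        Submodule.add_mem _ hv (Submodule.smul_mem _ _ (hu p)), fun q => ?_⟩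
      refine Fin.lastCases ?_ (fun q => ?_) q
      · rw [Fin.snoc_last, map_add, map_smul, smul_eq_mul, div_mul_cancel₀ _ (hn2 p)]
        ring
      · rw [Fin.snoc_castSucc, map_add, map_smul, hvc, ← hgq (u p), hug p]
        simp
  · intro c
    obtain ⟨v, hv, hvc⟩ := hB (fun q => c q.castSucc)
    refine ⟨v + ((c (Fin.last t) - φn v) / φn us) • us,
      Submodule.add_mem _ hv (Submodule.smul_mem _ _ hus), fun q => ?_⟩
    refine Fin.lastCases ?_ (fun q => ?_) q
    · rw [Fin.snoc_last, map_add, map_smul, smul_eq_mul, div_mul_cancel₀ _ hn1]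
      ring
    · rw [Fin.snoc_castSucc, map_add, map_smul, hvc, ← hgq us, husg]
      simp

end StkL

open Module StkL in
theorem stk : S_STK := by
  intro F _ _ V _ _ _ W N hN
  classical
  -- a functional with the smallest space
  obtain ⟨φs, hmin⟩ : ∃ φs : Module.Dual F V, ∀ φ : Module.Dual F V,
      finrank F (VV W φs) ≤ finrank F (VV W φ) := by
    have h1 : (Set.range fun φ : Module.Dual F V => finrank F (VV W φ)).Nonempty :=
      ⟨_, 0, rfl⟩
    obtain ⟨φs, hφs⟩ := Nat.sInf_mem h1
    refine ⟨φs, fun φ => ?_⟩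
    have h2 : finrank F (VV W φs) =
        sInf (Set.range fun φ : Module.Dual F V => finrank F (VV W φ)) := hφs
    rw [h2]
    exact Nat.sInf_le ⟨φ, rfl⟩
  have hPP : ∀ t, t ≤ N → PP W φs t := by
    intro t
    induction t with
    | zero =>
      intro _
      exact ⟨fun p => p.elim0, fun p => p.elim0, fun c => ⟨0, Submodule.zero_mem _, fun q => q.elim0⟩⟩
    | succ t ih =>
      intro ht
      exact step W N hN φs hmin t (by omega) (ih (by omega))
  obtain ⟨φ, hA, -⟩ := hPP N le_rfl
  have hv0 : ∀ i j : Fin N, ∃ v : V, i ≠ j → v ∈ VV W (φ j) ∧ ∀ q, φ q v = if q = i then 1 else 0 := by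
    intro i j
    by_cases hij : i = j
    · exact ⟨0, fun h => absurd hij h⟩
    · obtain ⟨v, hv, hvc⟩ := hA j (fun q => if q = i then 1 else 0) (if_neg (Ne.symm hij))
      exact ⟨v, fun _ => ⟨hv, hvc⟩⟩
  choose v hv using hv0
  refine ⟨fun i j => LinearMap.smulRight (φ j) (v i j), ?_, ?_, ?_⟩
  · intro i j hij
    refine ⟨(hv i j hij).1.2, ?_⟩
    rw [LinearMap.trace_smulRight]
    exact (hv i j hij).1.1
  · intro i j k l hij hkl
    have h1 : LinearMap.smulRight (φ j) (v i j) * LinearMap.smulRight (φ l) (v k l) =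
        LinearMap.smulRight (φ l) (φ j (v k l) • v i j) := by
      ext x
      show φ j (φ l x • v k l) • v i j = φ l x • (φ j (v k l) • v i j)
      rw [map_smul, smul_eq_mul, mul_smul]
    rw [h1, LinearMap.trace_smulRight, map_smul, (hv k l hkl).2, (hv i j hij).2, smul_eq_mul]
    by_cases h2 : j = k <;> by_cases h3 : l = i <;> simp [h2, h3]
  · intro i j k l p q hij hkl hpq
    have h1 : LinearMap.smulRight (φ j) (v i j) * LinearMap.smulRight (φ l) (v k l) *
        LinearMap.smulRight (φ q) (v p q) =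
        LinearMap.smulRight (φ q) ((φ l (v p q) * φ j (v k l)) • v i j) := by
      ext x
      show φ j (φ l (φ q x • v p q) • v k l) • v i j =
        φ q x • ((φ l (v p q) * φ j (v k l)) • v i j)
      rw [map_smul, map_smul, smul_eq_mul, smul_eq_mul, smul_smul]
      congr 1
      ring
    rw [h1, LinearMap.trace_smulRight, map_smul, (hv k l hkl).2, (hv i j hij).2, (hv p q hpq).2,
      smul_eq_mul]
    by_cases h2 : j = k <;> by_cases h3 : l = p <;> by_cases h4 : q = i <;> simp [h2, h3, h4]

end Pool.Agent.Helper16K9.TH
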