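import Pool.Agent.Helper16K9.TH.Pair
import Pool.Agent.Helper16K9.TH.Low
import Pool.Agent.Helper16K9.TH.Grw
import Pool.Agent.Helper16K9.TH.Det
import Pool.Agent.Helper16K9.TH.Stk
import Pool.Agent.Helper16K9.TH.Grd
import Pool.Agent.Helper16K9.TH.Sqa
import Pool.Agent.Helper16K9.TH.Cir
import Pool.Agent.Helper86K9.TH.Red

set_option autoImplicit false
set_option linter.unusedSectionVars false
set_option linter.unusedVariables false

/-!
# Structured matrices: assembly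
-/

namespace Pool.Agent.Helper16K9.TH

open MvPolynomial Matrix Pool.Agent.W956.KF Pool.Agent.H826R3.SM Finset Filter

/-- `f` grows like matrix multiplication: the exponent of `f` is `ω`, and `f` is at least a constant
times a power of `n = m ^ 2` with exponent greater than 1 for all large `m` if and only if there is
such a lower bound for the circuit size of matrix multiplication. -/
def LikeMM (F : Type) [Field F] (f : ℕ → ℕ) : Prop :=
  growth f = omega F ∧ (Superlinear (sizeMM F) ↔ ∃ α : ℝ, 1 < α ∧ ∃ c : ℝ, 0 < c ∧ ∃ m₁ : ℕ,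
      ∀ m : ℕ, m₁ ≤ m → c * (((m : ℝ) ^ 2) ^ α) ≤ f m)

section
variable {F : Type} [Field F] {m d : ℕ}

theorem t3 : S_T3 := Pool.Agent.Helper86K9.TH.red stk

theorem t2 : S_T2 := sqa grd

theorem prod_obt {n s : ℕ} {T : Submodule F (MvPolynomial (Fin n) F)}
    (hT : Obt F (inputs F (Fin n)) s T) (X Y : Matrix (Fin m) (Fin m) (MvPolynomial (Fin n) F))
    (hX : ∀ i j, X i j ∈ T) (hY : ∀ i j, Y i j ∈ T) :
    ∃ T', Obt F (inputs F (Fin n)) (s + trank F m m m) T' ∧ T ≤ T' ∧ ∀ i j, (X * Y) i j ∈ T' := by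
  obtain ⟨U, V, W, h⟩ := rankLE_trank F m m m
  obtain ⟨T', h1, h2, h3⟩ := UpsL.family' hT
    (fun l => ∑ i, ∑ j, U l i j • X i j) (fun l => ∑ j, ∑ k, V l j k • Y j k)
    (fun l => Submodule.sum_mem _ fun i _ => Submodule.sum_mem _ fun j _ =>
      Submodule.smul_mem _ _ (hX i j))
    (fun l => Submodule.sum_mem _ fun i _ => Submodule.sum_mem _ fun j _ =>
      Submodule.smul_mem _ _ (hY i j))
  rw [Fintype.card_fin] at h1
  refine ⟨T', h1, h2, fun i j => ?_⟩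
  rw [UpsL.mul_entry U V W h]
  exact Submodule.sum_mem _ fun l _ => Submodule.smul_mem _ _ (h3 l)

theorem cost_pair_le (r t : F) (A A' : Matrix (Fin m) (Fin m) F)
    (B : Fin d → Matrix (Fin m) (Fin m) F) :
    cost (pairOn r t A A' B) ≤ 2 * trank F m m m := by
  obtain ⟨T, h1, h2, h3⟩ := prod_obt (Obt.start (F := F) (S := inputs F (Fin (d + d))))
    (gen A (Fin.append B 0)) (gen A' (Fin.append 0 B)) (UpsL.gen_mem _ _) (UpsL.gen_mem _ _)
  obtain ⟨T', h4, h5, h6⟩ := prod_obt h1 (gen A' (Fin.append 0 B)) (gen A (Fin.append B 0))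
    (fun i j => h2 (UpsL.gen_mem _ _ i j)) (fun i j => h2 (UpsL.gen_mem _ _ i j))
  have h7 : 0 + trank F m m m + trank F m m m = 2 * trank F m m m := by ring
  rw [h7] at h4
  refine cost_le h4 ?_
  rintro _ ⟨i, j, rfl⟩
  rw [pairMat, Matrix.add_apply, Matrix.smul_apply, Matrix.smul_apply]
  exact Submodule.add_mem _ (Submodule.smul_mem _ _ (h5 (h3 i j))) (Submodule.smul_mem _ _ (h6 i j))

/-- the growth, with a constant -/
theorem likeMM {f : ℕ → ℕ} {δ : ℝ} {K m₀ C : ℕ} (hδ : 0 < δ)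
    (hlow0 : ∀ m k : ℕ, m₀ ≤ m → (k : ℝ) < δ * m → trank F k k k ≤ K * f m)
    (hup : ∀ m, f m ≤ C * (trank F m m m + m ^ 2)) : LikeMM F f := by
  obtain ⟨m₁, hm₁, hlow⟩ := GrwL.f_lower hδ hlow0
  have hc : 0 < (δ / 4) ^ omegaMM F := Real.rpow_pos_of_pos (by positivity) _
  have hK : (0 : ℝ) < (K : ℝ) + 1 := by positivity
  have f_upper : ∀ τ : ℝ, omegaMM F < τ →
      ∃ D : ℝ, 0 ≤ D ∧ ∀ N : ℕ, (f N : ℝ) ≤ D * (N : ℝ) ^ τ := by
    intro τ hτ
    obtain ⟨D, hD0, hD⟩ := GrwL.trank_upper hτ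
    refine ⟨2 * C * D, by positivity, fun N => ?_⟩
    have h1 : f N ≤ C * (2 * trank F N N N) := by
      refine (hup N).trans (Nat.mul_le_mul_left _ ?_)
      have := sq_le_trank F N
      omega
    have h1' : (f N : ℝ) ≤ C * (2 * (trank F N N N : ℝ)) := by exact_mod_cast h1
    have h2 := mul_le_mul_of_nonneg_left (hD N) (by positivity : (0 : ℝ) ≤ C * 2)
    linarith
  constructor
  · rw [omega_eq]
    have hl : ∀ τ ∈ {τ : ℝ | ∃ D : ℝ, ∀ m : ℕ, (f m : ℝ) ≤ D * (m : ℝ) ^ τ},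
        omegaMM F ≤ τ := by
      rintro τ ⟨D, hD⟩
      exact GrwL.omega_le_of hc hK hlow (Eventually.of_forall hD)
    apply le_antisymm
    · refine le_of_forall_pos_le_add fun ε hε => ?_
      obtain ⟨D, _, hD⟩ := f_upper (omegaMM F + ε) (by linarith)
      exact csInf_le ⟨omegaMM F, hl⟩ ⟨D, hD⟩
    · obtain ⟨D, _, hD⟩ := f_upper (omegaMM F + 1) (by linarith)
      exact le_csInf ⟨_, D, hD⟩ hl
  · constructor
    · exact (atLeast hδ hlow0).2
    · rw [Pool.Agent.Helper16K9.Adds.superlinear_size_iff]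
      have hpow : ∀ (α : ℝ) (N : ℕ), ((N : ℝ) ^ 2) ^ α = (N : ℝ) ^ (2 * α) := by
        intro α N
        rw [← Real.rpow_natCast (N : ℝ) 2, ← Real.rpow_mul (Nat.cast_nonneg N)]
        norm_num
      rintro ⟨α, hα, c, hc, m₂, h⟩
      by_contra hcon
      push Not at hcon
      obtain ⟨D, hD0, hD⟩ := f_upper (1 + α) (by linarith)
      have hlim : Tendsto (fun q : ℕ => (q : ℝ) ^ (α - 1)) atTop atTop :=
        (tendsto_rpow_atTop (by linarith)).comp tendsto_natCast_atTop_atTop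
      obtain ⟨N, hN1, hN2, hN3⟩ := ((hlim.eventually_gt_atTop (D / c)).and
        ((eventually_ge_atTop 1).and (eventually_ge_atTop m₂))).exists
      have hN0 : (0 : ℝ) < N := by exact_mod_cast (by omega : 0 < N)
      have h1 := (h N hN3).trans (hD N)
      rw [hpow] at h1
      have h2 : (N : ℝ) ^ (2 * α) = (N : ℝ) ^ (α - 1) * (N : ℝ) ^ (1 + α) := by
        rw [← Real.rpow_add hN0]
        congr 1
        ring
      rw [h2] at h1
      have h3 : (0 : ℝ) < (N : ℝ) ^ (1 + α) := Real.rpow_pos_of_pos hN0 _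
      rw [div_lt_iff₀ hc] at hN1
      have h4 := mul_lt_mul_of_pos_right hN1 h3
      nlinarith

theorem half_dim {ε : ℝ} (hε : 0 < ε) {m k d : ℕ} (hd : (1 / 2 + ε) * (m : ℝ) ^ 2 ≤ d)
    (hk : (k : ℝ) < ε / 3 * m) : m ^ 2 + 6 * k * m < 2 * d := by
  have hm : (0 : ℝ) < m := by
    by_contra hcon
    push Not at hcon
    have h1 : (0 : ℝ) ≤ k := Nat.cast_nonneg _
    nlinarith
  have h1 : (k : ℝ) * m < ε / 3 * m * m := mul_lt_mul_of_pos_right hk hm
  have h2 : ((m ^ 2 + 6 * k * m : ℕ) : ℝ) < ((2 * d : ℕ) : ℝ) := by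
    push_cast
    nlinarith
  exact_mod_cast h2

theorem quarter_dim {ε : ℝ} (hε : 0 < ε) {m k d : ℕ} (hd : (1 / 4 + ε) * (m : ℝ) ^ 2 ≤ d)
    (hk : (k : ℝ) < ε / 4 * m) : m ^ 2 + 16 * k * m < 4 * d := by
  have hm : (0 : ℝ) < m := by
    by_contra hcon
    push Not at hcon
    have h1 : (0 : ℝ) ≤ k := Nat.cast_nonneg _
    nlinarith
  have h1 : (k : ℝ) * m < ε / 4 * m * m := mul_lt_mul_of_pos_right hk hm
  have h2 : ((m ^ 2 + 16 * k * m : ℕ) : ℝ) < ((4 * d : ℕ) : ℝ) := by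
    push_cast
    nlinarith
  exact_mod_cast h2

theorem fam_det [Infinite F] {ε : ℝ} (hε : 0 < ε) {m₀ : ℕ} (d : ℕ → ℕ)
    (A : (m : ℕ) → Matrix (Fin m) (Fin m) F) (B : (m : ℕ) → Fin (d m) → Matrix (Fin m) (Fin m) F)
    (hB : ∀ m, LinearIndependent F (B m))
    (hd : ∀ m, m₀ ≤ m → (1 / 2 + ε) * (m : ℝ) ^ 2 ≤ d m)
    (hx : ∀ m, m₀ ≤ m → ∃ x, (A m + comb (B m) x).det ≠ 0) :
    AtLeastMM F fun m => cost {detOn (A m) (B m)} :=
  atLeast (δ := ε / 3) (K := 6) (m₀ := m₀) (by positivity) fun m k hm hk =>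
    bound_det t3 det3 (A m) (hB m) (half_dim hε (hd m hm) hk) (hx m hm)

theorem fam_cube [Infinite F] (h3 : (3 : F) ≠ 0) {ε : ℝ} (hε : 0 < ε) {m₀ : ℕ} (d : ℕ → ℕ)
    (A : (m : ℕ) → Matrix (Fin m) (Fin m) F) (B : (m : ℕ) → Fin (d m) → Matrix (Fin m) (Fin m) F)
    (hB : ∀ m, LinearIndependent F (B m))
    (hd : ∀ m, m₀ ≤ m → (1 / 2 + ε) * (m : ℝ) ^ 2 ≤ d m) :
    LikeMM F fun m => cost {cubeOn (A m) (B m)} :=
  likeMM (δ := ε / 3) (K := 6) (m₀ := m₀) (C := 1) (by positivity) (fun m k hm hk =>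
    bound_cube t3 cube h3 (A m) (hB m) (half_dim hε (hd m hm) hk))
    (fun m => by rw [one_mul]; exact (ups F m (d m) (A m) (B m)).2)

theorem fam_sq [Infinite F] {ε : ℝ} (hε : 0 < ε) {m₀ : ℕ} (d : ℕ → ℕ)
    (A : (m : ℕ) → Matrix (Fin m) (Fin m) F) (B : (m : ℕ) → Fin (d m) → Matrix (Fin m) (Fin m) F)
    (hB : ∀ m, LinearIndependent F (B m))
    (hd : ∀ m, m₀ ≤ m → (1 / 4 + ε) * (m : ℝ) ^ 2 ≤ d m) :
    LikeMM F fun m => cost (squareOn (A m) (B m)) :=
  likeMM (δ := ε / 4) (K := 2) (m₀ := m₀) (C := 1) (by positivity) (fun m k hm hk =>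
    bound_sq t2 sq (A m) (hB m) (quarter_dim hε (hd m hm) hk))
    (fun m => by
      rw [one_mul]
      exact (ups F m (d m) (A m) (B m)).1.trans (Nat.le_add_right _ _))

theorem fam_pair [Infinite F] {r t : F} (hrt : r ≠ 0 ∨ t ≠ 0) {ε : ℝ} (hε : 0 < ε) {m₀ : ℕ}
    (d : ℕ → ℕ) (A A' : (m : ℕ) → Matrix (Fin m) (Fin m) F)
    (B : (m : ℕ) → Fin (d m) → Matrix (Fin m) (Fin m) F)
    (hB : ∀ m, LinearIndependent F (B m))
    (hd : ∀ m, m₀ ≤ m → (1 / 4 + ε) * (m : ℝ) ^ 2 ≤ d m) :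
    LikeMM F fun m => cost (pairOn r t (A m) (A' m) (B m)) :=
  likeMM (δ := ε / 4) (K := 2) (m₀ := m₀) (C := 2) (by positivity) (fun m k hm hk =>
    bound_pair t2 hrt (A m) (A' m) (hB m) (quarter_dim hε (hd m hm) hk))
    (fun m => (cost_pair_le r t (A m) (A' m) (B m)).trans
      (Nat.mul_le_mul_left _ (Nat.le_add_right _ _)))

theorem block_example (F : Type) [Field F] (m : ℕ) :
    ∃ B : Fin (m ^ 2 / 4) → Matrix (Fin m) (Fin m) F,
      LinearIndependent F B ∧ ∀ k l, B k * B l = 0 := by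
  have hc := UpsL.card_block m
  let e0 : Fin (m ^ 2 / 4) ≃ Fin (m / 2) × Fin (m - m / 2) :=
    (Fintype.equivFinOfCardEq hc).symm
  set e : Fin (m ^ 2 / 4) → Fin m × Fin m := fun l =>
    (⟨((e0 l).1 : ℕ), by have := (e0 l).1.2; omega⟩,
      ⟨m / 2 + ((e0 l).2 : ℕ), by have := (e0 l).2.2; omega⟩) with he
  have hinj : Function.Injective e := by
    intro a b h
    apply e0.injective
    have h1 := congrArg Fin.val (Prod.ext_iff.1 h).1
    have h2 := congrArg Fin.val (Prod.ext_iff.1 h).2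
    simp only [he] at h1 h2
    exact Prod.ext (Fin.ext h1) (Fin.ext (by omega))
  refine ⟨UpsL.el F e, UpsL.el_indep e hinj, fun k l => ?_⟩
  unfold UpsL.el
  rw [Matrix.single_mul_single_of_ne]
  intro h
  have h1 := congrArg Fin.val h
  simp only [he] at h1
  have := (e0 l).1.2
  omega

end

end Pool.Agent.Helper16K9.TH
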