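import Pool.Agent.Helper16K9.TH.Cst2
import Pool.Agent.Helper16K9.TH.Fin

set_option autoImplicit false
set_option linter.unusedSectionVars false
set_option linter.unusedVariables false
set_option linter.unusedSimpArgs false

/-!
# Lower bounds with divisions
-/

namespace Pool.Agent.Helper16K9.TH

open MvPolynomial Matrix Pool.Agent.W956.KF Finset

/-! ### computations exist -/

section
variable {F : Type} [Field F] {d : ℕ}

theorem exists_obtD_poly (f : MvPolynomial (Fin d) F) :
    ∀ (s : ℕ) (T : Submodule F (RF F d)), ObtD F (inputsD F d) s T →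
      ∃ s' T', ObtD F (inputsD F d) s' T' ∧ T ≤ T' ∧ algebraMap _ (RF F d) f ∈ T' := by
  induction f using MvPolynomial.induction_on with
  | C a =>
    intro s T h
    refine ⟨s, T, h, le_rfl, h.le ?_⟩
    have : algebraMap (MvPolynomial (Fin d) F) (RF F d) (C a) = a • (1 : RF F d) := by
      rw [← MvPolynomial.algebraMap_eq, ← IsScalarTower.algebraMap_apply, Algebra.algebraMap_eq_smul_one]
    rw [this]
    exact Submodule.smul_mem _ _ (Submodule.subset_span (Set.mem_insert _ _))
  | add p q hp hq =>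
    intro s T h
    obtain ⟨s1, T1, h1, h2, h3⟩ := hp s T h
    obtain ⟨s2, T2, h4, h5, h6⟩ := hq s1 T1 h1
    exact ⟨s2, T2, h4, h2.trans h5, by rw [map_add]; exact T2.add_mem (h5 h3) h6⟩
  | mul_X p i hp =>
    intro s T h
    obtain ⟨s1, T1, h1, h2, h3⟩ := hp s T h
    refine ⟨s1 + 1, _, ObtD.mul h1 h3 (h1.le (Submodule.subset_span
      (Set.mem_insert_of_mem _ ⟨i, rfl⟩))), h2.trans le_sup_left, ?_⟩
    rw [map_mul]
    exact Submodule.mem_sup_right (Submodule.mem_span_singleton_self _)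

theorem exists_obtD (z : RF F d) (s : ℕ) (T : Submodule F (RF F d))
    (h : ObtD F (inputsD F d) s T) :
    ∃ s' T', ObtD F (inputsD F d) s' T' ∧ T ≤ T' ∧ z ∈ T' := by
  obtain ⟨f, g, hg, rfl⟩ := IsFractionRing.div_surjective (A := MvPolynomial (Fin d) F) z
  obtain ⟨s1, T1, h1, h2, h3⟩ := exists_obtD_poly f s T h
  obtain ⟨s2, T2, h4, h5, h6⟩ := exists_obtD_poly g s1 T1 h1
  have hg0 : algebraMap (MvPolynomial (Fin d) F) (RF F d) g ≠ 0 :=
    IsFractionRing.to_map_ne_zero_of_mem_nonZeroDivisors hg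
  refine ⟨s2 + 1, _, ObtD.div h4 (h5 h3) h6 hg0, (h2.trans h5).trans le_sup_left, ?_⟩
  exact Submodule.mem_sup_right (Submodule.mem_span_singleton_self _)

theorem costD_spec (P : Set (RF F d)) (hP : P.Finite) :
    ∃ T, ObtD F (inputsD F d) (costD P) T ∧ P ⊆ T := by
  refine Nat.sInf_mem (s := {s | ∃ T, ObtD F (inputsD F d) s T ∧ P ⊆ T}) ?_
  induction P, hP using Set.Finite.induction_on with
  | empty => exact ⟨0, _, ObtD.start, Set.empty_subset _⟩
  | @insert a P _ _ ih =>
    obtain ⟨s, T, h1, h2⟩ := ih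
    obtain ⟨s', T', h3, h4, h5⟩ := exists_obtD a s T h1
    exact ⟨s', T', h3, Set.insert_subset h5 (h2.trans h4)⟩

theorem costD_le {P : Set (RF F d)} {s : ℕ} {T : Submodule F (RF F d)}
    (h : ObtD F (inputsD F d) s T) (hP : P ⊆ T) : costD P ≤ s := Nat.sInf_le ⟨T, h, hP⟩

instance infRF [Infinite F] : Infinite (RF F d) :=
  Infinite.of_injective (algebraMap F (RF F d)) (algebraMap F (RF F d)).injective

end

/-! ### the generic element -/

section
variable {F : Type} [Field F] {m d : ℕ}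

theorem gen_map_up (A : Matrix (Fin m) (Fin m) F) (B : Fin d → Matrix (Fin m) (Fin m) F) :
    (gen A B).map (MvPolynomial.map (algebraMap F (RF F d))) =
      gen (up d A) fun l => up d (B l) := by
  ext1 i j
  simp only [gen, Matrix.map_apply, up, map_add, map_sum, map_mul, MvPolynomial.map_C,
    MvPolynomial.map_X]

theorem genD_eq (A : Matrix (Fin m) (Fin m) F) (B : Fin d → Matrix (Fin m) (Fin m) F) :
    genD A B = up d A + comb (fun l => up d (B l)) (xv F d) := by
  ext1 i j
  have hC : ∀ c : F, algebraMap (MvPolynomial (Fin d) F) (RF F d) (C c) =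
      algebraMap F (RF F d) c := by
    intro c
    rw [← MvPolynomial.algebraMap_eq, ← IsScalarTower.algebraMap_apply]
  rw [Matrix.add_apply, comb, Matrix.sum_apply]
  simp only [genD, gen, Matrix.map_apply, up, map_add, map_sum, map_mul, hC, Matrix.smul_apply,
    smul_eq_mul, xv]
  congr 1
  refine sum_congr rfl fun l _ => ?_
  ring

theorem detD_eq (A : Matrix (Fin m) (Fin m) F) (B : Fin d → Matrix (Fin m) (Fin m) F) :
    detD A B = algebraMap _ (RF F d) (detOn A B) := by
  rw [detD, detOn, genD, RingHom.map_det]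
  rfl

theorem detOn_map (A : Matrix (Fin m) (Fin m) F) (B : Fin d → Matrix (Fin m) (Fin m) F) :
    MvPolynomial.map (algebraMap F (RF F d)) (detOn A B) =
      detOn (up d A) fun l => up d (B l) := by
  rw [detOn, detOn, RingHom.map_det, ← gen_map_up]
  rfl

theorem cubeD_eq (A : Matrix (Fin m) (Fin m) F) (B : Fin d → Matrix (Fin m) (Fin m) F) :
    cubeD A B = algebraMap _ (RF F d) (cubeOn A B) := by
  rw [cubeD, cubeOn, genD, ← Matrix.map_mul, ← Matrix.map_mul, Matrix.trace, Matrix.trace,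
    map_sum]
  rfl

theorem cubeOn_map (A : Matrix (Fin m) (Fin m) F) (B : Fin d → Matrix (Fin m) (Fin m) F) :
    MvPolynomial.map (algebraMap F (RF F d)) (cubeOn A B) =
      cubeOn (up d A) fun l => up d (B l) := by
  rw [cubeOn, cubeOn, ← gen_map_up, ← Matrix.map_mul, ← Matrix.map_mul, Matrix.trace,
    Matrix.trace, map_sum]
  rfl

/-- the determinant -/
theorem bound_detD (hbri : S_BRI) (hlif : S_LIF) [Infinite F] (A : Matrix (Fin m) (Fin m) F)
    {B : Fin d → Matrix (Fin m) (Fin m) F} (hB : LinearIndependent F B) {k : ℕ}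
    (hd : m ^ 2 + 6 * k * m < 2 * d) (hx : detD A B ≠ 0) :
    trank F k k k ≤ 6 * costD {detD A B} := by
  rcases Nat.eq_zero_or_pos k with hk | hk
  · subst hk
    rw [trank_zero]
    exact Nat.zero_le _
  obtain ⟨δ, hδ⟩ := exists_partial F d
  have hu : IsUnit (genD A B).det := isUnit_iff_ne_zero.2 hx
  obtain ⟨T, hT, hp⟩ := costD_spec {detD A B} (Set.finite_singleton _)
  obtain ⟨α, β, γ, H⟩ := blocks t3 (Matrix.mul_nonsing_inv _ hu) (hlif F m d d B hB) hk hd
  refine trank_le (rank_descend (cstD3 hδ hT (detD A B) (hp rfl) α β γ (genD A B).det hx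
    fun X Y Z => ?_))
  obtain ⟨h1, h2, h3, h4, h5⟩ := H X Y Z
  have h6 := Matrix.nonsing_inv_mul _ hu
  conv_lhs at h6 => rw [genD_eq A B]
  rw [← genD_eq] at h6
  have h7 : (genD A B)⁻¹ * (up d A + comb (fun l => up d (B l)) (xv F d)) = 1 := by
    rw [← genD_eq]
    exact Matrix.nonsing_inv_mul _ hu
  rw [detD_eq, (hbri F d δ hδ (detOn A B) (α X) (β Y) (γ Z)).2, detOn_map,
    det3 (RF F d) m d (up d A) (fun l => up d (B l)) (xv F d) (α X) (β Y) (γ Z) _ h7,
    h1, h2, h3, h4, h5, ← genD_eq]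
  ring

/-- the trace of the cube -/
theorem bound_cubeD (hbri : S_BRI) (hlif : S_LIF) [Infinite F] (h3F : (3 : F) ≠ 0)
    (A : Matrix (Fin m) (Fin m) F)
    {B : Fin d → Matrix (Fin m) (Fin m) F} (hB : LinearIndependent F B) {k : ℕ}
    (hd : m ^ 2 + 6 * k * m < 2 * d) :
    trank F k k k ≤ 6 * costD {cubeD A B} := by
  rcases Nat.eq_zero_or_pos k with hk | hk
  · subst hk
    rw [trank_zero]
    exact Nat.zero_le _
  obtain ⟨δ, hδ⟩ := exists_partial F d
  obtain ⟨T, hT, hp⟩ := costD_spec {cubeD A B} (Set.finite_singleton _)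
  obtain ⟨α, β, γ, H⟩ := blocks t3 (M := 1) (M' := 1) (Matrix.mul_one _) (hlif F m d d B hB) hk hd
  have h3K : (3 : RF F d) ≠ 0 := by
    intro h
    apply h3F
    apply (algebraMap F (RF F d)).injective
    rw [map_zero, map_ofNat]
    exact h
  refine trank_le (rank_descend (cstD3 hδ hT (cubeD A B) (hp rfl) α β γ 3 h3K fun X Y Z => ?_))
  obtain ⟨h1, h2, h3, h4, h5⟩ := H X Y Z
  simp only [Matrix.one_mul] at h4 h5
  rw [cubeD_eq, (hbri F d δ hδ (cubeOn A B) (α X) (β Y) (γ Z)).2, cubeOn_map,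
    cube (RF F d) m d (up d A) (fun l => up d (B l)) (xv F d) (α X) (β Y) (γ Z), h4, h5, add_zero]

end

end Pool.Agent.Helper16K9.TH
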