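import Pool.Agent.Helper16K9.TH.Asm2

set_option autoImplicit false
set_option linter.unusedSectionVars false
set_option linter.unusedVariables false
set_option linter.unusedSimpArgs false

/-!
# Lower bounds with divisions: products, squares, inverses
-/

namespace Pool.Agent.Helper16K9.TH

open MvPolynomial Matrix Pool.Agent.W956.KF Finset

section
variable {F : Type} [Field F] {m d : ℕ}

theorem mulVec_sum (S : Matrix (Fin m) (Fin m) F) (P : (Fin m → F) →ₗ[F] F)
    (e : Fin m → F) : P (S.mulVec e) = ∑ u, ∑ v, P (Pi.single u 1) * e v * S u v := by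
  have h7 : S.mulVec e = ∑ u, (S.mulVec e) u • (Pi.single u 1 : Fin m → F) := by
    funext a
    rw [Finset.sum_apply]
    simp [Pi.single_apply]
  rw [h7, map_sum]
  refine sum_congr rfl fun u _ => ?_
  rw [map_smul, smul_eq_mul, Matrix.mulVec, dotProduct, Finset.sum_mul]
  refine sum_congr rfl fun v _ => ?_
  ring

/-- from second derivatives to the rank -/
theorem fin2 {s k n : ℕ} {δ : Fin n → Derivation F (RF F n) (RF F n)} (hδ : IsPartial δ)
    {T : Submodule F (RF F n)} (hT : ObtD F (inputsD F n) s T) (p : Fin m → Fin m → RF F n)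
    (hp : ∀ i j, p i j ∈ T) (β γ : Matrix (Fin k) (Fin k) (RF F n) →ₗ[RF F n] (Fin n → RF F n))
    (e : Fin k → Fin m → RF F n) (P : (Fin m → RF F n) →ₗ[RF F n] (Fin k → RF F n))
    {c : RF F n} (hc : c ≠ 0)
    (H : ∀ X Y, ∃ S : Matrix (Fin m) (Fin m) (RF F n),
      (∀ u v, DD2 δ (p u v) (β X) (γ Y) = S u v) ∧
        ∀ i j, P (S.mulVec (e j)) i = c * (X * Y) i j) :
    RankLE (RF F n) k k k (2 * s) := by
  refine cstD2 hδ hT p hp β γ (fun i j u v => c⁻¹ * (P (Pi.single u 1) i * e j v))
    fun X Y i j => ?_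
  obtain ⟨S, h1, h2⟩ := H X Y
  have h3 : (X * Y) i j = c⁻¹ * P (S.mulVec (e j)) i := by
    rw [h2, ← mul_assoc, inv_mul_cancel₀ hc, one_mul]
  have h4 := mulVec_sum S ((LinearMap.proj i).comp P) (e j)
  rw [LinearMap.comp_apply, LinearMap.proj_apply] at h4
  rw [h3, h4]
  simp only [h1, Finset.mul_sum, LinearMap.comp_apply, LinearMap.proj_apply, mul_assoc]

/-- matrix form of the second restriction theorem -/
theorem quarter [Infinite F] {M M' : Matrix (Fin m) (Fin m) F} (hM : M' * M = 1)
    {B : Fin d → Matrix (Fin m) (Fin m) F} (hB : LinearIndependent F B) {k : ℕ}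
    (hd : m ^ 2 + 16 * k * m < 4 * d) :
    ∃ (β γ : Matrix (Fin k) (Fin k) F →ₗ[F] (Fin d → F)) (e : Fin k → Fin m → F)
      (P : (Fin m → F) →ₗ[F] (Fin k → F)), ∀ X Y i j,
      P ((M * comb B (β X) * (M * comb B (γ Y))).mulVec (e j)) i = (X * Y) i j ∧
      (M * comb B (γ Y) * (M * comb B (β X))).mulVec (e j) = 0 := by
  have hinj := Phi_injective hM hB
  have hfin : Module.finrank F (LinearMap.range (Phi M B)) = d := by
    rw [LinearMap.finrank_range_of_inj hinj, Module.finrank_fin_fun]
  obtain ⟨β, γ, e, P, hW, H⟩ := t2 F (Fin m → F) (LinearMap.range (Phi M B)) k (by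
    rw [hfin, Module.finrank_fin_fun]
    exact hd)
  let eq := LinearEquiv.ofInjective (Phi M B) hinj
  have hlift : ∀ β : Matrix (Fin k) (Fin k) F →ₗ[F] Module.End F (Fin m → F),
      (∀ X, β X ∈ LinearMap.range (Phi M B)) →
      ∃ β' : Matrix (Fin k) (Fin k) F →ₗ[F] (Fin d → F), ∀ X, Phi M B (β' X) = β X := by
    intro β hβ
    refine ⟨eq.symm.toLinearMap.comp (β.codRestrict _ hβ), fun X => ?_⟩
    have h1 : eq (eq.symm (β.codRestrict _ hβ X)) = β.codRestrict _ hβ X :=
      LinearEquiv.apply_symm_apply _ _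
    have h2 := congrArg Subtype.val h1
    rw [LinearEquiv.ofInjective_apply] at h2
    exact h2
  obtain ⟨β', hβ'⟩ := hlift β fun X => (hW X).1
  obtain ⟨γ', hγ'⟩ := hlift γ fun X => (hW X).2
  refine ⟨β', γ', e, P, fun X Y i j => ?_⟩
  obtain ⟨h5, h6⟩ := H X Y i j
  rw [← hβ' X, ← hγ' Y, Phi_apply, Phi_apply] at h5 h6
  simp only [Matrix.toLin'_apply] at h5 h6
  constructor
  · rw [← Matrix.mulVec_mulVec]
    exact h5
  · rw [← Matrix.mulVec_mulVec]
    exact h6

theorem algebraMap_smul' {n : ℕ} (r : F) (p : MvPolynomial (Fin n) F) :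
    algebraMap (MvPolynomial (Fin n) F) (RF F n) (r • p) = r • algebraMap _ (RF F n) p := by
  rw [MvPolynomial.smul_eq_C_mul, map_mul, ← MvPolynomial.algebraMap_eq,
    ← IsScalarTower.algebraMap_apply, Algebra.smul_def]

theorem pair_entry {n : ℕ} (r t : F) (A A' : Matrix (Fin m) (Fin m) F)
    (B B' : Fin n → Matrix (Fin m) (Fin m) F) (i j : Fin m) :
    (r • (genD A B * genD A' B') + t • (genD A' B' * genD A B)) i j =
      algebraMap _ (RF F n) ((r • (gen A B * gen A' B') + t • (gen A' B' * gen A B)) i j) := by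
  rw [Matrix.add_apply, Matrix.smul_apply, Matrix.smul_apply, Matrix.add_apply,
    Matrix.smul_apply, Matrix.smul_apply, map_add, algebraMap_smul', algebraMap_smul', genD, genD,
    ← Matrix.map_mul, ← Matrix.map_mul, Matrix.map_apply, Matrix.map_apply]

theorem DD2_pair (hbri : S_BRI) {n : ℕ} {δ : Fin n → Derivation F (RF F n) (RF F n)}
    (hδ : IsPartial δ) (r t : F) (A A' : Matrix (Fin m) (Fin m) F)
    (B B' : Fin n → Matrix (Fin m) (Fin m) F) (a b : Fin n → RF F n) (i j : Fin m) :
    DD2 δ ((r • (genD A B * genD A' B') + t • (genD A' B' * genD A B)) i j) a b =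
      (algebraMap F (RF F n) r • (comb (fun l => up n (B l)) a * comb (fun l => up n (B' l)) b +
          comb (fun l => up n (B l)) b * comb (fun l => up n (B' l)) a) +
        algebraMap F (RF F n) t • (comb (fun l => up n (B' l)) a * comb (fun l => up n (B l)) b +
          comb (fun l => up n (B' l)) b * comb (fun l => up n (B l)) a)) i j := by
  rw [pair_entry, (hbri F n δ hδ _ a b 0).1]
  have h1 : MvPolynomial.map (algebraMap F (RF F n))
      ((r • (gen A B * gen A' B') + t • (gen A' B' * gen A B)) i j) =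
      (algebraMap F (RF F n) r • (gen (up n A) (fun l => up n (B l)) *
        gen (up n A') fun l => up n (B' l)) +
      algebraMap F (RF F n) t • (gen (up n A') (fun l => up n (B' l)) *
        gen (up n A) fun l => up n (B l))) i j := by
    rw [← gen_map_up, ← gen_map_up, ← Matrix.map_mul, ← Matrix.map_mul]
    simp only [Matrix.add_apply, Matrix.smul_apply, Matrix.map_apply, map_add,
      MvPolynomial.smul_eq_C_mul, map_mul, MvPolynomial.map_C]
  rw [h1, pair_dd]

/-- the square -/
theorem bound_sqD (hbri : S_BRI) (hlif : S_LIF) [Infinite F] (A : Matrix (Fin m) (Fin m) F)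
    {B : Fin d → Matrix (Fin m) (Fin m) F} (hB : LinearIndependent F B) {k : ℕ}
    (hd : m ^ 2 + 16 * k * m < 4 * d) :
    trank F k k k ≤ 2 * costD (squareD A B) := by
  obtain ⟨δ, hδ⟩ := exists_partial F d
  have hfs : (squareD A B).Finite := by
    refine (Set.finite_range fun ij : Fin m × Fin m => (genD A B * genD A B) ij.1 ij.2).subset ?_
    rintro _ ⟨i, j, rfl⟩
    exact ⟨(i, j), rfl⟩
  obtain ⟨T, hT, hp⟩ := costD_spec (squareD A B) hfs
  obtain ⟨β, γ, e, P, H⟩ := quarter (M := 1) (M' := 1) (Matrix.mul_one _) (hlif F m d d B hB) hd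
  refine trank_le (rank_descend (fin2 hδ hT (fun i j => (genD A B * genD A B) i j)
    (fun i j => hp ⟨i, j, rfl⟩) β γ e P one_ne_zero fun X Y =>
      ⟨comb (fun l => up d (B l)) (β X) * comb (fun l => up d (B l)) (γ Y) +
      comb (fun l => up d (B l)) (γ Y) * comb (fun l => up d (B l)) (β X),
      fun u v => ?_, fun i j => ?_⟩))
  · have h1 := DD2_pair hbri hδ 1 0 A A B B (β X) (γ Y) u v
    simp only [one_smul, zero_smul, map_one, map_zero, add_zero] at h1
    exact h1
  · obtain ⟨h1, h2⟩ := H X Y i j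
    simp only [Matrix.one_mul] at h1 h2
    rw [Matrix.add_mulVec, h2, add_zero, h1, one_mul]

/-- the inverse -/
theorem bound_invD (hlif : S_LIF) (hinv : S_INV) [Infinite F] (A : Matrix (Fin m) (Fin m) F)
    {B : Fin d → Matrix (Fin m) (Fin m) F} (hB : LinearIndependent F B) {k : ℕ}
    (hd : m ^ 2 + 16 * k * m < 4 * d) (hx : detD A B ≠ 0) :
    trank F k k k ≤ 2 * costD (invD A B) := by
  obtain ⟨δ, hδ⟩ := exists_partial F d
  have hu : IsUnit (genD A B).det := isUnit_iff_ne_zero.2 hx
  have hfs : (invD A B).Finite := by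
    refine (Set.finite_range fun ij : Fin m × Fin m => (genD A B)⁻¹ ij.1 ij.2).subset ?_
    rintro _ ⟨i, j, rfl⟩
    exact ⟨(i, j), rfl⟩
  obtain ⟨T, hT, hp⟩ := costD_spec (invD A B) hfs
  obtain ⟨β, γ, e, P, H⟩ := quarter (Matrix.mul_nonsing_inv _ hu) (hlif F m d d B hB) hd
  refine trank_le (rank_descend (fin2 hδ hT (fun i j => (genD A B)⁻¹ i j)
    (fun i j => hp ⟨i, j, rfl⟩) β γ (fun j => (genD A B).mulVec (e j)) P one_ne_zero
    fun X Y => ⟨_, fun u v => hinv F m d A B δ hδ _ (Matrix.nonsing_inv_mul _ hu)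
      (Matrix.mul_nonsing_inv _ hu) (β X) (γ Y) u v, fun i j => ?_⟩))
  obtain ⟨h1, h2⟩ := H X Y i j
  rw [← Matrix.mulVec_mulVec, Matrix.mulVec_mulVec _ (genD A B)⁻¹ (genD A B),
    Matrix.nonsing_inv_mul _ hu, Matrix.one_mulVec, Matrix.add_mulVec, h2, add_zero, h1, one_mul]

theorem up_append_left (B : Fin d → Matrix (Fin m) (Fin m) F) :
    (fun l => up (d + d) (Fin.append B 0 l)) =
      Fin.append (fun l => up (d + d) (B l)) (0 : Fin d → Matrix (Fin m) (Fin m) (RF F (d + d))) := by
  funext l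
  refine Fin.addCases (fun i => ?_) (fun i => ?_) l
  · simp only [Fin.append_left]
  · simp only [Fin.append_right, Pi.zero_apply, up]
    ext1 i j
    rw [Matrix.map_apply, Matrix.zero_apply, Matrix.zero_apply, map_zero]

theorem up_append_right (B : Fin d → Matrix (Fin m) (Fin m) F) :
    (fun l => up (d + d) (Fin.append 0 B l)) =
      Fin.append (0 : Fin d → Matrix (Fin m) (Fin m) (RF F (d + d)))
        (fun l => up (d + d) (B l)) := by
  funext l
  refine Fin.addCases (fun i => ?_) (fun i => ?_) l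
  · simp only [Fin.append_left, Pi.zero_apply, up]
    ext1 i j
    rw [Matrix.map_apply, Matrix.zero_apply, Matrix.zero_apply, map_zero]
  · simp only [Fin.append_right]

/-- products of two elements -/
theorem bound_pairD (hbri : S_BRI) (hlif : S_LIF) [Infinite F] {r t : F}
    (hrt : r ≠ 0 ∨ t ≠ 0) (A A' : Matrix (Fin m) (Fin m) F)
    {B : Fin d → Matrix (Fin m) (Fin m) F} (hB : LinearIndependent F B) {k : ℕ}
    (hd : m ^ 2 + 16 * k * m < 4 * d) :
    trank F k k k ≤ 2 * costD (pairD r t A A' B) := by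
  obtain ⟨δ, hδ⟩ := exists_partial F (d + d)
  have hfs : (pairD r t A A' B).Finite := by
    refine (Set.finite_range fun ij : Fin m × Fin m => pairMatD r t A A' B ij.1 ij.2).subset ?_
    rintro _ ⟨i, j, rfl⟩
    exact ⟨(i, j), rfl⟩
  obtain ⟨T, hT, hp⟩ := costD_spec (pairD r t A A' B) hfs
  obtain ⟨β, γ, e, P, H⟩ := quarter (M := 1) (M' := 1) (Matrix.mul_one _)
    (hlif F m d (d + d) B hB) hd
  have hA : ∀ c : F, c ≠ 0 → algebraMap F (RF F (d + d)) c ≠ 0 := by
    intro c hc h
    apply hc
    apply (algebraMap F (RF F (d + d))).injective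
    rw [h, map_zero]
  have inFst' : ∀ u : Fin d → RF F (d + d), inFst (RF F (d + d)) d u = Fin.append u 0 :=
    fun u => rfl
  have inSnd' : ∀ u : Fin d → RF F (d + d), inSnd (RF F (d + d)) d u = Fin.append 0 u :=
    fun u => rfl
  refine trank_le (rank_descend (σ := Fin (d + d)) ?_)
  by_cases hr : r = 0
  · have ht : t ≠ 0 := hrt.resolve_left (fun h => h hr)
    refine fin2 hδ hT (fun i j => pairMatD r t A A' B i j) (fun i j => hp ⟨i, j, rfl⟩)
      ((inSnd (RF F (d + d)) d).comp β) ((inFst (RF F (d + d)) d).comp γ) e P (hA t ht)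
      fun X Y => ⟨algebraMap F (RF F (d + d)) t • (comb (fun l => up (d + d) (B l)) (β X) *
        comb (fun l => up (d + d) (B l)) (γ Y)) + algebraMap F (RF F (d + d)) r •
        (comb (fun l => up (d + d) (B l)) (γ Y) * comb (fun l => up (d + d) (B l)) (β X)),
        fun u v => ?_, fun i j => ?_⟩
    · rw [pairMatD, DD2_pair hbri hδ, LinearMap.comp_apply, LinearMap.comp_apply, inFst', inSnd',
        up_append_left, up_append_right]
      simp only [comb_append_left, comb_append_right, comb_zero, Matrix.zero_mul, Matrix.mul_zero,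
        zero_add, add_zero]
      rw [add_comm (algebraMap F (RF F (d + d)) r • _)]
    · obtain ⟨h1, h2⟩ := H X Y i j
      simp only [Matrix.one_mul] at h1 h2
      rw [Matrix.add_mulVec, Matrix.smul_mulVec, Matrix.smul_mulVec, h2, smul_zero, add_zero,
        map_smul, Pi.smul_apply, smul_eq_mul, h1]
  · refine fin2 hδ hT (fun i j => pairMatD r t A A' B i j) (fun i j => hp ⟨i, j, rfl⟩)
      ((inFst (RF F (d + d)) d).comp β) ((inSnd (RF F (d + d)) d).comp γ) e P (hA r hr)
      fun X Y => ⟨algebraMap F (RF F (d + d)) r • (comb (fun l => up (d + d) (B l)) (β X) *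
        comb (fun l => up (d + d) (B l)) (γ Y)) + algebraMap F (RF F (d + d)) t •
        (comb (fun l => up (d + d) (B l)) (γ Y) * comb (fun l => up (d + d) (B l)) (β X)),
        fun u v => ?_, fun i j => ?_⟩
    · rw [pairMatD, DD2_pair hbri hδ, LinearMap.comp_apply, LinearMap.comp_apply, inFst', inSnd',
        up_append_left, up_append_right]
      simp only [comb_append_left, comb_append_right, comb_zero, Matrix.zero_mul, Matrix.mul_zero,
        zero_add, add_zero]
    · obtain ⟨h1, h2⟩ := H X Y i j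
      simp only [Matrix.one_mul] at h1 h2
      rw [Matrix.add_mulVec, Matrix.smul_mulVec, Matrix.smul_mulVec, h2, smul_zero, add_zero,
        map_smul, Pi.smul_apply, smul_eq_mul, h1]

end

end Pool.Agent.Helper16K9.TH
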