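import Pool.Agent.Helper16K9.TH.Df2

set_option autoImplicit false

/-!
# Second and third derivatives of polynomials as rational functions (leaf BRI)
-/

namespace Pool.Agent.Helper16K9.TH

open MvPolynomial Matrix

namespace BriL

variable {F : Type} [Field F] {d : ℕ}

/-- a derivation of rational functions which is a partial derivative on the variables -/
theorem delta {δ : Fin d → Derivation F (RF F d) (RF F d)} (h : IsPartial δ) (i : Fin d)
    (f : MvPolynomial (Fin d) F) :
    δ i (algebraMap _ (RF F d) f) = algebraMap _ (RF F d) (pderiv i f) := by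
  induction f using MvPolynomial.induction_on with
  | C a =>
    rw [pderiv_C, map_zero]
    have : algebraMap (MvPolynomial (Fin d) F) (RF F d) (C a) = algebraMap F (RF F d) a := by
      rw [← MvPolynomial.algebraMap_eq, ← IsScalarTower.algebraMap_apply]
    rw [this, Derivation.map_algebraMap]
  | add p q hp hq => simp only [map_add, hp, hq]
  | mul_X p j hp =>
    rw [map_mul, Derivation.leibniz, hp, pderiv_mul, map_add, map_mul, map_mul]
    have h1 := h i j
    rw [xv] at h1
    rw [h1, pderiv_X]
    rcases eq_or_ne j i with rfl | hne
    · simp only [if_true, smul_eq_mul, Pi.single_eq_same, map_one]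
      ring
    · simp only [if_neg hne, smul_eq_mul, Pi.single_eq_of_ne hne, map_zero]
      ring

theorem ev (f : MvPolynomial (Fin d) F) :
    eval (xv F d) (MvPolynomial.map (algebraMap F (RF F d)) f) = algebraMap _ (RF F d) f := by
  induction f using MvPolynomial.induction_on with
  | C a =>
    rw [map_C, eval_C, ← MvPolynomial.algebraMap_eq, ← IsScalarTower.algebraMap_apply]
  | add p q hp hq => simp only [map_add, hp, hq]
  | mul_X p j hp => rw [map_mul, map_mul, map_mul, hp, map_X, eval_X, xv]

theorem dd_eq {K : Type} [Field K] (a : Fin d → K) (p : MvPolynomial (Fin d) K) :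
    dd a p = ∑ i, a i • pderiv i p := by
  have hs : ∀ (s : Finset (Fin d)) (D : Fin d → Derivation K (MvPolynomial (Fin d) K)
      (MvPolynomial (Fin d) K)) (q : MvPolynomial (Fin d) K),
      (∑ i ∈ s, D i) q = ∑ i ∈ s, D i q := by
    intro s D q
    induction s using Finset.induction_on with
    | empty => simp
    | insert x s hx ih => rw [Finset.sum_insert hx, Finset.sum_insert hx, Derivation.add_apply, ih]
  have h : dd a = ∑ i, a i • (pderiv i : Derivation K (MvPolynomial (Fin d) K) _) := by
    apply MvPolynomial.derivation_ext
    intro j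
    rw [dd, mkDerivation_X, hs, Finset.sum_eq_single j]
    · rw [Derivation.smul_apply, pderiv_X_self, smul_eq_C_mul, mul_one]
    · intro i _ hij
      rw [Derivation.smul_apply, pderiv_X_of_ne (Ne.symm hij), smul_zero]
    · intro hj
      exact absurd (Finset.mem_univ j) hj
  rw [h, hs]
  rfl

theorem dd_map (a : Fin d → RF F d) (f : MvPolynomial (Fin d) F) :
    dd a (MvPolynomial.map (algebraMap F (RF F d)) f) =
      ∑ i, a i • MvPolynomial.map (algebraMap F (RF F d)) (pderiv i f) := by
  rw [dd_eq]
  refine Finset.sum_congr rfl fun i _ => ?_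
  rw [pderiv_map]

end BriL

open BriL in
theorem bri : S_BRI := by
  intro F _ d δ h f a b e
  constructor
  · simp only [DD2, delta h, dd_map, map_sum, Derivation.map_smul, smul_eval, ev, Finset.mul_sum]
    rw [Finset.sum_comm]
    refine Finset.sum_congr rfl fun i _ => Finset.sum_congr rfl fun j _ => ?_
    ring
  · simp only [DD3, delta h, dd_map, map_sum, Derivation.map_smul, smul_eval, ev, Finset.mul_sum]
    rw [Finset.sum_comm]
    conv_rhs => rw [Finset.sum_comm]
    refine Finset.sum_congr rfl fun j _ => ?_
    rw [Finset.sum_comm]
    refine Finset.sum_congr rfl fun k _ => Finset.sum_congr rfl fun i _ => ?_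
    ring

end Pool.Agent.Helper16K9.TH
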