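import Pool.Agent.Helper16K9.TH.Df2

set_option autoImplicit false

/-!
# [CMP] multiplications, divisions against multiplications
-/

namespace Pool.Agent.Helper16K9.TH

open MvPolynomial Matrix Pool.Agent.W956.KF

namespace CmpL

/-- computations are mapped by homomorphisms -/
theorem map_obt {F R K : Type} [Field F] [CommRing R] [Algebra F R] [Field K] [Algebra F K]
    (φ : R →ₐ[F] K) {S T : Submodule F R} {s : ℕ} (h : Obt F S s T) :
    ObtD F (S.map φ.toLinearMap) s (T.map φ.toLinearMap) := by
  induction h with
  | start => exact ObtD.start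
  | @mul s T x y h hx hy ih =>
    have h1 : (T ⊔ Submodule.span F {x * y}).map φ.toLinearMap =
        T.map φ.toLinearMap ⊔ Submodule.span F {φ x * φ y} := by
      rw [Submodule.map_sup, Submodule.map_span, Set.image_singleton]
      have : φ.toLinearMap (x * y) = φ x * φ y := map_mul φ x y
      rw [this]
    rw [h1]
    exact ObtD.mul ih (Submodule.mem_map_of_mem hx) (Submodule.mem_map_of_mem hy)

/-- the inclusion of the polynomials in the rational functions -/
noncomputable def emb (F : Type) [Field F] (d : ℕ) : MvPolynomial (Fin d) F →ₐ[F] RF F d :=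
  IsScalarTower.toAlgHom F (MvPolynomial (Fin d) F) (RF F d)

theorem map_inputs (F : Type) [Field F] (d : ℕ) :
    (inputs F (Fin d)).map (emb F d).toLinearMap = inputsD F d := by
  unfold inputs inputsD
  rw [Submodule.map_span, Set.image_insert_eq, ← Set.range_comp]
  have h1 : (emb F d).toLinearMap 1 = 1 := map_one (emb F d)
  rw [h1]
  rfl

end CmpL

open CmpL

theorem cmp : S_CMP := by
  intro F _ d P hP
  obtain ⟨T, hT, hPT⟩ := cost_spec P hP
  unfold costD
  apply Nat.sInf_le
  refine ⟨T.map (emb F d).toLinearMap, ?_, ?_⟩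
  · rw [← map_inputs]
    exact map_obt (emb F d) hT
  · rintro _ ⟨p, hp, rfl⟩
    exact ⟨p, hPT hp, rfl⟩

end Pool.Agent.Helper16K9.TH
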