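import Pool.Agent.Helper16K9.TH.Df
import Pool.Agent.W956.KF.Run

set_option autoImplicit false
set_option linter.unusedSectionVars false
set_option linter.unusedVariables false

/-!
# Rank bounds from computations
-/

namespace Pool.Agent.Helper16K9.TH

open MvPolynomial Matrix Pool.Agent.W956.KF Finset

variable {F : Type} [Field F] {d : ℕ}

theorem dd_X (a : Fin d → F) (i : Fin d) : dd a (X i) = C (a i) := by
  rw [dd, mkDerivation_X]

theorem dd_C (a : Fin d → F) (r : F) : dd a (C r) = 0 := by
  rw [← MvPolynomial.algebraMap_eq]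
  exact Derivation.map_algebraMap _ _

theorem dd_add_dir (a b : Fin d → F) (p : MvPolynomial (Fin d) F) :
    dd (a + b) p = dd a p + dd b p := by
  have h : dd (a + b) = dd a + dd b := by
    apply MvPolynomial.derivation_ext
    intro i
    rw [Derivation.add_apply, dd_X, dd_X, dd_X, Pi.add_apply, C_add]
  rw [h, Derivation.add_apply]

theorem dd_smul_dir (r : F) (a : Fin d → F) (p : MvPolynomial (Fin d) F) :
    dd (r • a) p = C r * dd a p := by
  have h : dd (r • a) = r • dd a := by
    apply MvPolynomial.derivation_ext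
    intro i
    rw [Derivation.smul_apply, dd_X, dd_X, Pi.smul_apply, smul_eq_mul, C_mul, smul_eq_C_mul]
  rw [h, Derivation.smul_apply, smul_eq_C_mul]

/-- the gradient at a point -/
noncomputable def D1 (c : Fin d → F) (p : MvPolynomial (Fin d) F) : (Fin d → F) →ₗ[F] F where
  toFun a := eval c (dd a p)
  map_add' a b := by rw [dd_add_dir, map_add]
  map_smul' r a := by rw [dd_smul_dir, map_mul, eval_C, RingHom.id_apply, smul_eq_mul]

theorem D1_apply (c : Fin d → F) (p : MvPolynomial (Fin d) F) (a : Fin d → F) :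
    D1 c p a = eval c (dd a p) := rfl

theorem dd_mul (a : Fin d → F) (p q : MvPolynomial (Fin d) F) :
    dd a (p * q) = p * dd a q + q * dd a p := by
  rw [Derivation.leibniz, smul_eq_mul, smul_eq_mul]

theorem inputs_dd2 {p : MvPolynomial (Fin d) F} (hp : p ∈ inputs F (Fin d)) (b : Fin d → F) :
    ∃ r : F, dd b p = C r := by
  unfold inputs at hp
  induction hp using Submodule.span_induction with
  | mem x hx =>
    rcases hx with rfl | ⟨i, rfl⟩
    · refine ⟨0, ?_⟩
      rw [← C_1, dd_C, C_0]
    · exact ⟨b i, dd_X b i⟩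
  | zero => exact ⟨0, by rw [map_zero, C_0]⟩
  | add x y _ _ hx hy =>
    obtain ⟨r, hr⟩ := hx
    obtain ⟨t, ht⟩ := hy
    exact ⟨r + t, by rw [map_add, hr, ht, C_add]⟩
  | smul s x _ hx =>
    obtain ⟨r, hr⟩ := hx
    exact ⟨s * r, by rw [Derivation.map_smul, hr, smul_eq_C_mul, C_mul]⟩

/-- second and third derivatives of everything that was computed -/
theorem rep {s : ℕ} {T : Submodule F (MvPolynomial (Fin d) F)}
    (h : Obt F (inputs F (Fin d)) s T) (c : Fin d → F) :
    ∃ x y : Fin s → ((Fin d → F) →ₗ[F] F), ∀ p ∈ T,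
      (∃ q : Fin s → F, ∀ a b, eval c (dd a (dd b p)) =
        ∑ l, q l * (x l a * y l b + x l b * y l a)) ∧
      ∃ u : Fin s → ((Fin d → F) →ₗ[F] F), ∀ a b e, eval c (dd a (dd b (dd e p))) =
        ∑ l, (u l a * (x l b * y l e + x l e * y l b) + u l b * (x l a * y l e + x l e * y l a) +
          u l e * (x l a * y l b + x l b * y l a)) := by
  induction h with
  | start =>
    refine ⟨fun l => l.elim0, fun l => l.elim0, fun p hp => ⟨⟨fun l => l.elim0, ?_⟩,
      fun l => l.elim0, ?_⟩⟩
    · intro a b
      obtain ⟨r, hr⟩ := inputs_dd2 hp b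
      rw [hr, dd_C, map_zero]
      simp
    · intro a b e
      obtain ⟨r, hr⟩ := inputs_dd2 hp e
      rw [hr, dd_C, map_zero, map_zero]
      simp
  | @mul s T f g hT hf hg ih =>
    obtain ⟨x, y, H⟩ := ih
    refine ⟨Fin.snoc x (D1 c f), Fin.snoc y (D1 c g), fun p hp => ?_⟩
    obtain ⟨p', hp', z, hz, rfl⟩ := Submodule.mem_sup.1 hp
    obtain ⟨r, rfl⟩ := Submodule.mem_span_singleton.1 hz
    obtain ⟨⟨q0, h0⟩, u0, k0⟩ := H p' hp'
    obtain ⟨⟨q1, h1⟩, u1, k1⟩ := H f hf
    obtain ⟨⟨q2, h2⟩, u2, k2⟩ := H g hg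
    have e2 : ∀ a b, eval c (dd a (dd b (f * g))) = eval c f * eval c (dd a (dd b g)) +
        eval c g * eval c (dd a (dd b f)) + (D1 c f a * D1 c g b + D1 c f b * D1 c g a) := by
      intro a b
      simp only [dd_mul, map_add, map_mul, D1_apply]
      ring
    have e3 : ∀ a b e, eval c (dd a (dd b (dd e (f * g)))) =
        eval c f * eval c (dd a (dd b (dd e g))) + eval c g * eval c (dd a (dd b (dd e f))) +
        (D1 c f a * eval c (dd b (dd e g)) + D1 c f b * eval c (dd a (dd e g)) +
          D1 c f e * eval c (dd a (dd b g))) +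
        (D1 c g a * eval c (dd b (dd e f)) + D1 c g b * eval c (dd a (dd e f)) +
          D1 c g e * eval c (dd a (dd b f))) := by
      intro a b e
      simp only [dd_mul, map_add, map_mul, D1_apply]
      ring
    refine ⟨⟨Fin.snoc (fun l => q0 l + r * (eval c f * q2 l + eval c g * q1 l)) r, ?_⟩,
      Fin.snoc (fun l => u0 l + r • (eval c f • u2 l + eval c g • u1 l + q2 l • D1 c f +
        q1 l • D1 c g)) 0, ?_⟩
    · intro a b
      rw [Fin.sum_univ_castSucc]
      simp only [Fin.snoc_castSucc, Fin.snoc_last]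
      rw [map_add, map_add, map_add, h0, Derivation.map_smul, Derivation.map_smul, smul_eval, e2,
        h1, h2]
      have hs : ∑ l, (q0 l + r * (eval c f * q2 l + eval c g * q1 l)) *
          (x l a * y l b + x l b * y l a) = ∑ l, q0 l * (x l a * y l b + x l b * y l a) +
          r * (eval c f * ∑ l, q2 l * (x l a * y l b + x l b * y l a) +
            eval c g * ∑ l, q1 l * (x l a * y l b + x l b * y l a)) := by
        simp only [Finset.mul_sum, ← Finset.sum_add_distrib]
        refine sum_congr rfl fun l _ => ?_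
        ring
      rw [hs]
      ring
    · intro a b e
      rw [Fin.sum_univ_castSucc]
      simp only [Fin.snoc_castSucc, Fin.snoc_last]
      rw [map_add, map_add, map_add, map_add, k0, Derivation.map_smul, Derivation.map_smul,
        Derivation.map_smul, smul_eval, e3, k1, k2, h1, h1, h1, h2, h2, h2]
      simp only [LinearMap.add_apply, LinearMap.smul_apply, smul_eq_mul, LinearMap.zero_apply]
      have hs : ∑ l, ((u0 l a + r * (eval c f * u2 l a + eval c g * u1 l a + q2 l * D1 c f a +
            q1 l * D1 c g a)) * (x l b * y l e + x l e * y l b) +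
          (u0 l b + r * (eval c f * u2 l b + eval c g * u1 l b + q2 l * D1 c f b +
            q1 l * D1 c g b)) * (x l a * y l e + x l e * y l a) +
          (u0 l e + r * (eval c f * u2 l e + eval c g * u1 l e + q2 l * D1 c f e +
            q1 l * D1 c g e)) * (x l a * y l b + x l b * y l a)) =
          ∑ l, (u0 l a * (x l b * y l e + x l e * y l b) +
            u0 l b * (x l a * y l e + x l e * y l a) + u0 l e * (x l a * y l b + x l b * y l a)) +
          r * (eval c f * ∑ l, (u2 l a * (x l b * y l e + x l e * y l b) +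
            u2 l b * (x l a * y l e + x l e * y l a) + u2 l e * (x l a * y l b + x l b * y l a)) +
          eval c g * ∑ l, (u1 l a * (x l b * y l e + x l e * y l b) +
            u1 l b * (x l a * y l e + x l e * y l a) + u1 l e * (x l a * y l b + x l b * y l a)) +
          (D1 c f a * ∑ l, q2 l * (x l b * y l e + x l e * y l b) +
            D1 c f b * ∑ l, q2 l * (x l a * y l e + x l e * y l a) +
            D1 c f e * ∑ l, q2 l * (x l a * y l b + x l b * y l a)) +
          (D1 c g a * ∑ l, q1 l * (x l b * y l e + x l e * y l b) +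
            D1 c g b * ∑ l, q1 l * (x l a * y l e + x l e * y l a) +
            D1 c g e * ∑ l, q1 l * (x l a * y l b + x l b * y l a))) := by
        simp only [Finset.mul_sum, ← Finset.sum_add_distrib]
        refine sum_congr rfl fun l _ => ?_
        ring
      rw [hs]
      ring

/-- bilinear maps -/
theorem cst2 {s m k : ℕ} {T : Submodule F (MvPolynomial (Fin d) F)}
    (h : Obt F (inputs F (Fin d)) s T) (c : Fin d → F) (p : Fin m → Fin m → MvPolynomial (Fin d) F)
    (hp : ∀ i j, p i j ∈ T) (β γ : Matrix (Fin k) (Fin k) F →ₗ[F] (Fin d → F))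
    (κ : Fin k → Fin k → Fin m → Fin m → F)
    (H : ∀ X Y i j, ∑ u, ∑ v, κ i j u v * eval c (dd (β X) (dd (γ Y) (p u v))) = (X * Y) i j) :
    RankLE F k k k (2 * s) := by
  obtain ⟨x, y, hxy⟩ := rep h c
  choose q hq using fun u v => (hxy (p u v) (hp u v)).1
  have hcard : Fintype.card (Fin s × Bool) = 2 * s := by
    simp [mul_comm]
  rw [← hcard]
  refine rankLE_of_fintype
    (fun t => Matrix.of fun i j => (if t.2 then x t.1 else y t.1) (β (Matrix.single i j 1)))
    (fun t => Matrix.of fun i j => (if t.2 then y t.1 else x t.1) (γ (Matrix.single i j 1)))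
    (fun t => Matrix.of fun i j => ∑ u, ∑ v, κ i j u v * q u v t.1) ?_
  intro i i' j j' l l'
  have h1 := H (Matrix.single i j 1) (Matrix.single j' l 1) i' l'
  have h2 : (Matrix.single i j (1 : F) * Matrix.single j' l (1 : F)) i' l' =
      if i = i' ∧ j = j' ∧ l = l' then 1 else 0 := by
    by_cases hj : j = j'
    · subst hj
      rw [Matrix.single_mul_single_same, Matrix.single_apply, mul_one]
      simp
    · rw [Matrix.single_mul_single_of_ne _ _ _ _ hj, if_neg (fun h => hj h.2.1), Matrix.zero_apply]
  rw [← h2, ← h1, Fintype.sum_prod_type]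
  have e : ∀ t, (∑ z : Bool, (Matrix.of fun i j =>
        (if z then x t else y t) (β (Matrix.single i j 1))) i j *
      (Matrix.of fun i j => (if z then y t else x t) (γ (Matrix.single i j 1))) j' l *
      (Matrix.of fun i j => ∑ u, ∑ v, κ i j u v * q u v t) i' l') =
      ∑ u, ∑ v, κ i' l' u v * (q u v t * (x t (β (Matrix.single i j 1)) *
        y t (γ (Matrix.single j' l 1)) + x t (γ (Matrix.single j' l 1)) *
        y t (β (Matrix.single i j 1)))) := by
    intro t
    simp only [Fintype.sum_bool, Matrix.of_apply, if_true, Bool.false_eq_true, if_false,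
      Finset.mul_sum, ← Finset.sum_add_distrib]
    refine sum_congr rfl fun u _ => sum_congr rfl fun v _ => ?_
    ring
  simp only [hq]
  refine (sum_congr rfl fun t _ => e t).trans ?_
  rw [Finset.sum_comm]
  refine sum_congr rfl fun u _ => ?_
  rw [Finset.sum_comm]
  refine sum_congr rfl fun v _ => ?_
  rw [Finset.mul_sum]

/-- trilinear forms -/
theorem cst3 {s k : ℕ} {T : Submodule F (MvPolynomial (Fin d) F)}
    (h : Obt F (inputs F (Fin d)) s T) (c : Fin d → F) (p : MvPolynomial (Fin d) F)
    (hp : p ∈ T) (α β γ : Matrix (Fin k) (Fin k) F →ₗ[F] (Fin d → F)) (μ : F) (hμ : μ ≠ 0)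
    (H : ∀ X Y Z, eval c (dd (α X) (dd (β Y) (dd (γ Z) p))) = μ * Matrix.trace (X * Y * Z)) :
    RankLE F k k k (6 * s) := by
  obtain ⟨x, y, hxy⟩ := rep h c
  obtain ⟨u, hu⟩ := (hxy p hp).2
  have hcard : Fintype.card (Fin s × Fin 6) = 6 * s := by
    simp [mul_comm]
  rw [← hcard]
  refine rankLE_of_fintype
    (fun t => Matrix.of fun i j =>
      (![u t.1, u t.1, x t.1, y t.1, x t.1, y t.1] t.2) (α (Matrix.single i j 1)))
    (fun t => Matrix.of fun i j =>
      (![x t.1, y t.1, u t.1, u t.1, y t.1, x t.1] t.2) (β (Matrix.single i j 1)))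
    (fun t => Matrix.of fun i j =>
      μ⁻¹ * (![y t.1, x t.1, y t.1, x t.1, u t.1, u t.1] t.2) (γ (Matrix.single j i 1))) ?_
  intro i i' j j' l l'
  have h1 := H (Matrix.single i j 1) (Matrix.single j' l 1) (Matrix.single l' i' 1)
  have h2 : Matrix.trace (Matrix.single i j (1 : F) * Matrix.single j' l (1 : F) *
      Matrix.single l' i' (1 : F)) = if i = i' ∧ j = j' ∧ l = l' then 1 else 0 := by
    by_cases hj : j = j'
    · subst hj
      rw [Matrix.single_mul_single_same]
      by_cases hl : l = l'
      · subst hl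
        rw [Matrix.single_mul_single_same]
        by_cases hi : i = i'
        · subst hi
          simp
        · rw [Matrix.trace_single_eq_of_ne _ _ _ hi, if_neg (fun h => hi h.1)]
      · rw [Matrix.single_mul_single_of_ne _ _ _ _ hl, if_neg (fun h => hl h.2.2), Matrix.trace_zero]
    · rw [Matrix.single_mul_single_of_ne _ _ _ _ hj, if_neg (fun h => hj h.2.1), Matrix.zero_mul,
        Matrix.trace_zero]
  rw [← h2]
  have h3 : Matrix.trace (Matrix.single i j (1 : F) * Matrix.single j' l (1 : F) *
      Matrix.single l' i' (1 : F)) = μ⁻¹ * (μ * Matrix.trace (Matrix.single i j (1 : F) *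
      Matrix.single j' l (1 : F) * Matrix.single l' i' (1 : F))) := by
    rw [← mul_assoc, inv_mul_cancel₀ hμ, one_mul]
  rw [h3, ← h1, hu, Fintype.sum_prod_type, Finset.mul_sum]
  refine sum_congr rfl fun t _ => ?_
  rw [Fin.sum_univ_six]
  simp only [Matrix.of_apply, Matrix.cons_val]
  ring

end Pool.Agent.Helper16K9.TH
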