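import Pool.Agent.Helper16K9.TH.Df2
import Pool.Agent.W956.KF.Run

set_option autoImplicit false
set_option linter.unusedSectionVars false
set_option linter.unusedVariables false
set_option linter.unusedSimpArgs false

/-!
# Rank bounds from computations with divisions
-/

namespace Pool.Agent.Helper16K9.TH

open MvPolynomial Matrix Pool.Agent.W956.KF Finset Pool.Agent.H53R3

section
variable {F : Type} [Field F] {d : ℕ}

/-- derivations from maps which satisfy the two rules -/
noncomputable def mkDer {K : Type} [Field K] [Algebra F K] (D : K → K) (h : IsDer D)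
    (hc : ∀ c : F, D (algebraMap F K c) = 0) : Derivation F K K :=
  Derivation.mk' { toFun := D
                   map_add' := h.1
                   map_smul' := fun c x => by
                    rw [Algebra.smul_def, h.2, hc, zero_mul, zero_add, RingHom.id_apply,
                      Algebra.smul_def] }
    (fun a b => by
      change D (a * b) = a • D b + b • D a
      rw [h.2, smul_eq_mul, smul_eq_mul]
      ring)

theorem exists_partial (F : Type) [Field F] (d : ℕ) :
    ∃ δ : Fin d → Derivation F (RF F d) (RF F d), IsPartial δ := by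
  choose D h1 h2 h3 using Adds.exists_der_rf F (Fin d)
  refine ⟨fun i => mkDer (D i) (h1 i) (h2 i), fun i j => ?_⟩
  exact h3 i j

variable (δ : Fin d → Derivation F (RF F d) (RF F d))

/-- the gradient as a linear form -/
noncomputable def L1 (p : RF F d) : (Fin d → RF F d) →ₗ[RF F d] RF F d where
  toFun a := DD1 δ p a
  map_add' a b := by
    simp only [DD1, Pi.add_apply, add_mul, Finset.sum_add_distrib]
  map_smul' r a := by
    simp only [DD1, Pi.smul_apply, smul_eq_mul, Finset.mul_sum, RingHom.id_apply, mul_assoc]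

theorem L1_apply (p : RF F d) (a : Fin d → RF F d) : L1 δ p a = DD1 δ p a := rfl

theorem L1L1 (p q : RF F d) (a b : Fin d → RF F d) : L1 δ p a * L1 δ q b =
    ∑ i, ∑ j, (a i * δ i p) * (b j * δ j q) := by
  simp only [L1_apply, DD1]
  exact Finset.sum_mul_sum _ _ _ _

theorem DD2_mul (p q : RF F d) (a b : Fin d → RF F d) :
    DD2 δ (p * q) a b = p * DD2 δ q a b + q * DD2 δ p a b +
      (L1 δ p a * L1 δ q b + L1 δ p b * L1 δ q a) := by
  rw [mul_comm (L1 δ p b) (L1 δ q a), L1L1, L1L1]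
  simp only [DD2, Finset.mul_sum, ← Finset.sum_add_distrib]
  refine sum_congr rfl fun i _ => sum_congr rfl fun j _ => ?_
  rw [Derivation.leibniz, smul_eq_mul, smul_eq_mul, map_add, Derivation.leibniz,
    Derivation.leibniz]
  simp only [smul_eq_mul]
  ring

theorem prod_1 (p q : RF F d) (a b e : Fin d → RF F d) : L1 δ p a * DD2 δ q b e =
    ∑ i, ∑ j, ∑ k, (a i * δ i p) * (b j * (e k * δ j (δ k q))) := by
  simp only [L1_apply, DD1, DD2]
  rw [Finset.sum_mul_sum]
  refine sum_congr rfl fun i _ => sum_congr rfl fun j _ => ?_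
  rw [Finset.mul_sum]

theorem prod_2 (p q : RF F d) (a b e : Fin d → RF F d) : L1 δ p b * DD2 δ q a e =
    ∑ i, ∑ j, ∑ k, (b j * δ j p) * (a i * (e k * δ i (δ k q))) := by
  simp only [L1_apply, DD1, DD2]
  rw [Finset.mul_sum]
  refine sum_congr rfl fun i _ => ?_
  rw [Finset.sum_mul_sum]

theorem prod_3 (p q : RF F d) (a b e : Fin d → RF F d) : L1 δ p e * DD2 δ q a b =
    ∑ i, ∑ j, ∑ k, (e k * δ k p) * (a i * (b j * δ i (δ j q))) := by
  simp only [L1_apply, DD1, DD2]
  rw [Finset.mul_sum]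
  refine sum_congr rfl fun i _ => ?_
  rw [Finset.mul_sum]
  refine sum_congr rfl fun j _ => ?_
  rw [Finset.sum_mul]

theorem DD3_mul (p q : RF F d) (a b e : Fin d → RF F d) :
    DD3 δ (p * q) a b e = p * DD3 δ q a b e + q * DD3 δ p a b e +
      (L1 δ p a * DD2 δ q b e + L1 δ p b * DD2 δ q a e + L1 δ p e * DD2 δ q a b) +
      (L1 δ q a * DD2 δ p b e + L1 δ q b * DD2 δ p a e + L1 δ q e * DD2 δ p a b) := by
  rw [prod_1, prod_2, prod_3, prod_1, prod_2, prod_3]
  simp only [DD3, Finset.mul_sum, ← Finset.sum_add_distrib]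
  refine sum_congr rfl fun i _ => sum_congr rfl fun j _ => sum_congr rfl fun k _ => ?_
  simp only [Derivation.leibniz, smul_eq_mul, map_add]
  ring

theorem DD1_add (p q : RF F d) (a : Fin d → RF F d) : DD1 δ (p + q) a = DD1 δ p a + DD1 δ q a := by
  simp only [DD1, map_add, mul_add, Finset.sum_add_distrib]

theorem DD2_add (p q : RF F d) (a b : Fin d → RF F d) :
    DD2 δ (p + q) a b = DD2 δ p a b + DD2 δ q a b := by
  simp only [DD2, map_add, mul_add, Finset.sum_add_distrib]

theorem DD3_add (p q : RF F d) (a b e : Fin d → RF F d) :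
    DD3 δ (p + q) a b e = DD3 δ p a b e + DD3 δ q a b e := by
  simp only [DD3, map_add, mul_add, Finset.sum_add_distrib]

theorem DD2_smul (r : F) (p : RF F d) (a b : Fin d → RF F d) :
    DD2 δ (r • p) a b = algebraMap F (RF F d) r * DD2 δ p a b := by
  simp only [DD2, Derivation.map_smul, Finset.mul_sum]
  refine sum_congr rfl fun i _ => sum_congr rfl fun j _ => ?_
  rw [Algebra.smul_def]
  ring

theorem DD3_smul (r : F) (p : RF F d) (a b e : Fin d → RF F d) :
    DD3 δ (r • p) a b e = algebraMap F (RF F d) r * DD3 δ p a b e := by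
  simp only [DD3, Derivation.map_smul, Finset.mul_sum]
  refine sum_congr rfl fun i _ => sum_congr rfl fun j _ => sum_congr rfl fun k _ => ?_
  rw [Algebra.smul_def]
  ring

/-- representation of the second and third derivatives -/
def HasRep {s : ℕ} (x y : Fin s → ((Fin d → RF F d) →ₗ[RF F d] RF F d)) (p : RF F d) : Prop :=
  (∃ q : Fin s → RF F d, ∀ a b, DD2 δ p a b = ∑ l, q l * (x l a * y l b + x l b * y l a)) ∧
  ∃ u : Fin s → ((Fin d → RF F d) →ₗ[RF F d] RF F d), ∀ a b e, DD3 δ p a b e =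
    ∑ l, (u l a * (x l b * y l e + x l e * y l b) + u l b * (x l a * y l e + x l e * y l a) +
      u l e * (x l a * y l b + x l b * y l a))

variable {δ}

theorem HasRep.add {s : ℕ} {x y : Fin s → ((Fin d → RF F d) →ₗ[RF F d] RF F d)} {p p' : RF F d}
    (h : HasRep δ x y p) (h' : HasRep δ x y p') : HasRep δ x y (p + p') := by
  obtain ⟨⟨q, hq⟩, u, hu⟩ := h
  obtain ⟨⟨q', hq'⟩, u', hu'⟩ := h'
  refine ⟨⟨fun l => q l + q' l, fun a b => ?_⟩, fun l => u l + u' l, fun a b e => ?_⟩
  · rw [DD2_add, hq, hq', ← Finset.sum_add_distrib]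
    refine sum_congr rfl fun l _ => ?_
    ring
  · rw [DD3_add, hu, hu', ← Finset.sum_add_distrib]
    refine sum_congr rfl fun l _ => ?_
    simp only [LinearMap.add_apply]
    ring

theorem HasRep.smul {s : ℕ} {x y : Fin s → ((Fin d → RF F d) →ₗ[RF F d] RF F d)} {p : RF F d}
    (h : HasRep δ x y p) (r : F) : HasRep δ x y (r • p) := by
  obtain ⟨⟨q, hq⟩, u, hu⟩ := h
  refine ⟨⟨fun l => algebraMap F (RF F d) r * q l, fun a b => ?_⟩,
    fun l => algebraMap F (RF F d) r • u l, fun a b e => ?_⟩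
  · rw [DD2_smul, hq, Finset.mul_sum]
    refine sum_congr rfl fun l _ => ?_
    ring
  · rw [DD3_smul, hu, Finset.mul_sum]
    refine sum_congr rfl fun l _ => ?_
    simp only [LinearMap.smul_apply, smul_eq_mul]
    ring

theorem HasRep.snoc {s : ℕ} {x y : Fin s → ((Fin d → RF F d) →ₗ[RF F d] RF F d)} {p : RF F d}
    (h : HasRep δ x y p) (x' y' : (Fin d → RF F d) →ₗ[RF F d] RF F d) :
    HasRep δ (Fin.snoc x x' : Fin (s + 1) → ((Fin d → RF F d) →ₗ[RF F d] RF F d))
      (Fin.snoc y y' : Fin (s + 1) → ((Fin d → RF F d) →ₗ[RF F d] RF F d)) p := by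
  obtain ⟨⟨q, hq⟩, u, hu⟩ := h
  refine ⟨⟨Fin.snoc q 0, fun a b => ?_⟩, Fin.snoc u 0, fun a b e => ?_⟩
  · rw [Fin.sum_univ_castSucc]
    simp only [Fin.snoc_castSucc, Fin.snoc_last, zero_mul, add_zero]
    exact hq a b
  · rw [Fin.sum_univ_castSucc]
    simp only [Fin.snoc_castSucc, Fin.snoc_last, LinearMap.zero_apply, zero_mul, add_zero]
    exact hu a b e

/-- a new product -/
theorem HasRep.prod {s : ℕ} {x y : Fin s → ((Fin d → RF F d) →ₗ[RF F d] RF F d)} {f g : RF F d}
    (hf : HasRep δ x y f) (hg : HasRep δ x y g) :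
    HasRep δ (Fin.snoc x (L1 δ f) : Fin (s + 1) → ((Fin d → RF F d) →ₗ[RF F d] RF F d))
      (Fin.snoc y (L1 δ g) : Fin (s + 1) → ((Fin d → RF F d) →ₗ[RF F d] RF F d)) (f * g) := by
  obtain ⟨⟨q1, h1⟩, u1, k1⟩ := hf
  obtain ⟨⟨q2, h2⟩, u2, k2⟩ := hg
  refine ⟨⟨Fin.snoc (fun l => f * q2 l + g * q1 l) 1, fun a b => ?_⟩,
    Fin.snoc (fun l => f • u2 l + g • u1 l + q2 l • L1 δ f + q1 l • L1 δ g) 0, fun a b e => ?_⟩
  · rw [Fin.sum_univ_castSucc]
    simp only [Fin.snoc_castSucc, Fin.snoc_last]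
    rw [DD2_mul, h1, h2]
    have hs : ∑ l, (f * q2 l + g * q1 l) * (x l a * y l b + x l b * y l a) =
        f * ∑ l, q2 l * (x l a * y l b + x l b * y l a) +
          g * ∑ l, q1 l * (x l a * y l b + x l b * y l a) := by
      simp only [Finset.mul_sum, ← Finset.sum_add_distrib]
      refine sum_congr rfl fun l _ => ?_
      ring
    rw [hs]
    ring
  · rw [Fin.sum_univ_castSucc]
    simp only [Fin.snoc_castSucc, Fin.snoc_last]
    rw [DD3_mul, k1, k2, h1, h1, h1, h2, h2, h2]
    simp only [LinearMap.add_apply, LinearMap.smul_apply, smul_eq_mul, LinearMap.zero_apply]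
    have hs : ∑ l, ((f * u2 l a + g * u1 l a + q2 l * L1 δ f a + q1 l * L1 δ g a) *
          (x l b * y l e + x l e * y l b) +
        (f * u2 l b + g * u1 l b + q2 l * L1 δ f b + q1 l * L1 δ g b) *
          (x l a * y l e + x l e * y l a) +
        (f * u2 l e + g * u1 l e + q2 l * L1 δ f e + q1 l * L1 δ g e) *
          (x l a * y l b + x l b * y l a)) =
        f * ∑ l, (u2 l a * (x l b * y l e + x l e * y l b) +
          u2 l b * (x l a * y l e + x l e * y l a) + u2 l e * (x l a * y l b + x l b * y l a)) +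
        g * ∑ l, (u1 l a * (x l b * y l e + x l e * y l b) +
          u1 l b * (x l a * y l e + x l e * y l a) + u1 l e * (x l a * y l b + x l b * y l a)) +
        (L1 δ f a * ∑ l, q2 l * (x l b * y l e + x l e * y l b) +
          L1 δ f b * ∑ l, q2 l * (x l a * y l e + x l e * y l a) +
          L1 δ f e * ∑ l, q2 l * (x l a * y l b + x l b * y l a)) +
        (L1 δ g a * ∑ l, q1 l * (x l b * y l e + x l e * y l b) +
          L1 δ g b * ∑ l, q1 l * (x l a * y l e + x l e * y l a) +
          L1 δ g e * ∑ l, q1 l * (x l a * y l b + x l b * y l a)) := by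
      simp only [Finset.mul_sum, ← Finset.sum_add_distrib]
      refine sum_congr rfl fun l _ => ?_
      ring
    rw [hs]
    ring

/-- a new quotient `w = f / g` -/
theorem HasRep.quot {s : ℕ} {x y : Fin s → ((Fin d → RF F d) →ₗ[RF F d] RF F d)} {w g : RF F d}
    (hg0 : g ≠ 0) (hf : HasRep δ x y (w * g)) (hg : HasRep δ x y g) :
    HasRep δ (Fin.snoc x (L1 δ w) : Fin (s + 1) → ((Fin d → RF F d) →ₗ[RF F d] RF F d))
      (Fin.snoc y (L1 δ g) : Fin (s + 1) → ((Fin d → RF F d) →ₗ[RF F d] RF F d)) w := by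
  obtain ⟨⟨q1, h1⟩, u1, k1⟩ := hf
  obtain ⟨⟨q2, h2⟩, u2, k2⟩ := hg
  have e2 : ∀ a b, DD2 δ w a b = ∑ l, (g⁻¹ * (q1 l - w * q2 l)) *
      (x l a * y l b + x l b * y l a) +
      -g⁻¹ * (L1 δ w a * L1 δ g b + L1 δ w b * L1 δ g a) := by
    intro a b
    have h3 := DD2_mul δ w g a b
    rw [h1, h2] at h3
    have hs : ∑ l, (g⁻¹ * (q1 l - w * q2 l)) * (x l a * y l b + x l b * y l a) =
        g⁻¹ * (∑ l, q1 l * (x l a * y l b + x l b * y l a) -
          w * ∑ l, q2 l * (x l a * y l b + x l b * y l a)) := by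
      simp only [Finset.mul_sum, ← Finset.sum_sub_distrib]
      refine sum_congr rfl fun l _ => ?_
      ring
    rw [hs, h3]
    field_simp
    ring
  refine ⟨⟨Fin.snoc (fun l => g⁻¹ * (q1 l - w * q2 l)) (-g⁻¹), fun a b => ?_⟩,
    Fin.snoc (fun l => g⁻¹ • (u1 l - w • u2 l - q2 l • L1 δ w -
      (g⁻¹ * (q1 l - w * q2 l)) • L1 δ g)) ((g⁻¹ * g⁻¹) • L1 δ g), fun a b e => ?_⟩
  · rw [Fin.sum_univ_castSucc]
    simp only [Fin.snoc_castSucc, Fin.snoc_last]
    rw [e2]
  · rw [Fin.sum_univ_castSucc]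
    simp only [Fin.snoc_castSucc, Fin.snoc_last]
    have h3 := DD3_mul δ w g a b e
    rw [k1, k2, h2, h2, h2, e2, e2, e2] at h3
    simp only [LinearMap.sub_apply, LinearMap.smul_apply, smul_eq_mul]
    have hs : ∑ l, (g⁻¹ * (u1 l a - w * u2 l a - q2 l * L1 δ w a -
          g⁻¹ * (q1 l - w * q2 l) * L1 δ g a) * (x l b * y l e + x l e * y l b) +
        g⁻¹ * (u1 l b - w * u2 l b - q2 l * L1 δ w b -
          g⁻¹ * (q1 l - w * q2 l) * L1 δ g b) * (x l a * y l e + x l e * y l a) +
        g⁻¹ * (u1 l e - w * u2 l e - q2 l * L1 δ w e -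
          g⁻¹ * (q1 l - w * q2 l) * L1 δ g e) * (x l a * y l b + x l b * y l a)) =
        g⁻¹ * (∑ l, (u1 l a * (x l b * y l e + x l e * y l b) +
          u1 l b * (x l a * y l e + x l e * y l a) + u1 l e * (x l a * y l b + x l b * y l a)) -
        w * ∑ l, (u2 l a * (x l b * y l e + x l e * y l b) +
          u2 l b * (x l a * y l e + x l e * y l a) + u2 l e * (x l a * y l b + x l b * y l a)) -
        (L1 δ w a * ∑ l, q2 l * (x l b * y l e + x l e * y l b) +
          L1 δ w b * ∑ l, q2 l * (x l a * y l e + x l e * y l a) +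
          L1 δ w e * ∑ l, q2 l * (x l a * y l b + x l b * y l a)) -
        (L1 δ g a * ∑ l, (g⁻¹ * (q1 l - w * q2 l)) * (x l b * y l e + x l e * y l b) +
          L1 δ g b * ∑ l, (g⁻¹ * (q1 l - w * q2 l)) * (x l a * y l e + x l e * y l a) +
          L1 δ g e * ∑ l, (g⁻¹ * (q1 l - w * q2 l)) * (x l a * y l b + x l b * y l a))) := by
      simp only [Finset.mul_sum, ← Finset.sum_sub_distrib, ← Finset.sum_add_distrib]
      refine sum_congr rfl fun l _ => ?_
      ring
    rw [hs, h3]
    generalize ∑ l, (g⁻¹ * (q1 l - w * q2 l)) * (x l b * y l e + x l e * y l b) = A1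
    generalize ∑ l, (g⁻¹ * (q1 l - w * q2 l)) * (x l a * y l e + x l e * y l a) = A2
    generalize ∑ l, (g⁻¹ * (q1 l - w * q2 l)) * (x l a * y l b + x l b * y l a) = A3
    have hg : g⁻¹ * g = 1 := inv_mul_cancel₀ hg0
    linear_combination (-1 * DD3 δ w a b e) * hg

theorem repD {s : ℕ} {T : Submodule F (RF F d)} (hδ : IsPartial δ)
    (h : ObtD F (inputsD F d) s T) :
    ∃ x y : Fin s → ((Fin d → RF F d) →ₗ[RF F d] RF F d), ∀ p ∈ T, HasRep δ x y p := by
  induction h with
  | start =>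
    refine ⟨fun l => l.elim0, fun l => l.elim0, fun p hp => ?_⟩
    have h1 : ∃ c : Fin d → F, ∀ i, δ i p = algebraMap F (RF F d) (c i) := by
      unfold inputsD at hp
      induction hp using Submodule.span_induction with
      | mem x hx =>
        rcases hx with rfl | ⟨j, rfl⟩
        · refine ⟨0, fun i => ?_⟩
          rw [Derivation.map_one_eq_zero, Pi.zero_apply, map_zero]
        · refine ⟨fun i => if j = i then 1 else 0, fun i => ?_⟩
          rw [hδ]
          by_cases h : j = i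
          · simp [h]
          · simp [h]
      | zero => exact ⟨0, fun i => by rw [map_zero, Pi.zero_apply, map_zero]⟩
      | add x y _ _ hx hy =>
        obtain ⟨r, hr⟩ := hx
        obtain ⟨t, ht⟩ := hy
        exact ⟨r + t, fun i => by rw [map_add, hr, ht, Pi.add_apply, map_add]⟩
      | smul s x _ hx =>
        obtain ⟨r, hr⟩ := hx
        exact ⟨s • r, fun i => by
          rw [Derivation.map_smul, hr, Pi.smul_apply, smul_eq_mul, map_mul, Algebra.smul_def]⟩
    obtain ⟨c, hc⟩ := h1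
    refine ⟨⟨fun l => l.elim0, fun a b => ?_⟩, fun l => l.elim0, fun a b e => ?_⟩
    · simp [DD2, hc]
    · simp [DD3, hc]
  | @mul s T f g hT hf hg ih =>
    obtain ⟨x, y, H⟩ := ih
    refine ⟨Fin.snoc x (L1 δ f), Fin.snoc y (L1 δ g), fun p hp => ?_⟩
    obtain ⟨p', hp', z, hz, rfl⟩ := Submodule.mem_sup.1 hp
    obtain ⟨r, rfl⟩ := Submodule.mem_span_singleton.1 hz
    exact ((H p' hp').snoc _ _).add (((H f hf).prod (H g hg)).smul r)
  | @div s T f g hT hf hg hg0 ih =>
    obtain ⟨x, y, H⟩ := ih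
    refine ⟨Fin.snoc x (L1 δ (f / g)), Fin.snoc y (L1 δ g), fun p hp => ?_⟩
    obtain ⟨p', hp', z, hz, rfl⟩ := Submodule.mem_sup.1 hp
    obtain ⟨r, rfl⟩ := Submodule.mem_span_singleton.1 hz
    refine ((H p' hp').snoc _ _).add (HasRep.smul (HasRep.quot hg0 ?_ (H g hg)) r)
    rw [div_mul_cancel₀ _ hg0]
    exact H f hf

theorem ObtD.le {K : Type} [Field K] [Algebra F K] {S T : Submodule F K} {s : ℕ}
    (h : ObtD F S s T) : S ≤ T := by
  induction h with
  | start => exact le_rfl
  | mul _ _ _ ih => exact ih.trans le_sup_left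
  | div _ _ _ _ ih => exact ih.trans le_sup_left

/-- bilinear maps -/
theorem cstD2 {s m k : ℕ} {T : Submodule F (RF F d)} (hδ : IsPartial δ)
    (h : ObtD F (inputsD F d) s T) (p : Fin m → Fin m → RF F d)
    (hp : ∀ i j, p i j ∈ T) (β γ : Matrix (Fin k) (Fin k) (RF F d) →ₗ[RF F d] (Fin d → RF F d))
    (κ : Fin k → Fin k → Fin m → Fin m → RF F d)
    (H : ∀ X Y i j, ∑ u, ∑ v, κ i j u v * DD2 δ (p u v) (β X) (γ Y) = (X * Y) i j) :
    RankLE (RF F d) k k k (2 * s) := by
  obtain ⟨x, y, hxy⟩ := repD hδ h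
  choose q hq using fun u v => (hxy (p u v) (hp u v)).1
  have hcard : Fintype.card (Fin s × Bool) = 2 * s := by
    simp [mul_comm]
  rw [← hcard]
  refine rankLE_of_fintype
    (fun t => Matrix.of fun i j => (if t.2 then x t.1 else y t.1) (β (Matrix.single i j 1)))
    (fun t => Matrix.of fun i j => (if t.2 then y t.1 else x t.1) (γ (Matrix.single i j 1)))
    (fun t => Matrix.of fun i j => ∑ u, ∑ v, κ i j u v * q u v t.1) ?_
  intro i i' j j' l l'
  have h1 := H (Matrix.single i j 1) (Matrix.single j' l 1) i' l'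
  have h2 : (Matrix.single i j (1 : RF F d) * Matrix.single j' l (1 : RF F d)) i' l' =
      if i = i' ∧ j = j' ∧ l = l' then 1 else 0 := by
    by_cases hj : j = j'
    · subst hj
      rw [Matrix.single_mul_single_same, Matrix.single_apply, mul_one]
      simp
    · rw [Matrix.single_mul_single_of_ne _ _ _ _ hj, if_neg (fun h => hj h.2.1), Matrix.zero_apply]
  rw [← h2, ← h1, Fintype.sum_prod_type]
  have e : ∀ t, (∑ z : Bool, (Matrix.of fun i j =>
        (if z then x t else y t) (β (Matrix.single i j 1))) i j *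
      (Matrix.of fun i j => (if z then y t else x t) (γ (Matrix.single i j 1))) j' l *
      (Matrix.of fun i j => ∑ u, ∑ v, κ i j u v * q u v t) i' l') =
      ∑ u, ∑ v, κ i' l' u v * (q u v t * (x t (β (Matrix.single i j 1)) *
        y t (γ (Matrix.single j' l 1)) + x t (γ (Matrix.single j' l 1)) *
        y t (β (Matrix.single i j 1)))) := by
    intro t
    simp only [Fintype.sum_bool, Matrix.of_apply, if_true, Bool.false_eq_true, if_false,
      Finset.mul_sum, ← Finset.sum_add_distrib]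
    refine sum_congr rfl fun u _ => sum_congr rfl fun v _ => ?_
    ring
  simp only [hq]
  refine (sum_congr rfl fun t _ => e t).trans ?_
  rw [Finset.sum_comm]
  refine sum_congr rfl fun u _ => ?_
  rw [Finset.sum_comm]
  refine sum_congr rfl fun v _ => ?_
  rw [Finset.mul_sum]

/-- trilinear forms -/
theorem cstD3 {s k : ℕ} {T : Submodule F (RF F d)} (hδ : IsPartial δ)
    (h : ObtD F (inputsD F d) s T) (p : RF F d)
    (hp : p ∈ T) (α β γ : Matrix (Fin k) (Fin k) (RF F d) →ₗ[RF F d] (Fin d → RF F d))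
    (μ : RF F d) (hμ : μ ≠ 0)
    (H : ∀ X Y Z, DD3 δ p (α X) (β Y) (γ Z) = μ * Matrix.trace (X * Y * Z)) :
    RankLE (RF F d) k k k (6 * s) := by
  obtain ⟨x, y, hxy⟩ := repD hδ h
  obtain ⟨u, hu⟩ := (hxy p hp).2
  have hcard : Fintype.card (Fin s × Fin 6) = 6 * s := by
    simp [mul_comm]
  rw [← hcard]
  refine rankLE_of_fintype
    (fun t => Matrix.of fun i j =>
      (![u t.1, u t.1, x t.1, y t.1, x t.1, y t.1] t.2) (α (Matrix.single i j 1)))
    (fun t => Matrix.of fun i j =>
      (![x t.1, y t.1, u t.1, u t.1, y t.1, x t.1] t.2) (β (Matrix.single i j 1)))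
    (fun t => Matrix.of fun i j =>
      μ⁻¹ * (![y t.1, x t.1, y t.1, x t.1, u t.1, u t.1] t.2) (γ (Matrix.single j i 1))) ?_
  intro i i' j j' l l'
  have h1 := H (Matrix.single i j 1) (Matrix.single j' l 1) (Matrix.single l' i' 1)
  have h2 : Matrix.trace (Matrix.single i j (1 : RF F d) * Matrix.single j' l (1 : RF F d) *
      Matrix.single l' i' (1 : RF F d)) = if i = i' ∧ j = j' ∧ l = l' then 1 else 0 := by
    by_cases hj : j = j'
    · subst hj
      rw [Matrix.single_mul_single_same]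
      by_cases hl : l = l'
      · subst hl
        rw [Matrix.single_mul_single_same]
        by_cases hi : i = i'
        · subst hi
          simp
        · rw [Matrix.trace_single_eq_of_ne _ _ _ hi, if_neg (fun h => hi h.1)]
      · rw [Matrix.single_mul_single_of_ne _ _ _ _ hl, if_neg (fun h => hl h.2.2), Matrix.trace_zero]
    · rw [Matrix.single_mul_single_of_ne _ _ _ _ hj, if_neg (fun h => hj h.2.1), Matrix.zero_mul,
        Matrix.trace_zero]
  rw [← h2]
  have h3 : Matrix.trace (Matrix.single i j (1 : RF F d) * Matrix.single j' l (1 : RF F d) *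
      Matrix.single l' i' (1 : RF F d)) = μ⁻¹ * (μ * Matrix.trace (Matrix.single i j (1 : RF F d) *
      Matrix.single j' l (1 : RF F d) * Matrix.single l' i' (1 : RF F d))) := by
    rw [← mul_assoc, inv_mul_cancel₀ hμ, one_mul]
  rw [h3, ← h1, hu, Fintype.sum_prod_type, Finset.mul_sum]
  refine sum_congr rfl fun t _ => ?_
  rw [Fin.sum_univ_six]
  simp only [Matrix.of_apply, Matrix.cons_val]
  ring

end

end Pool.Agent.Helper16K9.TH
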