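import Pool.Agent.W956.KF.Defs

set_option autoImplicit false
set_option linter.unusedSectionVars false
set_option linter.unusedVariables false

/-!
# Structured matrices: definitions, and statements of the leaves
-/

namespace Pool.Agent.Helper16K9.TH

open MvPolynomial Matrix Pool.Agent.W956.KF Pool.Agent.H522R2

/-- From the elements of the linear space `S` one obtains those of `T` by `s` multiplications;
linear combinations over `F` are free. -/
inductive Obt (F : Type) {R : Type} [Field F] [CommRing R] [Algebra F R] (S : Submodule F R) :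
    ℕ → Submodule F R → Prop
  | start : Obt F S 0 S
  | mul {s : ℕ} {T : Submodule F R} {x y : R} : Obt F S s T → x ∈ T → y ∈ T →
      Obt F S (s + 1) (T ⊔ Submodule.span F {x * y})

section
variable {F : Type} [Field F]

/-- The space of polynomials of degree at most 1: the span of 1 and the variables. -/
noncomputable def inputs (F : Type) [Field F] (V : Type) : Submodule F (MvPolynomial V F) :=
  Submodule.span F (insert 1 (Set.range X))

/-- The least number of multiplications of a computation of all polynomials in the set `P`; linear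
combinations of the variables, of 1 and of intermediate results are free. -/
noncomputable def cost {V : Type} (P : Set (MvPolynomial V F)) : ℕ :=
  sInf {s | ∃ T, Obt F (inputs F V) s T ∧ P ⊆ T}

/-- The generic element `A + ∑ x_i B_i` of the affine space through `A` with the basis `B`; its
entries are polynomials of degree at most 1 in the variables `x_i`. -/
noncomputable def gen {m d : ℕ} (A : Matrix (Fin m) (Fin m) F)
    (B : Fin d → Matrix (Fin m) (Fin m) F) : Matrix (Fin m) (Fin m) (MvPolynomial (Fin d) F) :=
  fun i j => C (A i j) + ∑ l, C (B l i j) * X l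

/-- the linear combination `∑ a_i B_i` -/
def comb {m d : ℕ} (B : Fin d → Matrix (Fin m) (Fin m) F) (a : Fin d → F) :
    Matrix (Fin m) (Fin m) F := ∑ l, a l • B l

/-- the entries of the square of the generic element -/
noncomputable def squareOn {m d : ℕ} (A : Matrix (Fin m) (Fin m) F)
    (B : Fin d → Matrix (Fin m) (Fin m) F) : Set (MvPolynomial (Fin d) F) :=
  {p | ∃ i j, p = (gen A B * gen A B) i j}

/-- the trace of the cube of the generic element -/
noncomputable def cubeOn {m d : ℕ} (A : Matrix (Fin m) (Fin m) F)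
    (B : Fin d → Matrix (Fin m) (Fin m) F) : MvPolynomial (Fin d) F :=
  trace (gen A B * gen A B * gen A B)

/-- the determinant of the generic element -/
noncomputable def detOn {m d : ℕ} (A : Matrix (Fin m) (Fin m) F)
    (B : Fin d → Matrix (Fin m) (Fin m) F) : MvPolynomial (Fin d) F := (gen A B).det

/-- the derivative in direction `a` -/
noncomputable def dd {d : ℕ} (a : Fin d → F) :
    Derivation F (MvPolynomial (Fin d) F) (MvPolynomial (Fin d) F) :=
  MvPolynomial.mkDerivation F fun i => C (a i)

end

/-! ### linear algebra for the trace form -/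

section
variable {F : Type} [Field F] {V : Type} [AddCommGroup V] [Module F V]

/-- `W` contains `N (N - 1)` elements which behave like the elementary matrices outside the
diagonal, as far as the traces of products of at most three of them are concerned. -/
def OffUnits (N : ℕ) (W : Submodule F (Module.End F V)) : Prop :=
  ∃ E : Fin N → Fin N → Module.End F V,
    (∀ i j, i ≠ j → E i j ∈ W ∧ LinearMap.trace F V (E i j) = 0) ∧
    (∀ i j k l, i ≠ j → k ≠ l →
      LinearMap.trace F V (E i j * E k l) = if j = k ∧ l = i then 1 else 0) ∧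
    (∀ i j k l p q, i ≠ j → k ≠ l → p ≠ q →
      LinearMap.trace F V (E i j * E k l * E p q) = if j = k ∧ l = p ∧ q = i then 1 else 0)

/-- the vectors `v` in the kernel of `φ` for which the rank one map `x ↦ φ x • v` is in `W` -/
def VV (W : Submodule F (Module.End F V)) (φ : Module.Dual F V) : Submodule F V where
  carrier := {v | φ v = 0 ∧ LinearMap.smulRight φ v ∈ W}
  zero_mem' := by
    refine ⟨map_zero _, ?_⟩
    rw [LinearMap.smulRight_zero]
    exact W.zero_mem
  add_mem' := by
    rintro a b ⟨ha, ha'⟩ ⟨hb, hb'⟩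
    refine ⟨by rw [map_add, ha, hb, add_zero], ?_⟩
    have : LinearMap.smulRight φ (a + b) = LinearMap.smulRight φ a + LinearMap.smulRight φ b := by
      ext x
      simp
    rw [this]
    exact W.add_mem ha' hb'
  smul_mem' := by
    rintro c a ⟨ha, ha'⟩
    refine ⟨by rw [map_smul, ha, smul_zero], ?_⟩
    have : LinearMap.smulRight φ (c • a) = c • LinearMap.smulRight φ a := by
      ext x
      simp [smul_comm c]
    rw [this]
    exact W.smul_mem c ha'

/-! ### linear algebra for the square -/

/-- the span of `e 0, …, e (j - 1)` -/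
def Fl (F : Type) [Field F] [Module F V] (e : ℕ → V) (j : ℕ) : Submodule F V :=
  Submodule.span F (e '' {i | i < j})

/-- the elements of `W` which kill `e 0, …, e (j - 1)` -/
def Wj (W : Submodule F (Module.End F V)) (e : ℕ → V) (j : ℕ) :
    Submodule F (Module.End F V) where
  carrier := {A | A ∈ W ∧ ∀ i < j, A (e i) = 0}
  zero_mem' := ⟨W.zero_mem, fun i _ => rfl⟩
  add_mem' := by
    rintro a b ⟨ha, ha'⟩ ⟨hb, hb'⟩
    exact ⟨W.add_mem ha hb, fun i hi => by simp [ha' i hi, hb' i hi]⟩
  smul_mem' := by
    rintro c a ⟨ha, ha'⟩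
    exact ⟨W.smul_mem c ha, fun i hi => by simp [ha' i hi]⟩

/-- the values at `e j` of the elements of `Wj W e j` -/
def Cj (W : Submodule F (Module.End F V)) (e : ℕ → V) (j : ℕ) : Submodule F V :=
  (Wj W e j).map (LinearMap.applyₗ (e j))

end

/-! ### statements of the leaves -/

/-- all spaces `VV W φ` are large -/
def S_STK : Prop :=
  ∀ (F : Type) [Field F] [Infinite F] (V : Type) [AddCommGroup V] [Module F V]
    [FiniteDimensional F V] (W : Submodule F (Module.End F V)) (N : ℕ),
    (∀ φ : Module.Dual F V, N ≤ Module.finrank F (VV W φ)) → OffUnits N W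

def S_T3 : Prop :=
  ∀ (F : Type) [Field F] [Infinite F] (V : Type) [AddCommGroup V] [Module F V]
    [FiniteDimensional F V] (W : Submodule F (Module.End F V)) (N : ℕ),
    Module.finrank F V * (Module.finrank F V + 1) + 2 * N * Module.finrank F V <
      2 * Module.finrank F W → OffUnits (N + 1) W

def S_GRD : Prop :=
  ∀ (F : Type) [Field F] [Infinite F] (V : Type) [AddCommGroup V] [Module F V]
    [FiniteDimensional F V] (W : Submodule F (Module.End F V)) (L : ℕ),
    ∃ e : ℕ → V,
      (∀ j < Module.finrank F V, e j ∉ Fl F e j) ∧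
      (∀ j, j + 1 < Module.finrank F V →
        Module.finrank F (Cj W e (j + 1)) ≤ Module.finrank F (Cj W e j)) ∧
      (∑ j ∈ Finset.range (Module.finrank F V), Module.finrank F (Cj W e j) =
        Module.finrank F W) ∧
      (∀ k j, k < L → L ≤ j → j < Module.finrank F V → Cj W e k ⊔ Fl F e j ≠ ⊤ →
        e j ∉ Cj W e k ⊔ Fl F e j)

def S_T2 : Prop :=
  ∀ (F : Type) [Field F] [Infinite F] (V : Type) [AddCommGroup V] [Module F V]
    [FiniteDimensional F V] (W : Submodule F (Module.End F V)) (L : ℕ),
    Module.finrank F V ^ 2 + 16 * L * Module.finrank F V < 4 * Module.finrank F W →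
    ∃ (β γ : Matrix (Fin L) (Fin L) F →ₗ[F] Module.End F V) (e : Fin L → V)
      (P : V →ₗ[F] (Fin L → F)), (∀ X, β X ∈ W ∧ γ X ∈ W) ∧
      ∀ X Y i k, P (β X (γ Y (e k))) i = (X * Y) i k ∧ γ Y (β X (e k)) = 0

def S_SQ : Prop :=
  ∀ (F : Type) [Field F] (m d : ℕ) (A : Matrix (Fin m) (Fin m) F)
    (B : Fin d → Matrix (Fin m) (Fin m) F) (c a b : Fin d → F) (i j : Fin m),
    eval c (dd a (dd b ((gen A B * gen A B) i j))) =
      (comb B a * comb B b + comb B b * comb B a) i j

def S_CUBE : Prop :=
  ∀ (F : Type) [Field F] (m d : ℕ) (A : Matrix (Fin m) (Fin m) F)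
    (B : Fin d → Matrix (Fin m) (Fin m) F) (c a b e : Fin d → F),
    eval c (dd a (dd b (dd e (cubeOn A B)))) =
      3 * (trace (comb B a * comb B b * comb B e) + trace (comb B a * comb B e * comb B b))

/-- third derivatives of the determinant at an invertible matrix -/
def S_DET : Prop :=
  ∀ (F : Type) [Field F] (m d : ℕ) (A : Matrix (Fin m) (Fin m) F)
    (B : Fin d → Matrix (Fin m) (Fin m) F) (c a b e : Fin d → F) (M : Matrix (Fin m) (Fin m) F),
    M * (A + comb B c) = 1 →
    eval c (dd a (dd b (dd e (detOn A B)))) = (A + comb B c).det *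
      (trace (M * comb B a) * trace (M * comb B b) * trace (M * comb B e)
        - trace (M * comb B a) * trace (M * comb B b * (M * comb B e))
        - trace (M * comb B b) * trace (M * comb B a * (M * comb B e))
        - trace (M * comb B e) * trace (M * comb B a * (M * comb B b))
        + trace (M * comb B a * (M * comb B b) * (M * comb B e))
        + trace (M * comb B a * (M * comb B e) * (M * comb B b)))

/-- every circuit uses at least `cost` nonscalar multiplications -/
def S_CIR : Prop :=
  ∀ (F : Type) [Field F] (V : Type) (C : Circuit F V) (P : Set (MvPolynomial V F)),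
    P ⊆ Set.range C.poly → cost P ≤ C.nonscalarCount

def S_UPS : Prop :=
  ∀ (F : Type) [Field F] (m d : ℕ) (A : Matrix (Fin m) (Fin m) F)
    (B : Fin d → Matrix (Fin m) (Fin m) F), cost (squareOn A B) ≤ trank F m m m ∧
      cost {cubeOn A B} ≤ trank F m m m + m ^ 2

/-- triangular matrices -/
def S_TRI : Prop :=
  ∀ (F : Type) [Field F] (m : ℕ), ∃ B : Fin (m * (m + 1) / 2) → Matrix (Fin m) (Fin m) F,
    LinearIndependent F B ∧ cost {cubeOn 0 B} ≤ 2 * m ∧ cost {detOn 0 B} ≤ m ∧
      ∃ x, (comb B x).det ≠ 0

/-- matrices with one block -/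
def S_BLK : Prop :=
  ∀ (F : Type) [Field F] (m : ℕ), ∃ B : Fin (m ^ 2 / 4) → Matrix (Fin m) (Fin m) F,
    LinearIndependent F B ∧ gen 0 B * gen 0 B = 0

def S_GRW : Prop :=
  ∀ (F : Type) [Field F] (f : ℕ → ℕ) (δ : ℝ) (K m₀ : ℕ), 0 < δ →
    (∀ m k : ℕ, m₀ ≤ m → (k : ℝ) < δ * m → trank F k k k ≤ K * f m) →
    (∀ m, f m ≤ trank F m m m + m ^ 2) →
    growth f = omega F ∧ (Superlinear (sizeMM F) ↔ ∃ α : ℝ, 1 < α ∧ ∃ c : ℝ, 0 < c ∧ ∃ m₁ : ℕ,
      ∀ m : ℕ, m₁ ≤ m → c * (((m : ℝ) ^ 2) ^ α) ≤ f m)

end Pool.Agent.Helper16K9.TH
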