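import Pool.Agent.Helper16K9.TH.Pair
import Pool.Agent.Helper16K9.Adds.Main

set_option autoImplicit false
set_option linter.unusedSectionVars false
set_option linter.unusedVariables false

/-!
# Computations with divisions: definitions, and statements of the leaves
-/

namespace Pool.Agent.Helper16K9.TH

open MvPolynomial Matrix Pool.Agent.W956.KF Pool.Agent.H826R3.SM

/-- The field of rational functions in `d` variables. -/
abbrev RF (F : Type) [Field F] (d : ℕ) : Type := FractionRing (MvPolynomial (Fin d) F)

/-- From the elements of the linear space `S` one obtains those of `T` by `s` multiplications and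
divisions; linear combinations over `F` are free. -/
inductive ObtD (F : Type) {K : Type} [Field F] [Field K] [Algebra F K] (S : Submodule F K) :
    ℕ → Submodule F K → Prop
  | start : ObtD F S 0 S
  | mul {s : ℕ} {T : Submodule F K} {x y : K} : ObtD F S s T → x ∈ T → y ∈ T →
      ObtD F S (s + 1) (T ⊔ Submodule.span F {x * y})
  | div {s : ℕ} {T : Submodule F K} {x y : K} : ObtD F S s T → x ∈ T → y ∈ T → y ≠ 0 →
      ObtD F S (s + 1) (T ⊔ Submodule.span F {x / y})

section
variable {F : Type} [Field F] {m d : ℕ}

/-- the variables, as rational functions -/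
noncomputable def xv (F : Type) [Field F] (d : ℕ) (i : Fin d) : RF F d :=
  algebraMap (MvPolynomial (Fin d) F) (RF F d) (X i)

/-- The span of 1 and the variables. -/
noncomputable def inputsD (F : Type) [Field F] (d : ℕ) : Submodule F (RF F d) :=
  Submodule.span F (insert 1 (Set.range (xv F d)))

/-- The least number of multiplications and divisions of a computation of all elements of `P`;
linear combinations of the variables, of 1 and of intermediate results are free. -/
noncomputable def costD (P : Set (RF F d)) : ℕ :=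
  sInf {s | ∃ T, ObtD F (inputsD F d) s T ∧ P ⊆ T}

/-- The generic element `A + ∑ x_i B_i`. -/
noncomputable def genD (A : Matrix (Fin m) (Fin m) F) (B : Fin d → Matrix (Fin m) (Fin m) F) :
    Matrix (Fin m) (Fin m) (RF F d) := (gen A B).map (algebraMap _ _)

/-- the entries of the square of the generic element -/
noncomputable def squareD (A : Matrix (Fin m) (Fin m) F)
    (B : Fin d → Matrix (Fin m) (Fin m) F) : Set (RF F d) :=
  {p | ∃ i j, p = (genD A B * genD A B) i j}

/-- The matrix `r X Y + t Y X`, where `X` and `Y` are independent generic elements of the affine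
spaces through `A` and `A'` with the same basis `B`; there are two groups of `d` variables. -/
noncomputable def pairMatD (r t : F) (A A' : Matrix (Fin m) (Fin m) F)
    (B : Fin d → Matrix (Fin m) (Fin m) F) : Matrix (Fin m) (Fin m) (RF F (d + d)) :=
  r • (genD A (Fin.append B 0) * genD A' (Fin.append 0 B)) +
    t • (genD A' (Fin.append 0 B) * genD A (Fin.append B 0))

/-- the entries of `r X Y + t Y X` -/
noncomputable def pairD (r t : F) (A A' : Matrix (Fin m) (Fin m) F)
    (B : Fin d → Matrix (Fin m) (Fin m) F) : Set (RF F (d + d)) :=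
  {p | ∃ i j, p = pairMatD r t A A' B i j}

/-- the entries of the inverse of the generic element -/
noncomputable def invD (A : Matrix (Fin m) (Fin m) F)
    (B : Fin d → Matrix (Fin m) (Fin m) F) : Set (RF F d) :=
  {p | ∃ i j, p = (genD A B)⁻¹ i j}

/-- the trace of the cube of the generic element -/
noncomputable def cubeD (A : Matrix (Fin m) (Fin m) F)
    (B : Fin d → Matrix (Fin m) (Fin m) F) : RF F d :=
  trace (genD A B * genD A B * genD A B)

/-- the determinant of the generic element -/
noncomputable def detD (A : Matrix (Fin m) (Fin m) F)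
    (B : Fin d → Matrix (Fin m) (Fin m) F) : RF F d := (genD A B).det

/-! ### derivatives -/

/-- partial derivatives of rational functions -/
def IsPartial (δ : Fin d → Derivation F (RF F d) (RF F d)) : Prop :=
  ∀ i j, δ i (xv F d j) = if j = i then 1 else 0

/-- first, second, third derivatives in directions with coordinates in the field `K` -/
noncomputable def DD1 (δ : Fin d → Derivation F (RF F d) (RF F d)) (p : RF F d)
    (a : Fin d → RF F d) : RF F d := ∑ i, a i * δ i p

noncomputable def DD2 (δ : Fin d → Derivation F (RF F d) (RF F d)) (p : RF F d)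
    (a b : Fin d → RF F d) : RF F d := ∑ i, ∑ j, a i * (b j * δ i (δ j p))

noncomputable def DD3 (δ : Fin d → Derivation F (RF F d) (RF F d)) (p : RF F d)
    (a b e : Fin d → RF F d) : RF F d :=
  ∑ i, ∑ j, ∑ k, a i * (b j * (e k * δ i (δ j (δ k p))))

/-- matrices over `F` as matrices over the field of rational functions -/
noncomputable def up (d : ℕ) (A : Matrix (Fin m) (Fin m) F) : Matrix (Fin m) (Fin m) (RF F d) :=
  A.map (algebraMap F (RF F d))

end

/-- The recursion for the cost of the inverse: halves. -/
noncomputable def Iv (F : Type) [Field F] (m : ℕ) : ℕ :=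
  if h : m ≤ 1 then m
  else Iv F (m / 2) + Iv F (m - m / 2) +
    (6 * trank F (m - m / 2) (m - m / 2) (m - m / 2) + 1)
termination_by m
decreasing_by all_goals omega

/-! ### statements of the leaves -/

/-- second and third derivatives of polynomials -/
def S_BRI : Prop :=
  ∀ (F : Type) [Field F] (d : ℕ) (δ : Fin d → Derivation F (RF F d) (RF F d)), IsPartial δ →
    ∀ (f : MvPolynomial (Fin d) F) (a b e : Fin d → RF F d),
    DD2 δ (algebraMap _ (RF F d) f) a b =
      eval (xv F d) (dd a (dd b (MvPolynomial.map (algebraMap F (RF F d)) f))) ∧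
    DD3 δ (algebraMap _ (RF F d) f) a b e =
      eval (xv F d) (dd a (dd b (dd e (MvPolynomial.map (algebraMap F (RF F d)) f))))

/-- independent matrices stay independent -/
def S_LIF : Prop :=
  ∀ (F : Type) [Field F] (m d n : ℕ) (B : Fin d → Matrix (Fin m) (Fin m) F),
    LinearIndependent F B → LinearIndependent (RF F n) fun l => up n (B l)

/-- second derivatives of the inverse -/
def S_INV : Prop :=
  ∀ (F : Type) [Field F] (m d : ℕ) (A : Matrix (Fin m) (Fin m) F)
    (B : Fin d → Matrix (Fin m) (Fin m) F) (δ : Fin d → Derivation F (RF F d) (RF F d)),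
    IsPartial δ → ∀ (N : Matrix (Fin m) (Fin m) (RF F d)), N * genD A B = 1 →
    genD A B * N = 1 → ∀ (a b : Fin d → RF F d) (i j : Fin m),
    DD2 δ (N i j) a b =
      ((N * comb (fun l => up d (B l)) a * (N * comb (fun l => up d (B l)) b) +
        N * comb (fun l => up d (B l)) b * (N * comb (fun l => up d (B l)) a)) * N) i j

/-- multiplications, divisions against multiplications -/
def S_CMP : Prop :=
  ∀ (F : Type) [Field F] (d : ℕ) (P : Set (MvPolynomial (Fin d) F)), P.Finite →
    costD ((algebraMap (MvPolynomial (Fin d) F) (RF F d)) '' P) ≤ cost P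

/-- after a permutation of the rows all leading minors are nonzero -/
def S_PER : Prop :=
  ∀ (K : Type) [Field K] (m : ℕ) (X : Matrix (Fin m) (Fin m) K), X.det ≠ 0 →
    ∃ σ : Equiv.Perm (Fin m), ∀ (k : ℕ) (hk : k ≤ m),
      ((X.submatrix σ id).submatrix (Fin.castLE hk) (Fin.castLE hk)).det ≠ 0

/-- products of rectangular matrices -/
def S_RCP : Prop :=
  ∀ (F K : Type) [Field F] [Field K] [Algebra F K] (S T : Submodule F K) (s n a b c : ℕ),
    ObtD F S s T → a ≤ n → b ≤ n → c ≤ n → ∀ (X : Matrix (Fin a) (Fin b) K)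
    (Y : Matrix (Fin b) (Fin c) K), (∀ i j, X i j ∈ T) → (∀ i j, Y i j ∈ T) →
    ∃ T', ObtD F S (s + trank F n n n) T' ∧ T ≤ T' ∧ ∀ i j, (X * Y) i j ∈ T'

/-- inverse and determinant by recursion -/
def S_REC : Prop :=
  ∀ (F K : Type) [Field F] [Field K] [Algebra F K] (m : ℕ) (S T : Submodule F K) (s : ℕ),
    ObtD F S s T → (1 : K) ∈ T → ∀ (X : Matrix (Fin m) (Fin m) K), (∀ i j, X i j ∈ T) →
    (∀ (k : ℕ) (hk : k ≤ m), (X.submatrix (Fin.castLE hk) (Fin.castLE hk)).det ≠ 0) →
    ∃ T', ObtD F S (s + Iv F m) T' ∧ T ≤ T' ∧ (∀ i j, X⁻¹ i j ∈ T') ∧ X.det ∈ T'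

def S_NUM : Prop :=
  ∀ (F : Type) [Field F] (τ : ℝ), omegaMM F < τ →
    ∃ C : ℝ, 0 ≤ C ∧ ∀ m : ℕ, (Iv F m : ℝ) ≤ C * (m : ℝ) ^ τ

/-- a space on which the inverse is easy -/
def S_EXI : Prop :=
  ∀ (F : Type) [Field F] (m : ℕ), 1 ≤ m →
    ∃ B : Fin (m ^ 2 / 4 + 1) → Matrix (Fin m) (Fin m) F, LinearIndependent F B ∧
      costD (invD 0 B) ≤ m ^ 2 / 4 + 2 ∧ ∃ x, (comb B x).det ≠ 0

end Pool.Agent.Helper16K9.TH
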