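import Pool.Agent.Helper16K9.TH.Df

set_option autoImplicit false
set_option linter.unusedSectionVars false
set_option linter.unusedVariables false

/-!
# [UPS] upper bounds for the costs, and the examples (triangular matrices, one block)
-/

namespace Pool.Agent.Helper16K9.TH

open MvPolynomial Matrix Pool.Agent.W956.KF Pool.Agent.H522R2

namespace UpsL

/-! ### computations -/

section
variable {F R : Type} [Field F] [CommRing R] [Algebra F R] {S : Submodule F R}

theorem family {s : ℕ} {T : Submodule F R} (h : Obt F S s T) (r : ℕ) (x y : ℕ → R)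
    (hx : ∀ i < r, x i ∈ T) (hy : ∀ i < r, y i ∈ T) :
    ∃ T', Obt F S (s + r) T' ∧ T ≤ T' ∧ ∀ i < r, x i * y i ∈ T' := by
  induction r with
  | zero => exact ⟨T, h, le_rfl, fun i hi => absurd hi (by omega)⟩
  | succ r ih =>
    obtain ⟨T', h1, h2, h3⟩ := ih (fun i hi => hx i (by omega)) (fun i hi => hy i (by omega))
    refine ⟨T' ⊔ Submodule.span F {x r * y r}, ?_, h2.trans le_sup_left, ?_⟩
    · exact Obt.mul h1 (h2 (hx r (by omega))) (h2 (hy r (by omega)))
    · intro i hi
      rcases Nat.lt_succ_iff_lt_or_eq.1 hi with h4 | rfl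
      · exact le_sup_left (a := T') (h3 i h4)
      · exact le_sup_right (a := T') (Submodule.subset_span rfl)

theorem family' {s : ℕ} {T : Submodule F R} (h : Obt F S s T) {ι : Type} [Fintype ι]
    (x y : ι → R) (hx : ∀ i, x i ∈ T) (hy : ∀ i, y i ∈ T) :
    ∃ T', Obt F S (s + Fintype.card ι) T' ∧ T ≤ T' ∧ ∀ i, x i * y i ∈ T' := by
  classical
  obtain ⟨T', h1, h2, h3⟩ := family h (Fintype.card ι)
    (fun n => if hn : n < Fintype.card ι then x ((Fintype.equivFin ι).symm ⟨n, hn⟩) else 0)
    (fun n => if hn : n < Fintype.card ι then y ((Fintype.equivFin ι).symm ⟨n, hn⟩) else 0)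
    (fun i hi => by rw [dif_pos hi]; exact hx _) (fun i hi => by rw [dif_pos hi]; exact hy _)
  refine ⟨T', h1, h2, fun i => ?_⟩
  have h4 := h3 (Fintype.equivFin ι i) (Fintype.equivFin ι i).2
  rw [dif_pos (Fintype.equivFin ι i).2, dif_pos (Fintype.equivFin ι i).2] at h4
  simpa using h4

theorem prod_mem {s : ℕ} {T : Submodule F R} (h : Obt F S s T) (h1 : (1 : R) ∈ T) (r : ℕ)
    (x : ℕ → R) (hx : ∀ i < r, x i ∈ T) :
    ∃ T', Obt F S (s + r) T' ∧ T ≤ T' ∧ ∏ i ∈ Finset.range r, x i ∈ T' := by
  induction r with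
  | zero => exact ⟨T, h, le_rfl, by rw [Finset.range_zero, Finset.prod_empty]; exact h1⟩
  | succ r ih =>
    obtain ⟨T', h2, h3, h4⟩ := ih (fun i hi => hx i (by omega))
    refine ⟨T' ⊔ Submodule.span F {(∏ i ∈ Finset.range r, x i) * x r}, ?_,
      h3.trans le_sup_left, ?_⟩
    · exact Obt.mul h2 h4 (h3 (hx r (by omega)))
    · rw [Finset.prod_range_succ]
      exact le_sup_right (a := T') (Submodule.subset_span rfl)

end

theorem cost_le {F V : Type} [Field F] {P : Set (MvPolynomial V F)} {s : ℕ}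
    {T : Submodule F (MvPolynomial V F)} (h : Obt F (inputs F V) s T) (hP : P ⊆ T) :
    cost P ≤ s := Nat.sInf_le ⟨T, h, hP⟩

/-! ### the generic element -/

section
variable {F : Type} [Field F]

theorem one_mem_inputs (V : Type) : (1 : MvPolynomial V F) ∈ inputs F V :=
  Submodule.subset_span (Set.mem_insert _ _)

theorem gen_mem {m d : ℕ} (A : Matrix (Fin m) (Fin m) F)
    (B : Fin d → Matrix (Fin m) (Fin m) F) (i j : Fin m) :
    gen A B i j ∈ inputs F (Fin d) := by
  unfold gen
  refine Submodule.add_mem _ ?_ (Submodule.sum_mem _ fun l _ => ?_)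
  · have h1 : (C (A i j) : MvPolynomial (Fin d) F) = A i j • (1 : MvPolynomial (Fin d) F) := by
      rw [MvPolynomial.smul_eq_C_mul, mul_one]
    rw [h1]
    exact Submodule.smul_mem _ _ (one_mem_inputs _)
  · rw [← MvPolynomial.smul_eq_C_mul]
    exact Submodule.smul_mem _ _ (Submodule.subset_span (Set.mem_insert_of_mem _ ⟨l, rfl⟩))

theorem lin_mem {m d : ℕ} (A : Matrix (Fin m) (Fin m) F)
    (B : Fin d → Matrix (Fin m) (Fin m) F) (U : Matrix (Fin m) (Fin m) F) :
    ∑ i, ∑ j, U i j • gen A B i j ∈ inputs F (Fin d) :=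
  Submodule.sum_mem _ fun i _ => Submodule.sum_mem _ fun j _ =>
    Submodule.smul_mem _ _ (gen_mem A B i j)

theorem rankLE_cube (K : Type) [Field K] (m : ℕ) : RankLE K m m m (Fintype.card
    (Fin m × Fin m × Fin m)) := by
  let e : Fin (Fintype.card (Fin m × Fin m × Fin m)) ≃ Fin m × Fin m × Fin m :=
    (Fintype.equivFin _).symm
  refine ⟨fun l => Matrix.of fun i j => if (e l).1 = i ∧ (e l).2.1 = j then 1 else 0,
    fun l => Matrix.of fun j k => if (e l).2.1 = j ∧ (e l).2.2 = k then 1 else 0,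
    fun l => Matrix.of fun i k => if (e l).1 = i ∧ (e l).2.2 = k then 1 else 0, ?_⟩
  intro i i' j j' k k'
  rw [Equiv.sum_comp e (fun t : Fin m × Fin m × Fin m =>
    (Matrix.of fun i j => if t.1 = i ∧ t.2.1 = j then (1 : K) else 0 :
      Matrix (Fin m) (Fin m) K) i j *
    (Matrix.of fun j k => if t.2.1 = j ∧ t.2.2 = k then (1 : K) else 0 :
      Matrix (Fin m) (Fin m) K) j' k *
    (Matrix.of fun i k => if t.1 = i ∧ t.2.2 = k then (1 : K) else 0 :
      Matrix (Fin m) (Fin m) K) i' k'), Finset.sum_eq_single (i, j, k)]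
  · by_cases h1 : i = i' <;> by_cases h2 : j = j' <;> by_cases h3 : k = k' <;>
      simp [h1, h2, h3]
  · rintro ⟨x, y, z⟩ - hne
    by_contra hc
    apply hne
    simp only [Matrix.of_apply, mul_ite, mul_one, mul_zero, ite_eq_right_iff, one_ne_zero,
      imp_false, not_not, not_forall, exists_prop] at hc
    obtain ⟨h3, h2, h1⟩ := hc
    simp [h1.1, h1.2, h2.2]
  · simp

theorem rankLE_trank (K : Type) [Field K] (m : ℕ) : RankLE K m m m (trank K m m m) :=
  Nat.sInf_mem (s := {r | RankLE K m m m r}) ⟨_, rankLE_cube K m⟩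

theorem mul_entry {R : Type} [CommRing R] [Algebra F R] {m r : ℕ}
    (U V W : Fin r → Matrix (Fin m) (Fin m) F)
    (h : ∀ (i i' : Fin m) (j j' : Fin m) (k k' : Fin m),
      ∑ l, U l i j * V l j' k * W l i' k' = if i = i' ∧ j = j' ∧ k = k' then 1 else 0)
    (X Y : Matrix (Fin m) (Fin m) R) (a b : Fin m) :
    (X * Y) a b = ∑ l, W l a b • ((∑ i, ∑ j, U l i j • X i j) * (∑ j, ∑ k, V l j k • Y j k)) := by
  have h1 : ∀ l, W l a b • ((∑ i, ∑ j, U l i j • X i j) * (∑ j, ∑ k, V l j k • Y j k)) =
      ∑ i, ∑ j, ∑ j', ∑ k, (U l i j * V l j' k * W l a b) • (X i j * Y j' k) := by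
    intro l
    rw [Finset.sum_mul, Finset.smul_sum]
    refine Finset.sum_congr rfl fun i _ => ?_
    rw [Finset.sum_mul, Finset.smul_sum]
    refine Finset.sum_congr rfl fun j _ => ?_
    rw [Finset.mul_sum, Finset.smul_sum]
    refine Finset.sum_congr rfl fun j' _ => ?_
    rw [Finset.mul_sum, Finset.smul_sum]
    refine Finset.sum_congr rfl fun k _ => ?_
    rw [smul_mul_smul_comm, smul_smul, mul_comm (W l a b)]
  simp only [h1]
  rw [Finset.sum_comm]
  have h2 : ∀ i, ∑ l, ∑ j, ∑ j', ∑ k, (U l i j * V l j' k * W l a b) • (X i j * Y j' k) =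
      ∑ j, ∑ j', ∑ k, (if i = a ∧ j = j' ∧ k = b then (1 : F) else 0) • (X i j * Y j' k) := by
    intro i
    rw [Finset.sum_comm]
    refine Finset.sum_congr rfl fun j _ => ?_
    rw [Finset.sum_comm]
    refine Finset.sum_congr rfl fun j' _ => ?_
    rw [Finset.sum_comm]
    refine Finset.sum_congr rfl fun k _ => ?_
    rw [← Finset.sum_smul, h]
  simp only [h2]
  rw [Finset.sum_eq_single a]
  · rw [Matrix.mul_apply]
    refine Finset.sum_congr rfl fun j _ => ?_
    rw [Finset.sum_eq_single j, Finset.sum_eq_single b]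
    · simp
    · intro k _ hk
      rw [if_neg (fun h => hk h.2.2), zero_smul]
    · intro h
      exact absurd (Finset.mem_univ _) h
    · intro j' _ hj'
      refine Finset.sum_eq_zero fun k _ => ?_
      rw [if_neg (fun h => hj' h.2.1.symm), zero_smul]
    · intro h
      exact absurd (Finset.mem_univ _) h
  · intro i _ hi
    refine Finset.sum_eq_zero fun j _ => Finset.sum_eq_zero fun j' _ =>
      Finset.sum_eq_zero fun k _ => ?_
    rw [if_neg (fun h => hi h.1), zero_smul]
  · intro h
    exact absurd (Finset.mem_univ _) h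

theorem square_mem {m d : ℕ} (A : Matrix (Fin m) (Fin m) F)
    (B : Fin d → Matrix (Fin m) (Fin m) F) : ∃ T, Obt F (inputs F (Fin d)) (trank F m m m) T ∧
      inputs F (Fin d) ≤ T ∧ ∀ i j, (gen A B * gen A B) i j ∈ T := by
  obtain ⟨U, V, W, h⟩ := rankLE_trank F m
  obtain ⟨T, h1, h2, h3⟩ := family' (Obt.start (F := F) (S := inputs F (Fin d)))
    (fun l => ∑ i, ∑ j, U l i j • gen A B i j) (fun l => ∑ j, ∑ k, V l j k • gen A B j k)
    (fun l => lin_mem A B (U l)) (fun l => lin_mem A B (V l))
  rw [Fintype.card_fin, Nat.zero_add] at h1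
  refine ⟨T, h1, h2, fun i j => ?_⟩
  rw [mul_entry U V W h]
  exact Submodule.sum_mem _ fun l _ => Submodule.smul_mem _ _ (h3 l)

/-! ### matrices with given places -/

/-- the elementary matrices at the places `e l` -/
def el (F : Type) [Field F] {m d : ℕ} (e : Fin d → Fin m × Fin m) (l : Fin d) :
    Matrix (Fin m) (Fin m) F := Matrix.single (e l).1 (e l).2 1

theorem el_indep {m d : ℕ} (e : Fin d → Fin m × Fin m) (he : Function.Injective e) :
    LinearIndependent F (el F e) := by
  have h1 := (Matrix.stdBasis F (Fin m) (Fin m)).linearIndependent.comp e he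
  have h2 : (Matrix.stdBasis F (Fin m) (Fin m)) ∘ e = el F e := by
    funext l
    exact Matrix.stdBasis_eq_single (R := F) (e l).1 (e l).2
  rwa [h2] at h1

theorem gen_zero {m d : ℕ} (e : Fin d → Fin m × Fin m) (i j : Fin m)
    (h : ∀ l, e l ≠ (i, j)) : gen 0 (el F e) i j = 0 := by
  unfold gen
  rw [Matrix.zero_apply, map_zero, zero_add]
  refine Finset.sum_eq_zero fun l _ => ?_
  have h1 : el F e l i j = 0 := by
    unfold el
    rw [Matrix.single_apply, if_neg]
    rintro ⟨h2, h3⟩
    exact h l (Prod.ext h2 h3)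
  rw [h1, map_zero, zero_mul]

theorem upper_mul {R : Type} [CommRing R] {m : ℕ} (X Y : Matrix (Fin m) (Fin m) R)
    (hX : ∀ i j, j < i → X i j = 0) (hY : ∀ i j, j < i → Y i j = 0) :
    (∀ i j, j < i → (X * Y) i j = 0) ∧ ∀ i, (X * Y) i i = X i i * Y i i := by
  constructor
  · intro i j hij
    rw [Matrix.mul_apply]
    refine Finset.sum_eq_zero fun k _ => ?_
    rcases lt_or_ge k i with h | h
    · rw [hX i k h, zero_mul]
    · rw [hY k j (lt_of_lt_of_le hij h), mul_zero]
  · intro i
    rw [Matrix.mul_apply, Finset.sum_eq_single i]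
    · intro k _ hk
      rcases lt_or_gt_of_ne hk with h | h
      · rw [hX i k h, zero_mul]
      · rw [hY k i h, mul_zero]
    · intro h
      exact absurd (Finset.mem_univ _) h

theorem card_upper (m : ℕ) :
    Fintype.card {p : Fin m × Fin m // p.1 ≤ p.2} = m * (m + 1) / 2 := by
  have h1 : Fintype.card {p : Fin m × Fin m // p.1 ≤ p.2} =
      Fintype.card (Σ j : Fin m, Fin ((j : ℕ) + 1)) := by
    refine Fintype.card_congr
      { toFun := fun p => ⟨p.1.2, ⟨(p.1.1 : ℕ), Nat.lt_succ_of_le p.2⟩⟩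
        invFun := fun q => ⟨(⟨(q.2 : ℕ), by have := q.2.2; have := q.1.2; omega⟩, q.1), by
          have := q.2.2
          rw [Fin.le_def]
          simp only
          omega⟩
        left_inv := fun p => rfl
        right_inv := fun q => rfl }
  rw [h1, Fintype.card_sigma]
  simp only [Fintype.card_fin]
  rw [Fin.sum_univ_eq_sum_range (fun j => j + 1) m]
  have h2 := Finset.sum_range_id_mul_two (m + 1)
  rw [Finset.sum_range_succ'] at h2
  simp only [Nat.add_zero, Nat.add_sub_cancel] at h2
  have h3 : m * (m + 1) = (∑ j ∈ Finset.range m, (j + 1)) * 2 := by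
    rw [h2]
    ring
  rw [h3, Nat.mul_div_cancel _ (by norm_num)]

theorem card_block (m : ℕ) :
    Fintype.card (Fin (m / 2) × Fin (m - m / 2)) = m ^ 2 / 4 := by
  rw [Fintype.card_prod, Fintype.card_fin, Fintype.card_fin]
  rcases Nat.even_or_odd' m with ⟨k, rfl | rfl⟩
  · have h1 : 2 * k / 2 = k := by omega
    have h2 : (2 * k) ^ 2 = k * k * 4 := by ring
    rw [h1, h2, Nat.mul_div_cancel _ (by norm_num), show 2 * k - k = k by omega]
  · have h1 : (2 * k + 1) / 2 = k := by omega
    have h2 : (2 * k + 1) ^ 2 = 1 + k * (k + 1) * 4 := by ring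
    rw [h1, h2, Nat.add_mul_div_right _ _ (by norm_num), show 2 * k + 1 - k = k + 1 by omega]
    norm_num

end

end UpsL

open UpsL

theorem ups : S_UPS := by
  intro F _ m d A B
  obtain ⟨T, h1, h2, h3⟩ := square_mem A B
  constructor
  · refine cost_le h1 ?_
    rintro p ⟨i, j, rfl⟩
    exact h3 i j
  · obtain ⟨T', h4, h5, h6⟩ := family' h1 (fun p : Fin m × Fin m => (gen A B * gen A B) p.1 p.2)
      (fun p => gen A B p.2 p.1) (fun p => h3 _ _) (fun p => h2 (gen_mem A B _ _))
    rw [Fintype.card_prod, Fintype.card_fin, ← pow_two] at h4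
    refine cost_le h4 ?_
    rw [Set.singleton_subset_iff]
    unfold cubeOn
    have h7 : trace (gen A B * gen A B * gen A B) =
        ∑ i, ∑ j, (gen A B * gen A B) i j * gen A B j i := by
      rw [Matrix.trace]
      refine Finset.sum_congr rfl fun i _ => ?_
      rw [Matrix.diag_apply, Matrix.mul_apply]
    rw [h7]
    exact Submodule.sum_mem _ fun i _ => Submodule.sum_mem _ fun j _ => h6 (i, j)

theorem tri : S_TRI := by
  intro F _ m
  have hc := card_upper m
  let e0 : Fin (m * (m + 1) / 2) ≃ {p : Fin m × Fin m // p.1 ≤ p.2} :=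
    (Fintype.equivFinOfCardEq hc).symm
  set e : Fin (m * (m + 1) / 2) → Fin m × Fin m := fun l => (e0 l).1 with he
  have hinj : Function.Injective e := fun a b h => e0.injective (Subtype.ext h)
  set G := gen 0 (el F e) with hG
  have hup : ∀ i j, j < i → G i j = 0 := by
    intro i j hij
    refine gen_zero e i j fun l hl => ?_
    have h1 := (e0 l).2
    rw [show (e0 l).1 = (i, j) from hl] at h1
    exact absurd h1 (not_le.2 hij)
  refine ⟨el F e, el_indep e hinj, ?_, ?_, ?_⟩
  · obtain ⟨T, h1, h2, h3⟩ := family' (Obt.start (F := F) (S := inputs F _))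
      (fun i : Fin m => G i i) (fun i => G i i) (fun i => gen_mem _ _ _ _)
      (fun i => gen_mem _ _ _ _)
    obtain ⟨T', h4, h5, h6⟩ := family' h1 (fun i : Fin m => G i i * G i i) (fun i => G i i)
      h3 (fun i => h2 (gen_mem _ _ _ _))
    rw [Fintype.card_fin, Nat.zero_add, ← two_mul] at h4
    refine cost_le h4 ?_
    rw [Set.singleton_subset_iff]
    have h7 := upper_mul G G hup hup
    have h8 := upper_mul (G * G) G h7.1 hup
    have h9 : cubeOn 0 (el F e) = ∑ i, G i i * G i i * G i i := by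
      unfold cubeOn
      rw [Matrix.trace]
      refine Finset.sum_congr rfl fun i _ => ?_
      rw [Matrix.diag_apply, ← hG, h8.2, h7.2]
    rw [h9]
    exact Submodule.sum_mem _ fun i _ => h6 i
  · obtain ⟨T, h1, h2, h3⟩ := prod_mem (Obt.start (F := F) (S := inputs F _))
      (one_mem_inputs (F := F) (Fin (m * (m + 1) / 2))) m
      (fun n => if hn : n < m then G ⟨n, hn⟩ ⟨n, hn⟩ else 0)
      (fun i hi => by rw [dif_pos hi]; exact gen_mem _ _ _ _)
    rw [Nat.zero_add] at h1
    refine cost_le h1 ?_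
    rw [Set.singleton_subset_iff]
    have h4 : detOn 0 (el F e) = ∏ i : Fin m, G i i := by
      unfold detOn
      exact Matrix.det_of_isUpperTriangular (M := G) (fun i j hij => hup i j hij)
    have h5 : ∏ i : Fin m, G i i = ∏ i ∈ Finset.range m,
        (if hn : i < m then G ⟨i, hn⟩ ⟨i, hn⟩ else 0) := by
      rw [← Fin.prod_univ_eq_prod_range (fun n => if hn : n < m then G ⟨n, hn⟩ ⟨n, hn⟩ else 0) m]
      refine Finset.prod_congr rfl fun i _ => ?_
      rw [dif_pos i.2]
    rw [h4, h5]
    exact h3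
  · refine ⟨fun l => if (e l).1 = (e l).2 then 1 else 0, ?_⟩
    have h1 : comb (el F e) (fun l => if (e l).1 = (e l).2 then (1 : F) else 0) = 1 := by
      ext i j
      unfold comb
      rw [Matrix.sum_apply]
      simp only [Matrix.smul_apply, el, Matrix.single_apply, smul_eq_mul]
      by_cases hij : i = j
      · subst hij
        rw [Matrix.one_apply_eq, Finset.sum_eq_single (e0.symm ⟨(i, i), le_rfl⟩)]
        · have h2 : e (e0.symm ⟨(i, i), le_rfl⟩) = (i, i) := by
            simp only [he, Equiv.apply_symm_apply]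
          rw [h2]
          simp
        · intro l _ hl
          rw [if_neg (c := (e l).1 = i ∧ (e l).2 = i), mul_zero]
          rintro ⟨h3, h4⟩
          apply hl
          rw [Equiv.eq_symm_apply]
          exact Subtype.ext (Prod.ext h3 h4)
        · intro h
          exact absurd (Finset.mem_univ _) h
      · rw [Matrix.one_apply_ne hij]
        refine Finset.sum_eq_zero fun l _ => ?_
        by_cases h3 : (e l).1 = i ∧ (e l).2 = j
        · rw [if_neg, zero_mul]
          rw [h3.1, h3.2]
          exact hij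
        · rw [if_neg h3, mul_zero]
    rw [h1, Matrix.det_one]
    exact one_ne_zero

theorem blk : S_BLK := by
  intro F _ m
  have hc := card_block m
  let e0 : Fin (m ^ 2 / 4) ≃ Fin (m / 2) × Fin (m - m / 2) :=
    (Fintype.equivFinOfCardEq hc).symm
  set e : Fin (m ^ 2 / 4) → Fin m × Fin m := fun l =>
    (⟨((e0 l).1 : ℕ), by have := (e0 l).1.2; omega⟩,
      ⟨m / 2 + ((e0 l).2 : ℕ), by have := (e0 l).2.2; omega⟩) with he
  have hinj : Function.Injective e := by
    intro a b h
    apply e0.injective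
    have h1 := congrArg Fin.val (Prod.ext_iff.1 h).1
    have h2 := congrArg Fin.val (Prod.ext_iff.1 h).2
    simp only [he] at h1 h2
    exact Prod.ext (Fin.ext h1) (Fin.ext (by omega))
  refine ⟨el F e, el_indep e hinj, ?_⟩
  ext1 i k
  rw [Matrix.mul_apply, Matrix.zero_apply]
  refine Finset.sum_eq_zero fun j _ => ?_
  rcases lt_or_ge (j : ℕ) (m / 2) with h | h
  · rw [gen_zero e i j, zero_mul]
    intro l hl
    have h1 := congrArg Fin.val (Prod.ext_iff.1 hl).2
    simp only [he] at h1
    omega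
  · rw [gen_zero e j k, mul_zero]
    intro l hl
    have h1 := congrArg Fin.val (Prod.ext_iff.1 hl).1
    simp only [he] at h1
    have := (e0 l).1.2
    omega

end Pool.Agent.Helper16K9.TH
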