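import Pool.Agent.Helper16K9.TH.Df2
import Pool.Agent.Helper16K9.TH.Ups

set_option autoImplicit false
set_option linter.unusedSectionVars false
set_option linter.unusedVariables false

/-!
# [EXI] a space of dimension `m ^ 2 / 4 + 1` on which the inverse is easy
-/

namespace Pool.Agent.Helper16K9.TH

open MvPolynomial Matrix Pool.Agent.W956.KF Pool.Agent.H826R3.SM

namespace ExiL

section
variable {F K : Type} [Field F] [Field K] [Algebra F K] {S : Submodule F K}

theorem familyD {s : ℕ} {T : Submodule F K} (h : ObtD F S s T) (r : ℕ) (x y : ℕ → K)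
    (hx : ∀ i < r, x i ∈ T) (hy : ∀ i < r, y i ∈ T) :
    ∃ T', ObtD F S (s + r) T' ∧ T ≤ T' ∧ ∀ i < r, x i * y i ∈ T' := by
  induction r with
  | zero => exact ⟨T, h, le_rfl, fun i hi => absurd hi (by omega)⟩
  | succ r ih =>
    obtain ⟨T', h1, h2, h3⟩ := ih (fun i hi => hx i (by omega)) (fun i hi => hy i (by omega))
    refine ⟨T' ⊔ Submodule.span F {x r * y r}, ?_, h2.trans le_sup_left, ?_⟩
    · exact ObtD.mul h1 (h2 (hx r (by omega))) (h2 (hy r (by omega)))
    · intro i hi
      rcases Nat.lt_succ_iff_lt_or_eq.1 hi with h4 | rfl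
      · exact le_sup_left (a := T') (h3 i h4)
      · exact le_sup_right (a := T') (Submodule.subset_span rfl)

theorem familyD' {s r : ℕ} {T : Submodule F K} (h : ObtD F S s T)
    (x y : Fin r → K) (hx : ∀ i, x i ∈ T) (hy : ∀ i, y i ∈ T) :
    ∃ T', ObtD F S (s + r) T' ∧ T ≤ T' ∧ ∀ i, x i * y i ∈ T' := by
  classical
  obtain ⟨T', h1, h2, h3⟩ := familyD h r
    (fun n => if hn : n < r then x ⟨n, hn⟩ else 0)
    (fun n => if hn : n < r then y ⟨n, hn⟩ else 0)
    (fun i hi => by rw [dif_pos hi]; exact hx _) (fun i hi => by rw [dif_pos hi]; exact hy _)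
  refine ⟨T', h1, h2, fun i => ?_⟩
  have h4 := h3 i i.2
  rw [dif_pos i.2, dif_pos i.2] at h4
  exact h4

end

section
variable {F : Type} [Field F]

theorem costD_le {d : ℕ} {P : Set (RF F d)} {s : ℕ} {T : Submodule F (RF F d)}
    (h : ObtD F (inputsD F d) s T) (hP : P ⊆ T) : costD P ≤ s := Nat.sInf_le ⟨T, h, hP⟩

theorem xv_ne {d : ℕ} (i : Fin d) : xv F d i ≠ 0 := by
  unfold xv
  intro h
  have h1 := (map_eq_zero_iff (algebraMap (MvPolynomial (Fin d) F) (RF F d))
    (IsFractionRing.injective (MvPolynomial (Fin d) F) (RF F d))).1 h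
  exact MvPolynomial.X_ne_zero i h1

theorem genD_apply {m d : ℕ} (A : Matrix (Fin m) (Fin m) F)
    (B : Fin d → Matrix (Fin m) (Fin m) F) (i j : Fin m) :
    genD A B i j = algebraMap F (RF F d) (A i j) +
      ∑ l, algebraMap F (RF F d) (B l i j) * xv F d l := by
  have hC : ∀ a : F, algebraMap (MvPolynomial (Fin d) F) (RF F d) (C a) =
      algebraMap F (RF F d) a := by
    intro a
    rw [IsScalarTower.algebraMap_apply F (MvPolynomial (Fin d) F) (RF F d),
      MvPolynomial.algebraMap_eq]
  change algebraMap (MvPolynomial (Fin d) F) (RF F d) (C (A i j) + ∑ l, C (B l i j) * X l) = _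
  rw [map_add, hC, map_sum]
  congr 1
  refine Finset.sum_congr rfl fun l _ => ?_
  rw [map_mul, hC]
  rfl

end

end ExiL

open ExiL UpsL in
theorem exi : S_EXI := by
  intro F _ m hm
  have hc := card_block m
  let e0 : Fin (m ^ 2 / 4) ≃ Fin (m / 2) × Fin (m - m / 2) :=
    (Fintype.equivFinOfCardEq hc).symm
  set n := m ^ 2 / 4 with hn
  set e : Fin n → Fin m × Fin m := fun l =>
    (⟨((e0 l).1 : ℕ), by have := (e0 l).1.2; omega⟩,
      ⟨m / 2 + ((e0 l).2 : ℕ), by have := (e0 l).2.2; omega⟩) with he
  have hinj : Function.Injective e := by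
    intro a b h
    apply e0.injective
    have h1 := congrArg Fin.val (Prod.ext_iff.1 h).1
    have h2 := congrArg Fin.val (Prod.ext_iff.1 h).2
    simp only [he] at h1 h2
    exact Prod.ext (Fin.ext h1) (Fin.ext (by omega))
  have hcross : ∀ k l, (e k).2 ≠ (e l).1 := by
    intro k l h
    have h1 := congrArg Fin.val h
    simp only [he] at h1
    have := (e0 l).1.2
    omega
  set B : Fin (n + 1) → Matrix (Fin m) (Fin m) F := Fin.cons 1 (el F e) with hB
  have hB0 : B 0 = 1 := by rw [hB, Fin.cons_zero]
  have hBs : ∀ l : Fin n, B l.succ = el F e l := fun l => by rw [hB, Fin.cons_succ]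
  refine ⟨B, ?_, ?_, ?_⟩
  · -- independence
    rw [hB, linearIndependent_finCons]
    refine ⟨el_indep e hinj, ?_⟩
    intro hmem
    have h1 : ∀ M ∈ Submodule.span F (Set.range (el F e)), M ⟨0, hm⟩ ⟨0, hm⟩ = 0 := by
      intro M hM
      induction hM using Submodule.span_induction with
      | mem x hx =>
        obtain ⟨l, rfl⟩ := hx
        unfold el
        rw [Matrix.single_apply, if_neg]
        rintro ⟨h2, h3⟩
        exact hcross l l (by rw [h2, h3])
      | zero => rfl
      | add x y _ _ hx hy => rw [Matrix.add_apply, hx, hy, add_zero]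
      | smul a x _ hx => rw [Matrix.smul_apply, hx, smul_zero]
    have h2 := h1 _ hmem
    rw [Matrix.one_apply_eq] at h2
    exact one_ne_zero h2
  · -- the cost of the inverse
    set K := RF F (n + 1) with hK
    set lam : K := xv F (n + 1) 0 with hlam
    have hlam0 : lam ≠ 0 := xv_ne 0
    have hxin : ∀ l, xv F (n + 1) l ∈ inputsD F (n + 1) := fun l =>
      Submodule.subset_span (Set.mem_insert_of_mem _ ⟨l, rfl⟩)
    have h1in : (1 : K) ∈ inputsD F (n + 1) := Submodule.subset_span (Set.mem_insert _ _)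
    have s1 : ObtD F (inputsD F (n + 1)) (0 + 1)
        (inputsD F (n + 1) ⊔ Submodule.span F {1 / lam}) :=
      ObtD.div ObtD.start h1in (hxin 0) hlam0
    set T1 := inputsD F (n + 1) ⊔ Submodule.span F {1 / lam} with hT1
    have hi1 : 1 / lam ∈ T1 := le_sup_right (a := inputsD F (n + 1)) (Submodule.subset_span rfl)
    have s2 : ObtD F (inputsD F (n + 1)) (0 + 1 + 1)
        (T1 ⊔ Submodule.span F {1 / lam * (1 / lam)}) := ObtD.mul s1 hi1 hi1
    set T2 := T1 ⊔ Submodule.span F {1 / lam * (1 / lam)} with hT2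
    have hi2 : 1 / lam * (1 / lam) ∈ T2 := le_sup_right (a := T1) (Submodule.subset_span rfl)
    have hT02 : inputsD F (n + 1) ≤ T2 := le_sup_left.trans le_sup_left
    obtain ⟨T3, s3, hT23, h3⟩ := familyD' s2 (fun _ : Fin n => 1 / lam * (1 / lam))
      (fun l : Fin n => xv F (n + 1) l.succ) (fun _ => hi2) (fun l => hT02 (hxin l.succ))
    have hcount : 0 + 1 + 1 + n = n + 2 := by ring
    rw [hcount] at s3
    refine costD_le s3 ?_
    -- the inverse
    set N : Matrix (Fin m) (Fin m) K := ∑ l : Fin n, xv F (n + 1) l.succ •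
      Matrix.single (e l).1 (e l).2 (1 : K) with hN
    have hgen : genD 0 B = lam • (1 : Matrix (Fin m) (Fin m) K) + N := by
      ext i j
      rw [genD_apply, Matrix.zero_apply, map_zero, zero_add, Fin.sum_univ_succ, hB0,
        Matrix.add_apply, hN, Matrix.sum_apply]
      congr 1
      · rw [Matrix.smul_apply, smul_eq_mul, mul_comm]
        congr 1
        by_cases hij : i = j
        · rw [hij, Matrix.one_apply_eq, Matrix.one_apply_eq, map_one]
        · rw [Matrix.one_apply_ne hij, Matrix.one_apply_ne hij, map_zero]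
      · refine Finset.sum_congr rfl fun l _ => ?_
        rw [hBs, Matrix.smul_apply, smul_eq_mul, mul_comm]
        congr 1
        unfold el
        rw [Matrix.single_apply, Matrix.single_apply]
        split_ifs
        · rw [map_one]
        · rw [map_zero]
    have hNN : N * N = 0 := by
      rw [hN, Finset.sum_mul]
      refine Finset.sum_eq_zero fun k _ => ?_
      rw [Finset.mul_sum]
      refine Finset.sum_eq_zero fun l _ => ?_
      rw [Matrix.smul_mul, Matrix.mul_smul, Matrix.single_mul_single_of_ne, smul_zero, smul_zero]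
      exact hcross k l
    have hinv : (genD 0 B)⁻¹ = (1 / lam) • (1 : Matrix (Fin m) (Fin m) K) -
        (1 / lam * (1 / lam)) • N := by
      apply Matrix.inv_eq_right_inv
      rw [hgen, add_mul, mul_sub, mul_sub, Matrix.smul_mul, Matrix.smul_mul, Matrix.one_mul,
        Matrix.one_mul, Matrix.mul_smul, Matrix.mul_smul, Matrix.mul_one, hNN, smul_zero, sub_zero,
        smul_smul, smul_smul]
      have h4 : lam * (1 / lam) = 1 := mul_one_div_cancel hlam0
      have h5 : lam * (1 / lam * (1 / lam)) = 1 / lam := by rw [← mul_assoc, h4, one_mul]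
      rw [h4, h5, one_smul, sub_add_cancel]
    rintro p ⟨i, j, rfl⟩
    rw [hinv, Matrix.sub_apply, Matrix.smul_apply, Matrix.smul_apply]
    refine Submodule.sub_mem _ ?_ ?_
    · by_cases hij : i = j
      · rw [hij, Matrix.one_apply_eq, smul_eq_mul, mul_one]
        exact hT23 (le_sup_left (a := T1) hi1)
      · rw [Matrix.one_apply_ne hij, smul_zero]
        exact Submodule.zero_mem _
    · rw [hN, Matrix.sum_apply, Finset.smul_sum]
      refine Submodule.sum_mem _ fun l _ => ?_
      rw [Matrix.smul_apply, Matrix.single_apply]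
      split_ifs
      · rw [smul_eq_mul, smul_eq_mul, mul_one]
        exact h3 l
      · rw [smul_zero, smul_zero]
        exact Submodule.zero_mem _
  · refine ⟨Fin.cons 1 0, ?_⟩
    have h1 : comb B (Fin.cons 1 0) = 1 := by
      unfold comb
      rw [Fin.sum_univ_succ, Fin.cons_zero, one_smul, hB0]
      simp
    rw [h1, Matrix.det_one]
    exact one_ne_zero

end Pool.Agent.Helper16K9.TH
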