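import Pool.Agent.Helper16K9.TH.Df2

set_option autoImplicit false

/-!
# Second derivatives of the inverse of the generic element
-/

namespace Pool.Agent.Helper16K9.TH

open MvPolynomial Matrix

namespace InvL

section
variable {F : Type} [Field F] {m d : ℕ}

theorem map_mulD (D : Derivation F (RF F d) (RF F d)) (M N : Matrix (Fin m) (Fin m) (RF F d)) :
    (M * N).map D = M.map D * N + M * N.map D := by
  ext1 i j
  rw [Matrix.add_apply, Matrix.map_apply, Matrix.mul_apply, Matrix.mul_apply, Matrix.mul_apply,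
    map_sum, ← Finset.sum_add_distrib]
  refine Finset.sum_congr rfl fun k _ => ?_
  rw [Derivation.leibniz, Matrix.map_apply, Matrix.map_apply, smul_eq_mul, smul_eq_mul]
  ring

theorem map_negD (D : Derivation F (RF F d) (RF F d)) (M : Matrix (Fin m) (Fin m) (RF F d)) :
    (-M).map D = -(M.map D) := by
  ext1 i j
  rw [Matrix.map_apply, Matrix.neg_apply, Matrix.neg_apply, Matrix.map_apply, map_neg]

theorem map_oneD (D : Derivation F (RF F d) (RF F d)) :
    (1 : Matrix (Fin m) (Fin m) (RF F d)).map D = 0 := by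
  ext1 i j
  rw [Matrix.map_apply, Matrix.one_apply, Matrix.zero_apply]
  split_ifs
  · exact D.map_one_eq_zero
  · exact map_zero D

theorem up_map (D : Derivation F (RF F d) (RF F d)) (A : Matrix (Fin m) (Fin m) F) :
    (up d A).map D = 0 := by
  ext1 i j
  rw [Matrix.map_apply, up, Matrix.map_apply, D.map_algebraMap, Matrix.zero_apply]

theorem alg_C (x : F) : algebraMap (MvPolynomial (Fin d) F) (RF F d) (C x) = algebraMap F (RF F d) x := by
  rw [IsScalarTower.algebraMap_apply F (MvPolynomial (Fin d) F) (RF F d)]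
  rfl

theorem genD_apply (A : Matrix (Fin m) (Fin m) F) (B : Fin d → Matrix (Fin m) (Fin m) F) (i k : Fin m) :
    genD A B i k = algebraMap F (RF F d) (A i k) + ∑ l, algebraMap F (RF F d) (B l i k) * xv F d l := by
  have h : genD A B i k = algebraMap (MvPolynomial (Fin d) F) (RF F d) (C (A i k) + ∑ l, C (B l i k) * X l) := rfl
  rw [h, map_add, map_sum, alg_C]
  congr 1
  refine Finset.sum_congr rfl fun l _ => ?_
  rw [map_mul, alg_C, xv]

theorem genD_map {δ : Fin d → Derivation F (RF F d) (RF F d)} (h : IsPartial δ) (j : Fin d)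
    (A : Matrix (Fin m) (Fin m) F) (B : Fin d → Matrix (Fin m) (Fin m) F) :
    (genD A B).map (δ j) = up d (B j) := by
  ext1 i k
  rw [Matrix.map_apply, genD_apply, map_add, (δ j).map_algebraMap, zero_add, map_sum]
  rw [Finset.sum_eq_single j]
  · rw [Derivation.leibniz, (δ j).map_algebraMap, h j j, if_pos rfl, smul_zero, add_zero, smul_eq_mul,
      mul_one, up, Matrix.map_apply]
  · intro l _ hl
    rw [Derivation.leibniz, (δ j).map_algebraMap, h j l, if_neg hl, smul_zero, smul_zero, add_zero]
  · intro hj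
    exact absurd (Finset.mem_univ j) hj

theorem inv_map {δ : Fin d → Derivation F (RF F d) (RF F d)} (h : IsPartial δ) (j : Fin d)
    (A : Matrix (Fin m) (Fin m) F) (B : Fin d → Matrix (Fin m) (Fin m) F)
    (N : Matrix (Fin m) (Fin m) (RF F d)) (h1 : N * genD A B = 1) (h2 : genD A B * N = 1) :
    N.map (δ j) = -(N * up d (B j) * N) := by
  have h3 : (genD A B * N).map (δ j) = 0 := by rw [h2, map_oneD]
  rw [map_mulD, genD_map h] at h3
  have h4 : genD A B * N.map (δ j) = -(up d (B j) * N) := by
    rw [eq_neg_iff_add_eq_zero, add_comm]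
    exact h3
  calc N.map (δ j) = (N * genD A B) * N.map (δ j) := by rw [h1, Matrix.one_mul]
    _ = N * (genD A B * N.map (δ j)) := by rw [Matrix.mul_assoc]
    _ = -(N * up d (B j) * N) := by rw [h4, Matrix.mul_neg, Matrix.mul_assoc]

theorem inv_map2 {δ : Fin d → Derivation F (RF F d) (RF F d)} (h : IsPartial δ) (i j : Fin d)
    (A : Matrix (Fin m) (Fin m) F) (B : Fin d → Matrix (Fin m) (Fin m) F)
    (N : Matrix (Fin m) (Fin m) (RF F d)) (h1 : N * genD A B = 1) (h2 : genD A B * N = 1) :
    (N.map (δ j)).map (δ i) = N * up d (B i) * (N * up d (B j)) * N +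
      N * up d (B j) * (N * up d (B i)) * N := by
  rw [inv_map h j A B N h1 h2, map_negD, map_mulD, map_mulD, up_map, inv_map h i A B N h1 h2,
    Matrix.mul_zero, add_zero]
  simp only [Matrix.neg_mul, Matrix.mul_neg, neg_add, neg_neg, Matrix.mul_assoc]

end

end InvL

open InvL

theorem inv : S_INV := by
  intro F _ m d A B δ hδ N h1 h2 a b i j
  set U : Fin d → Matrix (Fin m) (Fin m) (RF F d) := fun l => up d (B l) with hU
  have hR : (N * comb U a * (N * comb U b) + N * comb U b * (N * comb U a)) * N =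
      ∑ p, ∑ q, (a p * b q) • (N * U p * (N * U q) * N + N * U q * (N * U p) * N) := by
    unfold comb
    have e1 : N * (∑ l, a l • U l) * (N * (∑ l, b l • U l)) * N =
        ∑ p, ∑ q, (a p * b q) • (N * U p * (N * U q) * N) := by
      simp only [Finset.mul_sum, Finset.sum_mul, Matrix.mul_smul, Matrix.smul_mul, Finset.smul_sum, smul_smul]
      rw [Finset.sum_comm]
      refine Finset.sum_congr rfl fun p _ => Finset.sum_congr rfl fun q _ => ?_
      rw [mul_comm (b q)]
    have e2 : N * (∑ l, b l • U l) * (N * (∑ l, a l • U l)) * N =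
        ∑ p, ∑ q, (a p * b q) • (N * U q * (N * U p) * N) := by
      simp only [Finset.mul_sum, Finset.sum_mul, Matrix.mul_smul, Matrix.smul_mul, Finset.smul_sum, smul_smul]
    rw [Matrix.add_mul, e1, e2, ← Finset.sum_add_distrib]
    refine Finset.sum_congr rfl fun p _ => ?_
    rw [← Finset.sum_add_distrib]
    refine Finset.sum_congr rfl fun q _ => ?_
    rw [smul_add]
  rw [hR]
  unfold DD2
  rw [Matrix.sum_apply]
  refine Finset.sum_congr rfl fun p _ => ?_
  rw [Matrix.sum_apply]
  refine Finset.sum_congr rfl fun q _ => ?_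
  have h3 : (δ p) ((δ q) (N i j)) = ((N.map (δ q)).map (δ p)) i j := rfl
  rw [h3, inv_map2 hδ p q A B N h1 h2, Matrix.smul_apply, smul_eq_mul]
  exact (mul_assoc _ _ _).symm

end Pool.Agent.Helper16K9.TH
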