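import Pool.Agent.Helper16K9.TH.Df2

/-! Leaf LIF (helper61): independent matrices stay independent over a larger field -/

set_option autoImplicit false

namespace Pool.Agent.Helper16K9.TH

namespace LifL

theorem lif0 (F K : Type) [Field F] [Field K] [Algebra F K] (m d : ℕ)
    (B : Fin d → Matrix (Fin m) (Fin m) F) (hB : LinearIndependent F B) :
    LinearIndependent K fun l => (B l).map (algebraMap F K) := by
  have hinj : LinearMap.ker (Fintype.linearCombination F B) = ⊥ := by
    rw [LinearMap.ker_eq_bot']
    intro c hc
    funext l
    exact Fintype.linearIndependent_iff.1 hB c (by simpa [Fintype.linearCombination_apply] using hc) l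
  obtain ⟨S, hS⟩ := LinearMap.exists_leftInverse_of_injective _ hinj
  have hS1 : ∀ l k, S (B l) k = if l = k then 1 else 0 := by
    intro l k
    have h := congrFun (LinearMap.congr_fun hS (Pi.single l 1)) k
    simp only [LinearMap.comp_apply, Fintype.linearCombination_apply, LinearMap.id_apply] at h
    have e : ∑ i, (Pi.single l (1 : F) : Fin d → F) i • B i = B l := by
      rw [Finset.sum_eq_single l]
      · simp
      · intro i _ hi
        rw [Pi.single_eq_of_ne hi, zero_smul]
      · intro h
        exact absurd (Finset.mem_univ l) h
    rw [e] at h
    rw [h]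
    simp [Pi.single_apply, eq_comm]
  have hS2 : ∀ l k, ∑ i, ∑ j, B l i j * S (Matrix.single i j 1) k = if l = k then 1 else 0 := by
    intro l k
    rw [← hS1 l k]
    conv_rhs => rw [Matrix.matrix_eq_sum_single (B l)]
    simp only [map_sum, Finset.sum_apply]
    refine Finset.sum_congr rfl fun i _ => Finset.sum_congr rfl fun j _ => ?_
    have e : Matrix.single i j (B l i j) = B l i j • Matrix.single i j (1 : F) := by
      rw [Matrix.smul_single, smul_eq_mul, mul_one]
    rw [e, map_smul]
    rfl
  rw [Fintype.linearIndependent_iff]
  intro c hc k
  have hij : ∀ i j, ∑ l, c l * algebraMap F K (B l i j) = 0 := by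
    intro i j
    have h := congrFun (congrFun hc i) j
    simpa [Matrix.sum_apply] using h
  calc c k = ∑ l, c l * algebraMap F K (if l = k then 1 else 0) := by
        rw [Finset.sum_eq_single k]
        · simp
        · intro l _ hl
          simp [hl]
        · intro h
          exact absurd (Finset.mem_univ k) h
    _ = ∑ l, c l * algebraMap F K (∑ i, ∑ j, B l i j * S (Matrix.single i j 1) k) := by
        simp only [hS2]
    _ = ∑ i, ∑ j, (∑ l, c l * algebraMap F K (B l i j)) *
        algebraMap F K (S (Matrix.single i j 1) k) := by
        simp only [map_sum, map_mul, Finset.mul_sum, Finset.sum_mul]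
        rw [Finset.sum_comm]
        refine Finset.sum_congr rfl fun i _ => ?_
        rw [Finset.sum_comm]
        refine Finset.sum_congr rfl fun j _ => Finset.sum_congr rfl fun l _ => ?_
        ring
    _ = 0 := by
        simp only [hij, zero_mul, Finset.sum_const_zero]

end LifL

theorem lif : S_LIF := fun F _ m d n B hB => LifL.lif0 F (RF F n) m d B hB

end Pool.Agent.Helper16K9.TH
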