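import Pool.Agent.Helper16K9.TH.Df2
import Pool.Agent.Helper16K9.TH.Grw

set_option autoImplicit false
set_option linter.unusedSectionVars false
set_option linter.unusedVariables false

/-!
# [NUM] the size of the recursion for the inverse
-/

namespace Pool.Agent.Helper16K9.TH

open Pool.Agent.W956.KF Pool.Agent.H826R3.SM

namespace NumL

theorem Iv_small (F : Type) [Field F] (m : ℕ) (h : m ≤ 1) : Iv F m = m := by
  rw [Iv, dif_pos h]

theorem Iv_rec (F : Type) [Field F] (m : ℕ) (h : ¬ m ≤ 1) :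
    Iv F m = Iv F (m / 2) + Iv F (m - m / 2) +
      (6 * trank F (m - m / 2) (m - m / 2) (m - m / 2) + 1) := by
  rw [Iv, dif_neg h]

/-- the exponent is at least two -/
theorem two_le (F : Type) [Field F] {τ : ℝ} (hτ : omegaMM F < τ) : 2 ≤ τ := by
  by_contra hcon
  push Not at hcon
  obtain ⟨D, hD0, hD⟩ := GrwL.trank_upper (F := F) hτ
  have hlim : Filter.Tendsto (fun q : ℕ => (q : ℝ) ^ (2 - τ)) Filter.atTop Filter.atTop :=
    (tendsto_rpow_atTop (by linarith)).comp tendsto_natCast_atTop_atTop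
  obtain ⟨m, hm1, hm2⟩ := ((hlim.eventually_gt_atTop D).and (Filter.eventually_ge_atTop 1)).exists
  have hm0 : (0 : ℝ) < m := by exact_mod_cast (by omega : 0 < m)
  have h1 : ((m ^ 2 : ℕ) : ℝ) ≤ trank F m m m := by exact_mod_cast sq_le_trank F m
  have h2 := h1.trans (hD m)
  push_cast at h2
  have e1 : (m : ℝ) ^ 2 = (m : ℝ) ^ (2 - τ) * (m : ℝ) ^ τ := by
    rw [← Real.rpow_add hm0, ← Real.rpow_natCast (m : ℝ) 2]
    congr 1
    push_cast
    ring
  have h3 : (0 : ℝ) < (m : ℝ) ^ τ := Real.rpow_pos_of_pos hm0 _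
  have h4 := mul_lt_mul_of_pos_right hm1 h3
  linarith

/-- two halves -/
theorem halves {τ : ℝ} (hτ : 2 ≤ τ) (a b m : ℕ) (hm : 2 ≤ m) (hab : a + b = m) (h1 : a ≤ b)
    (h2 : b ≤ a + 1) : (a : ℝ) ^ τ + (b : ℝ) ^ τ ≤ 5 / 9 * (m : ℝ) ^ τ := by
  have hm0 : (0 : ℝ) < m := by exact_mod_cast (by omega : 0 < m)
  have key : ∀ c : ℕ, c ≤ m → (c : ℝ) ^ τ ≤ (c : ℝ) ^ 2 / (m : ℝ) ^ 2 * (m : ℝ) ^ τ := by
    intro c hc
    have hc0 : (0 : ℝ) ≤ c := Nat.cast_nonneg c
    have hcm : (c : ℝ) / m ≤ 1 := by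
      rw [div_le_one hm0]
      exact_mod_cast hc
    have e1 : (c : ℝ) ^ τ = ((c : ℝ) / m) ^ τ * (m : ℝ) ^ τ := by
      rw [← Real.mul_rpow (by positivity) hm0.le, div_mul_cancel₀ _ hm0.ne']
    rw [e1]
    refine mul_le_mul_of_nonneg_right ?_ (Real.rpow_nonneg hm0.le _)
    rcases Nat.eq_zero_or_pos c with h0 | h0
    · rw [h0]
      simp only [Nat.cast_zero, zero_div]
      rw [Real.zero_rpow (by linarith)]
      positivity
    · have hcp : (0 : ℝ) < (c : ℝ) / m := by positivity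
      calc ((c : ℝ) / m) ^ τ ≤ ((c : ℝ) / m) ^ (2 : ℝ) :=
            Real.rpow_le_rpow_of_exponent_ge hcp hcm hτ
        _ = (c : ℝ) ^ 2 / (m : ℝ) ^ 2 := by
            rw [show (2 : ℝ) = ((2 : ℕ) : ℝ) by norm_num, Real.rpow_natCast, div_pow]
  have k1 := key a (by omega)
  have k2 := key b (by omega)
  have h3 : 9 * (a ^ 2 + b ^ 2) ≤ 5 * m ^ 2 := by
    rcases Nat.lt_or_ge m 3 with h | h
    · have e : a = 1 ∧ b = 1 := by omega
      rw [← hab, e.1, e.2]
      norm_num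
    · have e : b = a ∨ b = a + 1 := by omega
      rcases e with e | e
      · rw [← hab, e]
        nlinarith
      · have ha : 1 ≤ a := by omega
        rw [← hab, e]
        nlinarith
  have h3' : (9 : ℝ) * ((a : ℝ) ^ 2 + (b : ℝ) ^ 2) ≤ 5 * (m : ℝ) ^ 2 := by exact_mod_cast h3
  have h4 : (a : ℝ) ^ 2 / (m : ℝ) ^ 2 + (b : ℝ) ^ 2 / (m : ℝ) ^ 2 ≤ 5 / 9 := by
    rw [← add_div, div_le_iff₀ (by positivity)]
    linarith
  have h5 := mul_le_mul_of_nonneg_right h4 (Real.rpow_nonneg hm0.le τ)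
  linarith

end NumL

open NumL

/-- [NUM] -/
theorem num : S_NUM := by
  intro F _ τ hτ
  have h2 := two_le F hτ
  obtain ⟨D, hD0, hD⟩ := GrwL.trank_upper (F := F) hτ
  refine ⟨3 * (6 * D + 1), by positivity, fun m => ?_⟩
  induction m using Nat.strong_induction_on with
  | _ m ih =>
    by_cases h : m ≤ 1
    · rw [Iv_small F m h]
      rcases Nat.eq_zero_or_pos m with h0 | h0
      · rw [h0, Nat.cast_zero, Real.zero_rpow (by linarith), mul_zero]
      · have h1 : m = 1 := by omega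
        rw [h1, Nat.cast_one, Real.one_rpow]
        linarith
    · rw [Iv_rec F m h]
      have i1 := ih (m / 2) (by omega)
      have i2 := ih (m - m / 2) (by omega)
      have i3 := hD (m - m / 2)
      have i4 := halves h2 (m / 2) (m - m / 2) m (by omega) (by omega) (by omega) (by omega)
      have hm1 : (1 : ℝ) ≤ m := by exact_mod_cast (by omega : 1 ≤ m)
      have i5 : ((m - m / 2 : ℕ) : ℝ) ^ τ ≤ (m : ℝ) ^ τ :=
        Real.rpow_le_rpow (Nat.cast_nonneg _) (by exact_mod_cast Nat.sub_le _ _) (by linarith)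
      have i6 : (1 : ℝ) ≤ (m : ℝ) ^ τ := Real.one_le_rpow hm1 (by linarith)
      push_cast
      set x : ℝ := ((m / 2 : ℕ) : ℝ) ^ τ with hx
      set y : ℝ := ((m - m / 2 : ℕ) : ℝ) ^ τ with hy
      set z : ℝ := (m : ℝ) ^ τ with hz
      have j1 : D * y ≤ D * z := mul_le_mul_of_nonneg_left i5 hD0
      have j2 : 3 * (6 * D + 1) * (x + y) ≤ 3 * (6 * D + 1) * (5 / 9 * z) :=
        mul_le_mul_of_nonneg_left i4 (by positivity)
      have j3 : 0 ≤ D * z := mul_nonneg hD0 (by linarith)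
      nlinarith

end Pool.Agent.Helper16K9.TH
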