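import Pool.Agent.Helper16K9.TH.Df2

set_option autoImplicit false

namespace Pool.Agent.Helper16K9.TH

theorem per : S_PER := by
  intro K _ m
  induction m with
  | zero =>
    intro X _
    refine ⟨1, fun k hk => ?_⟩
    obtain rfl : k = 0 := by omega
    rw [Matrix.det_isEmpty]
    exact one_ne_zero
  | succ m ih =>
    intro X hX
    have h1 := Matrix.det_succ_column X (Fin.last m)
    obtain ⟨r, hr⟩ : ∃ r : Fin (m + 1), (X.submatrix r.succAbove (Fin.last m).succAbove).det ≠ 0 := by
      by_contra hcon
      push Not at hcon
      apply hX
      rw [h1]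
      exact Finset.sum_eq_zero fun i _ => by rw [hcon i, mul_zero]
    obtain ⟨τ, hτ⟩ := ih (X.submatrix r.succAbove (Fin.last m).succAbove) hr
    set f : Fin (m + 1) → Fin (m + 1) := Fin.snoc (α := fun _ => Fin (m + 1)) (fun i => r.succAbove (τ i)) r with hf
    have hfc : ∀ i : Fin m, f (Fin.castSucc i) = r.succAbove (τ i) := fun i => by
      rw [hf]; exact Fin.snoc_castSucc (α := fun _ => Fin (m + 1)) _ _ i
    have hfl : f (Fin.last m) = r := by
      rw [hf]; exact Fin.snoc_last (α := fun _ => Fin (m + 1)) _ _
    have hinj : Function.Injective f := by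
      intro a b hab
      induction a using Fin.lastCases with
      | last =>
        induction b using Fin.lastCases with
        | last => rfl
        | cast b =>
          rw [hfl, hfc] at hab
          exact absurd hab.symm (Fin.succAbove_ne _ _)
      | cast a =>
        induction b using Fin.lastCases with
        | last =>
          rw [hfl, hfc] at hab
          exact absurd hab (Fin.succAbove_ne _ _)
        | cast b =>
          rw [hfc, hfc] at hab
          have h2 := τ.injective (Fin.succAbove_right_injective hab)
          rw [h2]
    set σ : Equiv.Perm (Fin (m + 1)) := Equiv.ofBijective f (Finite.injective_iff_bijective.1 hinj) with hσ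
    have hσf : ∀ i, σ i = f i := fun i => rfl
    refine ⟨σ, fun k hk => ?_⟩
    rcases Nat.lt_or_ge m k with hmk | hkm
    · obtain rfl : k = m + 1 := by omega
      have h2 : (X.submatrix σ id).submatrix (Fin.castLE hk) (Fin.castLE hk) = X.submatrix σ id := by
        ext i j
        rfl
      rw [h2, Matrix.det_permute]
      refine mul_ne_zero ?_ hX
      rcases Int.units_eq_one_or (Equiv.Perm.sign σ) with h | h <;> rw [h] <;> simp
    · have h2 : (X.submatrix σ id).submatrix (Fin.castLE hk) (Fin.castLE hk) =
          ((X.submatrix r.succAbove (Fin.last m).succAbove).submatrix τ id).submatrix (Fin.castLE hkm) (Fin.castLE hkm) := by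
        ext i j
        simp only [Matrix.submatrix_apply, id]
        have e1 : (Fin.castLE hk i : Fin (m + 1)) = Fin.castSucc (Fin.castLE hkm i) := rfl
        have e2 : (Fin.castLE hk j : Fin (m + 1)) = (Fin.last m).succAbove (Fin.castLE hkm j) := by
          rw [Fin.succAbove_last]; rfl
        rw [e1, hσf, hfc, e2]
      rw [h2]
      exact hτ k hkm

end Pool.Agent.Helper16K9.TH
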