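import Pool.Agent.Helper16K9.TH.Df2
import Pool.Agent.Helper16K9.TH.Ups

set_option autoImplicit false

/-!
# [RCP] products of rectangular matrices by computations with divisions
-/

namespace Pool.Agent.Helper16K9.TH

open MvPolynomial Matrix Pool.Agent.W956.KF

namespace RcpL

theorem familyD {F K : Type} [Field F] [Field K] [Algebra F K] {S : Submodule F K} {s : ℕ}
    {T : Submodule F K} (h : ObtD F S s T) (r : ℕ) (x y : Fin r → K)
    (hx : ∀ i, x i ∈ T) (hy : ∀ i, y i ∈ T) :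
    ∃ T', ObtD F S (s + r) T' ∧ T ≤ T' ∧ ∀ i, x i * y i ∈ T' := by
  induction r with
  | zero => exact ⟨T, h, le_rfl, fun i => i.elim0⟩
  | succ r ih =>
    obtain ⟨T', h1, h2, h3⟩ := ih (fun i => x i.castSucc) (fun i => y i.castSucc)
      (fun i => hx _) (fun i => hy _)
    refine ⟨T' ⊔ Submodule.span F {x (Fin.last r) * y (Fin.last r)},
      ObtD.mul h1 (h2 (hx _)) (h2 (hy _)), h2.trans le_sup_left, ?_⟩
    intro i
    refine Fin.lastCases ?_ (fun j => ?_) i
    · exact le_sup_right (a := T') (Submodule.subset_span rfl)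
    · exact le_sup_left (a := T') (h3 j)

/-- square matrices -/
theorem square {F K : Type} [Field F] [Field K] [Algebra F K] {S : Submodule F K} {s : ℕ}
    {T : Submodule F K} (h : ObtD F S s T) (n : ℕ) (X Y : Matrix (Fin n) (Fin n) K)
    (hX : ∀ i j, X i j ∈ T) (hY : ∀ i j, Y i j ∈ T) :
    ∃ T', ObtD F S (s + trank F n n n) T' ∧ T ≤ T' ∧ ∀ i j, (X * Y) i j ∈ T' := by
  obtain ⟨U, V, W, hU⟩ := UpsL.rankLE_trank F n
  obtain ⟨T', h1, h2, h3⟩ := familyD h (trank F n n n)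
    (fun l => ∑ i, ∑ j, U l i j • X i j) (fun l => ∑ j, ∑ k, V l j k • Y j k)
    (fun l => Submodule.sum_mem _ fun i _ => Submodule.sum_mem _ fun j _ =>
      Submodule.smul_mem _ _ (hX i j))
    (fun l => Submodule.sum_mem _ fun i _ => Submodule.sum_mem _ fun j _ =>
      Submodule.smul_mem _ _ (hY i j))
  refine ⟨T', h1, h2, fun i j => ?_⟩
  rw [UpsL.mul_entry U V W hU X Y i j]
  exact Submodule.sum_mem _ fun l _ => Submodule.smul_mem _ _ (h3 l)

/-- a matrix with zeros added -/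
def pad {K : Type} [Zero K] {a b : ℕ} (n : ℕ) (X : Matrix (Fin a) (Fin b) K) :
    Matrix (Fin n) (Fin n) K :=
  Matrix.of fun i j => if h : i.1 < a ∧ j.1 < b then X ⟨i.1, h.1⟩ ⟨j.1, h.2⟩ else 0

theorem pad_mem {F K : Type} [Field F] [Field K] [Algebra F K] {T : Submodule F K} {a b : ℕ}
    (n : ℕ) {X : Matrix (Fin a) (Fin b) K} (hX : ∀ i j, X i j ∈ T) (i j : Fin n) :
    pad n X i j ∈ T := by
  rw [pad, Matrix.of_apply]
  split
  · exact hX _ _
  · exact Submodule.zero_mem _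

theorem pad_mul {K : Type} [Field K] {n a b c : ℕ} (ha : a ≤ n) (hb : b ≤ n) (hc : c ≤ n)
    (X : Matrix (Fin a) (Fin b) K) (Y : Matrix (Fin b) (Fin c) K) (i : Fin a) (j : Fin c) :
    (pad n X * pad n Y) (Fin.castLE ha i) (Fin.castLE hc j) = (X * Y) i j := by
  rw [Matrix.mul_apply, Matrix.mul_apply]
  symm
  refine Finset.sum_of_injOn (Fin.castLE hb) (Fin.castLE_injective hb).injOn
    (fun _ _ => Finset.mem_coe.2 (Finset.mem_univ _)) ?_ ?_
  · intro k _ hk
    have h1 : ¬ k.1 < b := fun h => hk ⟨⟨k.1, h⟩, Finset.mem_coe.2 (Finset.mem_univ _), rfl⟩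
    rw [pad, Matrix.of_apply, dif_neg (fun h => h1 h.2), zero_mul]
  · intro k _
    rw [pad, pad, Matrix.of_apply, Matrix.of_apply,
      dif_pos (⟨i.2, k.2⟩ : (Fin.castLE ha i).1 < a ∧ (Fin.castLE hb k).1 < b),
      dif_pos (⟨k.2, j.2⟩ : (Fin.castLE hb k).1 < b ∧ (Fin.castLE hc j).1 < c)]
    rfl

end RcpL

theorem rcp : S_RCP := by
  intro F K _ _ _ S T s n a b c h ha hb hc X Y hX hY
  obtain ⟨T', h1, h2, h3⟩ := RcpL.square h n (RcpL.pad n X) (RcpL.pad n Y)
    (RcpL.pad_mem n hX) (RcpL.pad_mem n hY)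
  refine ⟨T', h1, h2, fun i j => ?_⟩
  rw [← RcpL.pad_mul ha hb hc X Y i j]
  exact h3 _ _

end Pool.Agent.Helper16K9.TH
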