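import Pool.Agent.Helper16K9.TH.Df2

set_option autoImplicit false
set_option linter.unusedSectionVars false
set_option linter.unusedVariables false

/-!
# Inverse and determinant by recursion
-/

namespace Pool.Agent.Helper16K9.TH

open Matrix Pool.Agent.W956.KF Pool.Agent.H826R3.SM

namespace RecL

variable {K : Type} [Field K] {p q : ℕ}

theorem inv_blocks (A : Matrix (Fin p) (Fin p) K) (B : Matrix (Fin p) (Fin q) K)
    (C : Matrix (Fin q) (Fin p) K) (D : Matrix (Fin q) (Fin q) K) (hA : A * A⁻¹ = 1)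
    (W : Matrix (Fin q) (Fin q) K) (hW : (D - C * (A⁻¹ * B)) * W = 1) :
    (fromBlocks A B C D)⁻¹ = fromBlocks (A⁻¹ + A⁻¹ * B * W * (C * A⁻¹)) (-(A⁻¹ * B * W))
      (-(W * (C * A⁻¹))) W := by
  apply Matrix.inv_eq_right_inv
  have hAP : A * (A⁻¹ * B) = B := by rw [← Matrix.mul_assoc, hA, Matrix.one_mul]
  obtain ⟨P, hP⟩ : ∃ P, P = A⁻¹ * B := ⟨_, rfl⟩
  obtain ⟨R, hR⟩ : ∃ R, R = C * A⁻¹ := ⟨_, rfl⟩
  rw [← hP] at hAP hW ⊢
  rw [← hR]
  have hS : C * P * W = D * W - 1 := by
    rw [Matrix.sub_mul] at hW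
    rw [← hW]
    abel
  rw [fromBlocks_multiply, ← fromBlocks_one]
  congr 1
  · rw [Matrix.mul_add, hA, ← Matrix.mul_assoc, ← Matrix.mul_assoc, hAP, Matrix.mul_neg,
      ← Matrix.mul_assoc, add_neg_cancel_right]
  · rw [Matrix.mul_neg, ← Matrix.mul_assoc, hAP, neg_add_cancel]
  · have e1 : C * (P * W * R) = C * P * W * R := by simp only [Matrix.mul_assoc]
    have e2 : D * (W * R) = D * W * R := by simp only [Matrix.mul_assoc]
    rw [Matrix.mul_add, Matrix.mul_neg, e1, e2, hS, Matrix.sub_mul, Matrix.one_mul, ← hR]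
    abel
  · rw [Matrix.mul_neg, ← Matrix.mul_assoc, hS]
    abel

theorem blocksX (X : Matrix (Fin (p + q)) (Fin (p + q)) K) :
    X.submatrix finSumFinEquiv finSumFinEquiv =
      fromBlocks (X.submatrix (Fin.castAdd q) (Fin.castAdd q))
        (X.submatrix (Fin.castAdd q) (Fin.natAdd p)) (X.submatrix (Fin.natAdd p) (Fin.castAdd q))
        (X.submatrix (Fin.natAdd p) (Fin.natAdd p)) := by
  ext i j
  rcases i with i | i <;> rcases j with j | j <;> simp

/-- the leading minors of the Schur complement -/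
theorem schur_minor (X : Matrix (Fin (p + q)) (Fin (p + q)) K)
    (hX : ∀ (k : ℕ) (hk : k ≤ p + q),
      (X.submatrix (Fin.castLE hk) (Fin.castLE hk)).det ≠ 0) (k : ℕ) (hk : k ≤ q) :
    ((X.submatrix (Fin.natAdd p) (Fin.natAdd p) - X.submatrix (Fin.natAdd p) (Fin.castAdd q) *
      ((X.submatrix (Fin.castAdd q) (Fin.castAdd q))⁻¹ *
        X.submatrix (Fin.castAdd q) (Fin.natAdd p))).submatrix (Fin.castLE hk)
          (Fin.castLE hk)).det ≠ 0 := by
  have hk' : p + k ≤ p + q := by omega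
  have h1 := hX (p + k) hk'
  have hA : (X.submatrix (Fin.castAdd q) (Fin.castAdd q)).det ≠ 0 := hX p (by omega)
  obtain ⟨A, hAd⟩ : ∃ A, A = X.submatrix (Fin.castAdd q) (Fin.castAdd q) := ⟨_, rfl⟩
  rw [← hAd] at hA ⊢
  let _ := invertibleOfIsUnitDet A (isUnit_iff_ne_zero.2 hA)
  have h2 : (X.submatrix (Fin.castLE hk') (Fin.castLE hk')).submatrix finSumFinEquiv
      finSumFinEquiv = fromBlocks A
        ((X.submatrix (Fin.castAdd q) (Fin.natAdd p)).submatrix id (Fin.castLE hk))
        ((X.submatrix (Fin.natAdd p) (Fin.castAdd q)).submatrix (Fin.castLE hk) id)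
        ((X.submatrix (Fin.natAdd p) (Fin.natAdd p)).submatrix (Fin.castLE hk)
          (Fin.castLE hk)) := by
    rw [hAd]
    ext i j
    rcases i with i | i <;> rcases j with j | j <;> rfl
  rw [← det_submatrix_equiv_self finSumFinEquiv, h2, det_fromBlocks₁₁] at h1
  have h3 := right_ne_zero_of_mul h1
  rw [invOf_eq_nonsing_inv, Matrix.mul_assoc] at h3
  exact h3

end RecL

open RecL in
theorem rec_ (hrcp : S_RCP) : S_REC := by
  intro F K _ _ _ m
  induction m using Nat.strong_induction_on with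
  | _ m ih =>
  intro S T s hT h1T X hXT hX
  by_cases hm : m ≤ 1
  · have hIv : Iv F m = m := by
      rw [Iv, dif_pos hm]
    rw [hIv]
    rcases Nat.eq_zero_or_pos m with rfl | hm0
    · refine ⟨T, hT, le_rfl, fun i => i.elim0, ?_⟩
      rw [Matrix.det_isEmpty]
      exact h1T
    · obtain rfl : m = 1 := by omega
      have h0 : X 0 0 ≠ 0 := by
        have := hX 1 le_rfl
        rw [Matrix.det_fin_one] at this
        exact this
      refine ⟨_, ObtD.div hT h1T (hXT 0 0) h0, le_sup_left, fun i j => ?_, ?_⟩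
      · have e : X⁻¹ i j = 1 / X 0 0 := by
          have hi : i = 0 := Subsingleton.elim _ _
          have hj : j = 0 := Subsingleton.elim _ _
          subst hi hj
          have h2 : X * X⁻¹ = 1 := Matrix.mul_nonsing_inv _ (by
            rw [Matrix.det_fin_one]
            exact isUnit_iff_ne_zero.2 h0)
          have h3 := congrFun (congrFun h2 0) 0
          rw [Matrix.mul_apply, Fin.sum_univ_one, Matrix.one_apply_eq] at h3
          rw [eq_div_iff h0, mul_comm]
          exact h3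
        rw [e]
        exact Submodule.mem_sup_right (Submodule.mem_span_singleton_self _)
      · rw [Matrix.det_fin_one]
        exact Submodule.mem_sup_left (hXT 0 0)
  · obtain ⟨p, q, rfl, hp, hq⟩ : ∃ p q, m = p + q ∧ m / 2 = p ∧ m - m / 2 = q :=
      ⟨m / 2, m - m / 2, by omega, rfl, rfl⟩
    have hIv : Iv F (p + q) = Iv F p + Iv F q + (6 * trank F q q q + 1) := by
      rw [Iv, dif_neg hm, hq, hp]
    rw [hIv]
    have hpq : p ≤ q := by omega
    have hp1 : 1 ≤ p := by omega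
    set A := X.submatrix (Fin.castAdd q) (Fin.castAdd q) with hAd
    set B := X.submatrix (Fin.castAdd q) (Fin.natAdd p) with hBd
    set C := X.submatrix (Fin.natAdd p) (Fin.castAdd q) with hCd
    set D := X.submatrix (Fin.natAdd p) (Fin.natAdd p) with hDd
    have hblk : X.submatrix finSumFinEquiv finSumFinEquiv = fromBlocks A B C D := blocksX X
    have hAdet : A.det ≠ 0 := hX p (by omega)
    have hAu : IsUnit A.det := isUnit_iff_ne_zero.2 hAdet
    have hAA : A * A⁻¹ = 1 := Matrix.mul_nonsing_inv _ hAu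
    -- the inverse of the first block
    obtain ⟨T1, o1, l1, m1, d1⟩ := ih p (by omega) S T s hT h1T A (fun i j => hXT _ _)
      (fun k hk => hX k (by omega))
    obtain ⟨T2, o2, l2, m2⟩ := hrcp F K S T1 _ q p p q o1 hpq hpq le_rfl A⁻¹ B m1
      (fun i j => l1 (hXT _ _))
    obtain ⟨T3, o3, l3, m3⟩ := hrcp F K S T2 _ q q p q o2 le_rfl hpq le_rfl C (A⁻¹ * B)
      (fun i j => l2 (l1 (hXT _ _))) m2
    obtain ⟨T4, o4, l4, m4⟩ := hrcp F K S T3 _ q q p p o3 le_rfl hpq hpq C A⁻¹
      (fun i j => l3 (l2 (l1 (hXT _ _)))) (fun i j => l3 (l2 (m1 i j)))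
    obtain ⟨Sc, hSc⟩ : ∃ Sc, Sc = D - C * (A⁻¹ * B) := ⟨_, rfl⟩
    have hScT : ∀ i j, Sc i j ∈ T4 := by
      intro i j
      rw [hSc, Matrix.sub_apply]
      exact Submodule.sub_mem _ (l4 (l3 (l2 (l1 (hXT _ _))))) (l4 (m3 i j))
    have hScm : ∀ (k : ℕ) (hk : k ≤ q),
        (Sc.submatrix (Fin.castLE hk) (Fin.castLE hk)).det ≠ 0 := by
      intro k hk
      rw [hSc]
      exact schur_minor X hX k hk
    have hScdet : Sc.det ≠ 0 := hScm q le_rfl
    obtain ⟨T5, o5, l5, m5, d5⟩ := ih q (by omega) S T4 _ o4 (l4 (l3 (l2 (l1 h1T)))) Sc hScT hScm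
    obtain ⟨T6, o6, l6, m6⟩ := hrcp F K S T5 _ q p q q o5 hpq le_rfl le_rfl (A⁻¹ * B) Sc⁻¹
      (fun i j => l5 (l4 (l3 (m2 i j)))) m5
    obtain ⟨T7, o7, l7, m7⟩ := hrcp F K S T6 _ q q q p o6 le_rfl le_rfl hpq Sc⁻¹ (C * A⁻¹)
      (fun i j => l6 (m5 i j)) (fun i j => l6 (l5 (m4 i j)))
    obtain ⟨T8, o8, l8, m8⟩ := hrcp F K S T7 _ q p q p o7 hpq le_rfl hpq (A⁻¹ * B * Sc⁻¹)
      (C * A⁻¹) (fun i j => l7 (m6 i j)) (fun i j => l7 (l6 (l5 (m4 i j))))
    have dA : A.det ∈ T8 := l8 (l7 (l6 (l5 (l4 (l3 (l2 d1))))))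
    have dS : Sc.det ∈ T8 := l8 (l7 (l6 d5))
    have hdet : X.det = A.det * Sc.det := by
      let _ := invertibleOfIsUnitDet A hAu
      rw [← det_submatrix_equiv_self finSumFinEquiv, hblk, det_fromBlocks₁₁,
        invOf_eq_nonsing_inv, Matrix.mul_assoc, ← hSc]
    have hinv := inv_blocks A B C D hAA Sc⁻¹ (by
      rw [← hSc]
      exact Matrix.mul_nonsing_inv _ (isUnit_iff_ne_zero.2 hScdet))
    rw [← hblk, inv_submatrix_equiv] at hinv
    refine ⟨T8 ⊔ Submodule.span F {A.det * Sc.det}, ?_, ?_, ?_, ?_⟩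
    · have h := ObtD.mul o8 dA dS
      have e : s + Iv F p + trank F q q q + trank F q q q + trank F q q q + Iv F q +
          trank F q q q + trank F q q q + trank F q q q + 1 =
          s + (Iv F p + Iv F q + (6 * trank F q q q + 1)) := by ring
      rw [e] at h
      exact h
    · exact (l1.trans (l2.trans (l3.trans (l4.trans (l5.trans (l6.trans (l7.trans l8))))))).trans
        le_sup_left
    · have hall : ∀ i j : Fin p ⊕ Fin q, (X⁻¹).submatrix finSumFinEquiv finSumFinEquiv i j ∈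
          T8 := by
        intro i j
        rw [hinv]
        rcases i with i | i <;> rcases j with j | j
        · rw [fromBlocks_apply₁₁, Matrix.add_apply]
          exact Submodule.add_mem _ (l8 (l7 (l6 (l5 (l4 (l3 (l2 (m1 i j)))))))) (m8 i j)
        · rw [fromBlocks_apply₁₂, Matrix.neg_apply]
          exact Submodule.neg_mem _ (l8 (l7 (m6 i j)))
        · rw [fromBlocks_apply₂₁, Matrix.neg_apply]
          exact Submodule.neg_mem _ (l8 (m7 i j))
        · rw [fromBlocks_apply₂₂]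
          exact l8 (l7 (l6 (m5 i j)))
      intro i j
      have h := hall (finSumFinEquiv.symm i) (finSumFinEquiv.symm j)
      rw [Matrix.submatrix_apply, Equiv.apply_symm_apply, Equiv.apply_symm_apply] at h
      exact Submodule.mem_sup_left h
    · rw [hdet]
      exact Submodule.mem_sup_right (Submodule.mem_span_singleton_self _)

end Pool.Agent.Helper16K9.TH
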