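import Pool.Agent.Helper16K9.TH.Asm3
import Pool.Agent.Helper16K9.TH.Bri
import Pool.Agent.Helper16K9.TH.Lif
import Pool.Agent.Helper16K9.TH.Inv
import Pool.Agent.Helper16K9.TH.Cmp
import Pool.Agent.Helper16K9.TH.Per
import Pool.Agent.Helper16K9.TH.Rcp
import Pool.Agent.Helper16K9.TH.Rec
import Pool.Agent.Helper16K9.TH.Num
import Pool.Agent.Helper16K9.TH.Exi

set_option autoImplicit false
set_option linter.unusedSectionVars false
set_option linter.unusedVariables false

/-!
# Structured matrices, with divisions: assembly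
-/

namespace Pool.Agent.Helper16K9.TH

open MvPolynomial Matrix Pool.Agent.W956.KF Pool.Agent.H826R3.SM Finset Filter

section
variable {F : Type} [Field F] {m d : ℕ}

/-- the growth, from any upper bound with all exponents above `ω` -/
theorem likeMM' {f : ℕ → ℕ} {δ : ℝ} {K m₀ : ℕ} (hδ : 0 < δ)
    (hlow0 : ∀ m k : ℕ, m₀ ≤ m → (k : ℝ) < δ * m → trank F k k k ≤ K * f m)
    (f_upper : ∀ τ : ℝ, omegaMM F < τ →
      ∃ D : ℝ, 0 ≤ D ∧ ∀ N : ℕ, (f N : ℝ) ≤ D * (N : ℝ) ^ τ) : LikeMM F f := by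
  obtain ⟨m₁, hm₁, hlow⟩ := GrwL.f_lower hδ hlow0
  have hc : 0 < (δ / 4) ^ omegaMM F := Real.rpow_pos_of_pos (by positivity) _
  have hK : (0 : ℝ) < (K : ℝ) + 1 := by positivity
  constructor
  · rw [omega_eq]
    have hl : ∀ τ ∈ {τ : ℝ | ∃ D : ℝ, ∀ m : ℕ, (f m : ℝ) ≤ D * (m : ℝ) ^ τ},
        omegaMM F ≤ τ := by
      rintro τ ⟨D, hD⟩
      exact GrwL.omega_le_of hc hK hlow (Eventually.of_forall hD)
    apply le_antisymm
    · refine le_of_forall_pos_le_add fun ε hε => ?_
      obtain ⟨D, _, hD⟩ := f_upper (omegaMM F + ε) (by linarith)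
      exact csInf_le ⟨omegaMM F, hl⟩ ⟨D, hD⟩
    · obtain ⟨D, _, hD⟩ := f_upper (omegaMM F + 1) (by linarith)
      exact le_csInf ⟨_, D, hD⟩ hl
  · constructor
    · exact (atLeast hδ hlow0).2
    · rw [Pool.Agent.Helper16K9.Adds.superlinear_size_iff]
      have hpow : ∀ (α : ℝ) (N : ℕ), ((N : ℝ) ^ 2) ^ α = (N : ℝ) ^ (2 * α) := by
        intro α N
        rw [← Real.rpow_natCast (N : ℝ) 2, ← Real.rpow_mul (Nat.cast_nonneg N)]
        norm_num
      rintro ⟨α, hα, c, hc, m₂, h⟩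
      by_contra hcon
      push Not at hcon
      obtain ⟨D, hD0, hD⟩ := f_upper (1 + α) (by linarith)
      have hlim : Tendsto (fun q : ℕ => (q : ℝ) ^ (α - 1)) atTop atTop :=
        (tendsto_rpow_atTop (by linarith)).comp tendsto_natCast_atTop_atTop
      obtain ⟨N, hN1, hN2, hN3⟩ := ((hlim.eventually_gt_atTop (D / c)).and
        ((eventually_ge_atTop 1).and (eventually_ge_atTop m₂))).exists
      have hN0 : (0 : ℝ) < N := by exact_mod_cast (by omega : 0 < N)
      have h1 := (h N hN3).trans (hD N)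
      rw [hpow] at h1
      have h2 : (N : ℝ) ^ (2 * α) = (N : ℝ) ^ (α - 1) * (N : ℝ) ^ (1 + α) := by
        rw [← Real.rpow_add hN0]
        congr 1
        ring
      rw [h2] at h1
      have h3 : (0 : ℝ) < (N : ℝ) ^ (1 + α) := Real.rpow_pos_of_pos hN0 _
      rw [div_lt_iff₀ hc] at hN1
      have h4 := mul_lt_mul_of_pos_right hN1 h3
      nlinarith

theorem upper_of_trank {f : ℕ → ℕ} {C : ℕ} (hup : ∀ m, f m ≤ C * (trank F m m m + m ^ 2))
    (τ : ℝ) (hτ : omegaMM F < τ) : ∃ D : ℝ, 0 ≤ D ∧ ∀ N : ℕ, (f N : ℝ) ≤ D * (N : ℝ) ^ τ := by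
  obtain ⟨D, hD0, hD⟩ := GrwL.trank_upper hτ
  refine ⟨2 * C * D, by positivity, fun N => ?_⟩
  have h1 : f N ≤ C * (2 * trank F N N N) := by
    refine (hup N).trans (Nat.mul_le_mul_left _ ?_)
    have := sq_le_trank F N
    omega
  have h1' : (f N : ℝ) ≤ C * (2 * (trank F N N N : ℝ)) := by exact_mod_cast h1
  have h2 := mul_le_mul_of_nonneg_left (hD N) (by positivity : (0 : ℝ) ≤ C * 2)
  linarith

theorem upper_of_Iv {f : ℕ → ℕ} (hup : ∀ m, f m ≤ Iv F m)
    (τ : ℝ) (hτ : omegaMM F < τ) : ∃ D : ℝ, 0 ≤ D ∧ ∀ N : ℕ, (f N : ℝ) ≤ D * (N : ℝ) ^ τ := by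
  obtain ⟨D, hD0, hD⟩ := num F τ hτ
  refine ⟨D, hD0, fun N => ?_⟩
  have h1 : (f N : ℝ) ≤ Iv F N := by exact_mod_cast hup N
  exact h1.trans (hD N)

theorem costD_zero {P : Set (RF F d)} (hP : ∀ p ∈ P, p = 0) : costD P = 0 := by
  refine Nat.le_zero.1 (costD_le ObtD.start ?_)
  intro p hp
  rw [hP p hp]
  exact Submodule.zero_mem _

theorem genD_mem (A : Matrix (Fin m) (Fin m) F) (B : Fin d → Matrix (Fin m) (Fin m) F)
    (i j : Fin m) : genD A B i j ∈ inputsD F d := by
  rw [genD, Matrix.map_apply, gen, map_add, map_sum]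
  have hC : ∀ c : F, algebraMap (MvPolynomial (Fin d) F) (RF F d) (C c) = c • (1 : RF F d) := by
    intro c
    rw [← MvPolynomial.algebraMap_eq, ← IsScalarTower.algebraMap_apply,
      Algebra.algebraMap_eq_smul_one]
  refine Submodule.add_mem _ ?_ (Submodule.sum_mem _ fun l _ => ?_)
  · rw [hC]
    exact Submodule.smul_mem _ _ (Submodule.subset_span (Set.mem_insert _ _))
  · rw [map_mul, hC, smul_mul_assoc, one_mul]
    exact Submodule.smul_mem _ _ (Submodule.subset_span (Set.mem_insert_of_mem _ ⟨l, rfl⟩))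

/-- inverse and determinant -/
theorem cost_inv_det (A : Matrix (Fin m) (Fin m) F) (B : Fin d → Matrix (Fin m) (Fin m) F) :
    costD (invD A B) ≤ Iv F m ∧ costD {detD A B} ≤ Iv F m := by
  by_cases hx : (genD A B).det = 0
  · constructor
    · rw [costD_zero]
      · exact Nat.zero_le _
      · rintro _ ⟨i, j, rfl⟩
        rw [Matrix.nonsing_inv_apply_not_isUnit _ (by rw [hx]; exact not_isUnit_zero),
          Matrix.zero_apply]
    · rw [costD_zero]
      · exact Nat.zero_le _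
      · rintro _ rfl
        exact hx
  · obtain ⟨σ, hσ⟩ := per (RF F d) m (genD A B) hx
    obtain ⟨T, h1, h2, h3, h4⟩ := rec_ rcp F (RF F d) m (inputsD F d) (inputsD F d) 0
      ObtD.start (Submodule.subset_span (Set.mem_insert _ _)) ((genD A B).submatrix σ id)
      (fun i j => genD_mem A B (σ i) j) hσ
    rw [zero_add] at h1
    have hinv : ((genD A B).submatrix σ id)⁻¹ = (genD A B)⁻¹.submatrix id σ := by
      have := Matrix.inv_submatrix_equiv (genD A B) σ (Equiv.refl (Fin m))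
      exact this
    constructor
    · refine costD_le h1 ?_
      rintro _ ⟨i, j, rfl⟩
      have h5 := h3 i (σ.symm j)
      rw [hinv, Matrix.submatrix_apply, id, Equiv.apply_symm_apply] at h5
      exact h5
    · refine costD_le h1 ?_
      rintro _ rfl
      rw [Matrix.det_permute] at h4
      rcases Int.units_eq_one_or (Equiv.Perm.sign σ) with h | h
      · rw [h] at h4
        simpa [detD] using h4
      · rw [h] at h4
        have h5 := T.neg_mem h4
        simpa [detD] using h5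

theorem squareD_eq (A : Matrix (Fin m) (Fin m) F) (B : Fin d → Matrix (Fin m) (Fin m) F) :
    squareD A B = (algebraMap (MvPolynomial (Fin d) F) (RF F d)) '' squareOn A B := by
  have h : ∀ i j, (genD A B * genD A B) i j = algebraMap _ (RF F d) ((gen A B * gen A B) i j) := by
    intro i j
    rw [genD, ← Matrix.map_mul, Matrix.map_apply]
  ext p
  constructor
  · rintro ⟨i, j, rfl⟩
    exact ⟨_, ⟨i, j, rfl⟩, (h i j).symm⟩
  · rintro ⟨_, ⟨i, j, rfl⟩, rfl⟩
    exact ⟨i, j, (h i j).symm⟩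

theorem pairD_eq (r t : F) (A A' : Matrix (Fin m) (Fin m) F)
    (B : Fin d → Matrix (Fin m) (Fin m) F) :
    pairD r t A A' B =
      (algebraMap (MvPolynomial (Fin (d + d)) F) (RF F (d + d))) '' pairOn r t A A' B := by
  have h : ∀ i j, pairMatD r t A A' B i j = algebraMap _ (RF F (d + d)) (pairMat r t A A' B i j) :=
    fun i j => pair_entry r t A A' _ _ i j
  ext p
  constructor
  · rintro ⟨i, j, rfl⟩
    exact ⟨_, ⟨i, j, rfl⟩, (h i j).symm⟩
  · rintro ⟨_, ⟨i, j, rfl⟩, rfl⟩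
    exact ⟨i, j, (h i j).symm⟩

theorem cost_squareD_le (A : Matrix (Fin m) (Fin m) F) (B : Fin d → Matrix (Fin m) (Fin m) F) :
    costD (squareD A B) ≤ trank F m m m := by
  rw [squareD_eq]
  refine (cmp F d _ ?_).trans (ups F m d A B).1
  refine (Set.finite_range fun ij : Fin m × Fin m => (gen A B * gen A B) ij.1 ij.2).subset ?_
  rintro _ ⟨i, j, rfl⟩
  exact ⟨(i, j), rfl⟩

theorem cost_cubeD_le' (A : Matrix (Fin m) (Fin m) F) (B : Fin d → Matrix (Fin m) (Fin m) F) :
    costD {cubeD A B} ≤ cost {cubeOn A B} := by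
  rw [cubeD_eq, ← Set.image_singleton]
  exact cmp F d _ (Set.finite_singleton _)

theorem cost_detD_le' (A : Matrix (Fin m) (Fin m) F) (B : Fin d → Matrix (Fin m) (Fin m) F) :
    costD {detD A B} ≤ cost {detOn A B} := by
  rw [detD_eq, ← Set.image_singleton]
  exact cmp F d _ (Set.finite_singleton _)

theorem cost_pairD_le (r t : F) (A A' : Matrix (Fin m) (Fin m) F)
    (B : Fin d → Matrix (Fin m) (Fin m) F) :
    costD (pairD r t A A' B) ≤ 2 * trank F m m m := by
  rw [pairD_eq]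
  refine (cmp F (d + d) _ ?_).trans (cost_pair_le r t A A' B)
  refine (Set.finite_range fun ij : Fin m × Fin m => pairMat r t A A' B ij.1 ij.2).subset ?_
  rintro _ ⟨i, j, rfl⟩
  exact ⟨(i, j), rfl⟩

theorem detD_ne (A : Matrix (Fin m) (Fin m) F) (B : Fin d → Matrix (Fin m) (Fin m) F)
    (hx : ∃ x, (A + comb B x).det ≠ 0) : detD A B ≠ 0 := by
  obtain ⟨x, hx⟩ := hx
  intro h
  rw [detD_eq] at h
  have h1 : detOn A B = 0 := by
    apply IsFractionRing.injective (MvPolynomial (Fin d) F) (RF F d)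
    rw [h, map_zero]
  apply hx
  have h2 : eval x (detOn A B) = (A + comb B x).det := by
    rw [detOn, RingHom.map_det]
    congr 1
    ext1 i j
    rw [RingHom.mapMatrix_apply, Matrix.map_apply, gen, Matrix.add_apply, comb, Matrix.sum_apply]
    simp only [map_add, map_sum, map_mul, eval_C, eval_X, Matrix.smul_apply, smul_eq_mul]
    congr 1
    refine sum_congr rfl fun l _ => ?_
    ring
  rw [← h2, h1, map_zero]

end

end Pool.Agent.Helper16K9.TH
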