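import Pool.Agent.Helper16K9.TH.Df

set_option autoImplicit false

/-!
# Second derivatives of the square, third derivatives of the trace of the cube
-/

namespace Pool.Agent.Helper16K9.TH

open MvPolynomial Matrix

namespace SqcL

section
variable {F : Type} [Field F] {m d : ℕ}

theorem map_mul' (D : Derivation F (MvPolynomial (Fin d) F) (MvPolynomial (Fin d) F))
    (M N : Matrix (Fin m) (Fin m) (MvPolynomial (Fin d) F)) :
    (M * N).map D = M.map D * N + M * N.map D := by
  ext1 i j
  rw [Matrix.add_apply, Matrix.map_apply, Matrix.mul_apply, Matrix.mul_apply, Matrix.mul_apply,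
    map_sum, ← Finset.sum_add_distrib]
  refine Finset.sum_congr rfl fun k _ => ?_
  rw [Derivation.leibniz, Matrix.map_apply, Matrix.map_apply, smul_eq_mul, smul_eq_mul]
  ring

theorem map_add' (D : Derivation F (MvPolynomial (Fin d) F) (MvPolynomial (Fin d) F))
    (M N : Matrix (Fin m) (Fin m) (MvPolynomial (Fin d) F)) :
    (M + N).map D = M.map D + N.map D := by
  ext1 i j
  rw [Matrix.add_apply, Matrix.map_apply, Matrix.add_apply, map_add, Matrix.map_apply,
    Matrix.map_apply]

theorem trace_map' (D : Derivation F (MvPolynomial (Fin d) F) (MvPolynomial (Fin d) F))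
    (M : Matrix (Fin m) (Fin m) (MvPolynomial (Fin d) F)) :
    D (trace M) = trace (M.map D) := by
  rw [Matrix.trace, map_sum, Matrix.trace]
  rfl

/-- the constant matrix -/
noncomputable def KK (B : Fin d → Matrix (Fin m) (Fin m) F) (a : Fin d → F) :
    Matrix (Fin m) (Fin m) (MvPolynomial (Fin d) F) := (comb B a).map C

theorem dd_C (a : Fin d → F) (x : F) : dd a (C x) = 0 := by
  exact (dd a).map_algebraMap x

theorem dd_X (a : Fin d → F) (i : Fin d) : dd a (X i) = C (a i) := by
  unfold dd
  rw [MvPolynomial.mkDerivation_X]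

theorem gen_map (A : Matrix (Fin m) (Fin m) F) (B : Fin d → Matrix (Fin m) (Fin m) F)
    (a : Fin d → F) : (gen A B).map (dd a) = KK B a := by
  ext1 i j
  rw [Matrix.map_apply, KK, Matrix.map_apply]
  unfold gen comb
  rw [map_add, dd_C, zero_add, map_sum, Matrix.sum_apply, map_sum]
  refine Finset.sum_congr rfl fun l _ => ?_
  rw [Derivation.leibniz, dd_C, dd_X, smul_zero, add_zero, smul_eq_mul, Matrix.smul_apply,
    smul_eq_mul, map_mul, mul_comm]

theorem KK_map (B : Fin d → Matrix (Fin m) (Fin m) F) (a b : Fin d → F) :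
    (KK B a).map (dd b) = 0 := by
  ext1 i j
  rw [Matrix.map_apply, KK, Matrix.map_apply, dd_C]
  rfl

theorem ev_mul (B : Fin d → Matrix (Fin m) (Fin m) F) (a b c : Fin d → F) (i j : Fin m) :
    eval c ((KK B a * KK B b) i j) = (comb B a * comb B b) i j := by
  have h : KK B a * KK B b = (comb B a * comb B b).map C := by
    rw [KK, KK, Matrix.map_mul]
  rw [h, Matrix.map_apply, eval_C]

theorem ev_tr (B : Fin d → Matrix (Fin m) (Fin m) F) (a b e c : Fin d → F) :
    eval c (trace (KK B a * KK B b * KK B e)) = trace (comb B a * comb B b * comb B e) := by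
  have h : KK B a * KK B b * KK B e = (comb B a * comb B b * comb B e).map C := by
    rw [KK, KK, KK, Matrix.map_mul, Matrix.map_mul]
  rw [h, Matrix.trace, Matrix.trace, map_sum]
  refine Finset.sum_congr rfl fun i _ => ?_
  rw [Matrix.diag_apply, Matrix.map_apply, eval_C, Matrix.diag_apply]

end

end SqcL

open SqcL

theorem sq : S_SQ := by
  intro F _ m d A B c a b i j
  have h : dd a (dd b ((gen A B * gen A B) i j)) =
      (((gen A B * gen A B).map (dd b)).map (dd a)) i j := rfl
  rw [h]
  simp only [map_mul', map_add', gen_map, KK_map, Matrix.mul_zero, Matrix.zero_mul, zero_add,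
    add_zero]
  rw [Matrix.add_apply, map_add, ev_mul, ev_mul, Matrix.add_apply, add_comm]

theorem cube : S_CUBE := by
  intro F _ m d A B c a b e
  have h : dd a (dd b (dd e (cubeOn A B))) =
      trace ((((gen A B * gen A B * gen A B).map (dd e)).map (dd b)).map (dd a)) := by
    rw [cubeOn, SqcL.trace_map', SqcL.trace_map', SqcL.trace_map']
  rw [h]
  simp only [map_mul', map_add', gen_map, KK_map, Matrix.mul_zero, Matrix.zero_mul, zero_add,
    add_zero, Matrix.add_mul, Matrix.trace_add, map_add, ev_tr]
  have c1 : ∀ x y z : Matrix (Fin m) (Fin m) F, trace (x * y * z) = trace (z * x * y) :=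
    fun x y z => Matrix.trace_mul_cycle x y z
  have h1 := c1 (comb B a) (comb B b) (comb B e)
  have h2 := c1 (comb B e) (comb B a) (comb B b)
  have h3 := c1 (comb B a) (comb B e) (comb B b)
  have h4 := c1 (comb B b) (comb B a) (comb B e)
  linear_combination -2 * h1 - h2 - 2 * h3 - h4

end Pool.Agent.Helper16K9.TH
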