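import Pool.Agent.Helper16K9.TH.Asm
import Pool.Agent.Helper16K9.TH.Sqc
import Pool.Agent.Helper16K9.TH.Ups

set_option autoImplicit false
set_option linter.unusedSectionVars false
set_option linter.unusedVariables false
set_option linter.unusedSimpArgs false

/-!
# Products of two generic elements
-/

namespace Pool.Agent.Helper16K9.TH

open MvPolynomial Matrix Pool.Agent.W956.KF Finset

section
variable {F : Type} [Field F] {m d : ℕ}

/-- The matrix `r X Y + t Y X`, where `X` and `Y` are independent generic elements of the affine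
spaces through `A` and `A'` with the same basis `B`; there are two groups of `d` variables. -/
noncomputable def pairMat (r t : F) (A A' : Matrix (Fin m) (Fin m) F)
    (B : Fin d → Matrix (Fin m) (Fin m) F) :
    Matrix (Fin m) (Fin m) (MvPolynomial (Fin (d + d)) F) :=
  r • (gen A (Fin.append B 0) * gen A' (Fin.append 0 B)) +
    t • (gen A' (Fin.append 0 B) * gen A (Fin.append B 0))

/-- the entries of `r X Y + t Y X` -/
noncomputable def pairOn (r t : F) (A A' : Matrix (Fin m) (Fin m) F)
    (B : Fin d → Matrix (Fin m) (Fin m) F) : Set (MvPolynomial (Fin (d + d)) F) :=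
  {p | ∃ i j, p = pairMat r t A A' B i j}

open SqcL

theorem map_smul'' {n : ℕ} (D : Derivation F (MvPolynomial (Fin n) F) (MvPolynomial (Fin n) F))
    (r : F) (M : Matrix (Fin m) (Fin m) (MvPolynomial (Fin n) F)) :
    (r • M).map D = r • M.map D := by
  ext1 i j
  rw [Matrix.map_apply, Matrix.smul_apply, Derivation.map_smul, Matrix.smul_apply,
    Matrix.map_apply]

theorem ev_mul2 {n : ℕ} (B B' : Fin n → Matrix (Fin m) (Fin m) F) (a b c : Fin n → F)
    (i j : Fin m) : eval c ((KK B a * KK B' b) i j) = (comb B a * comb B' b) i j := by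
  have h : KK B a * KK B' b = (comb B a * comb B' b).map C := by
    rw [KK, KK, Matrix.map_mul]
  rw [h, Matrix.map_apply, eval_C]

theorem pair_dd {n : ℕ} (r t : F) (A A' : Matrix (Fin m) (Fin m) F)
    (B B' : Fin n → Matrix (Fin m) (Fin m) F) (c a b : Fin n → F) (i j : Fin m) :
    eval c (dd a (dd b ((r • (gen A B * gen A' B') + t • (gen A' B' * gen A B)) i j))) =
      (r • (comb B a * comb B' b + comb B b * comb B' a) +
        t • (comb B' a * comb B b + comb B' b * comb B a)) i j := by
  have h : dd a (dd b ((r • (gen A B * gen A' B') + t • (gen A' B' * gen A B)) i j)) =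
      (((r • (gen A B * gen A' B') + t • (gen A' B' * gen A B)).map (dd b)).map (dd a)) i j := rfl
  rw [h]
  simp only [map_mul', map_add', map_smul'', gen_map, KK_map, Matrix.mul_zero, Matrix.zero_mul,
    zero_add, add_zero]
  simp only [Matrix.add_apply, Matrix.smul_apply, map_add, smul_eval, ev_mul2, smul_eq_mul]
  ring

theorem comb_append_left (B : Fin d → Matrix (Fin m) (Fin m) F) (u v : Fin d → F) :
    comb (Fin.append B 0) (Fin.append u v) = comb B u := by
  unfold comb
  rw [Fin.sum_univ_add]
  simp only [Fin.append_left, Fin.append_right, Pi.zero_apply, smul_zero, Finset.sum_const_zero,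
    add_zero]

theorem comb_append_right (B : Fin d → Matrix (Fin m) (Fin m) F) (u v : Fin d → F) :
    comb (Fin.append 0 B) (Fin.append u v) = comb B v := by
  unfold comb
  rw [Fin.sum_univ_add]
  simp only [Fin.append_left, Fin.append_right, Pi.zero_apply, smul_zero, Finset.sum_const_zero,
    zero_add]

theorem comb_zero (B : Fin d → Matrix (Fin m) (Fin m) F) : comb B 0 = 0 := by
  unfold comb
  simp

/-- first group of variables -/
def inFst (F : Type) [Field F] (d : ℕ) : (Fin d → F) →ₗ[F] (Fin (d + d) → F) where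
  toFun u := Fin.append u 0
  map_add' u v := by
    funext i
    refine Fin.addCases (fun i => ?_) (fun i => ?_) i
    · simp only [Fin.append_left, Pi.add_apply, Pi.smul_apply, Pi.zero_apply, smul_eq_mul,
        mul_zero, add_zero, RingHom.id_apply]
    · simp only [Fin.append_right, Pi.add_apply, Pi.smul_apply, Pi.zero_apply, smul_eq_mul,
        mul_zero, add_zero, RingHom.id_apply]
  map_smul' r u := by
    funext i
    refine Fin.addCases (fun i => ?_) (fun i => ?_) i
    · simp only [Fin.append_left, Pi.add_apply, Pi.smul_apply, Pi.zero_apply, smul_eq_mul,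
        mul_zero, add_zero, RingHom.id_apply]
    · simp only [Fin.append_right, Pi.add_apply, Pi.smul_apply, Pi.zero_apply, smul_eq_mul,
        mul_zero, add_zero, RingHom.id_apply]

/-- second group of variables -/
def inSnd (F : Type) [Field F] (d : ℕ) : (Fin d → F) →ₗ[F] (Fin (d + d) → F) where
  toFun u := Fin.append 0 u
  map_add' u v := by
    funext i
    refine Fin.addCases (fun i => ?_) (fun i => ?_) i
    · simp only [Fin.append_left, Pi.add_apply, Pi.smul_apply, Pi.zero_apply, smul_eq_mul,
        mul_zero, add_zero, RingHom.id_apply]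
    · simp only [Fin.append_right, Pi.add_apply, Pi.smul_apply, Pi.zero_apply, smul_eq_mul,
        mul_zero, add_zero, RingHom.id_apply]
  map_smul' r u := by
    funext i
    refine Fin.addCases (fun i => ?_) (fun i => ?_) i
    · simp only [Fin.append_left, Pi.add_apply, Pi.smul_apply, Pi.zero_apply, smul_eq_mul,
        mul_zero, add_zero, RingHom.id_apply]
    · simp only [Fin.append_right, Pi.add_apply, Pi.smul_apply, Pi.zero_apply, smul_eq_mul,
        mul_zero, add_zero, RingHom.id_apply]

theorem inFst_apply (u : Fin d → F) : inFst F d u = Fin.append u 0 := rfl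
theorem inSnd_apply (u : Fin d → F) : inSnd F d u = Fin.append 0 u := rfl

/-- products of two generic elements -/
theorem bound_pair (hT2 : S_T2) [Infinite F] {r t : F} (hrt : r ≠ 0 ∨ t ≠ 0)
    (A A' : Matrix (Fin m) (Fin m) F)
    {B : Fin d → Matrix (Fin m) (Fin m) F} (hB : LinearIndependent F B) {k : ℕ}
    (hd : m ^ 2 + 16 * k * m < 4 * d) :
    trank F k k k ≤ 2 * cost (pairOn r t A A' B) := by
  have hinj := Phi_injective (M := 1) (M' := 1) (Matrix.mul_one _) hB
  have hfin : Module.finrank F (LinearMap.range (Phi 1 B)) = d := by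
    rw [LinearMap.finrank_range_of_inj hinj, Module.finrank_fin_fun]
  obtain ⟨β, γ, e, P, hW, H⟩ := hT2 F (Fin m → F) (LinearMap.range (Phi 1 B)) k (by
    rw [hfin, Module.finrank_fin_fun]
    exact hd)
  have hfs : (pairOn r t A A' B).Finite := by
    refine (Set.finite_range fun ij : Fin m × Fin m => pairMat r t A A' B ij.1 ij.2).subset ?_
    rintro _ ⟨i, j, rfl⟩
    exact ⟨(i, j), rfl⟩
  obtain ⟨T, hT, hp⟩ := cost_spec (pairOn r t A A' B) hfs
  let eq := LinearEquiv.ofInjective (Phi 1 B) hinj
  have hlift : ∀ β : Matrix (Fin k) (Fin k) F →ₗ[F] Module.End F (Fin m → F),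
      (∀ X, β X ∈ LinearMap.range (Phi 1 B)) →
      ∃ β' : Matrix (Fin k) (Fin k) F →ₗ[F] (Fin d → F), ∀ X, Phi 1 B (β' X) = β X := by
    intro β hβ
    refine ⟨eq.symm.toLinearMap.comp (β.codRestrict _ hβ), fun X => ?_⟩
    have h1 : eq (eq.symm (β.codRestrict _ hβ X)) = β.codRestrict _ hβ X :=
      LinearEquiv.apply_symm_apply _ _
    have h2 := congrArg Subtype.val h1
    rw [LinearEquiv.ofInjective_apply] at h2
    exact h2
  obtain ⟨β', hβ'⟩ := hlift β fun X => (hW X).1
  obtain ⟨γ', hγ'⟩ := hlift γ fun X => (hW X).2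
  -- a nonzero multiple of the product
  have main : ∀ (s : F) (b1 b2 : Matrix (Fin k) (Fin k) F →ₗ[F] (Fin (d + d) → F)), s ≠ 0 →
      (∀ X Y, ∃ w : F, ∀ u v, eval 0 (dd (b1 X) (dd (b2 Y) (pairMat r t A A' B u v))) =
        (s • (comb B (β' X) * comb B (γ' Y)) + w • (comb B (γ' Y) * comb B (β' X))) u v) →
      RankLE F k k k (2 * cost (pairOn r t A A' B)) := by
    intro s b1 b2 hs hb
    refine cst2 hT 0 (fun i j => pairMat r t A A' B i j) (fun i j => hp ⟨i, j, rfl⟩)
      b1 b2 (fun i j u v => s⁻¹ * (P (Pi.single u 1) i * e j v)) fun X Y i j => ?_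
    obtain ⟨w, hw⟩ := hb X Y
    simp only [hw]
    set S := s • (comb B (β' X) * comb B (γ' Y)) + w • (comb B (γ' Y) * comb B (β' X)) with hS
    have h2 : β X = Matrix.toLin' (comb B (β' X)) := by
      rw [← hβ' X, Phi_apply, Matrix.one_mul]
    have h3 : γ Y = Matrix.toLin' (comb B (γ' Y)) := by
      rw [← hγ' Y, Phi_apply, Matrix.one_mul]
    have h4 : S.mulVec (e j) = s • β X (γ Y (e j)) + w • γ Y (β X (e j)) := by
      rw [hS, h2, h3, Matrix.add_mulVec, Matrix.smul_mulVec, Matrix.smul_mulVec,
        ← Matrix.mulVec_mulVec, ← Matrix.mulVec_mulVec]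
      simp only [Matrix.toLin'_apply]
    obtain ⟨h5, h6⟩ := H X Y i j
    rw [h6, smul_zero, add_zero] at h4
    have h8 : (X * Y) i j = s⁻¹ * P (S.mulVec (e j)) i := by
      rw [h4, map_smul, Pi.smul_apply, smul_eq_mul, ← mul_assoc, inv_mul_cancel₀ hs, one_mul, h5]
    rw [h8]
    have h7 : S.mulVec (e j) = ∑ u, (S.mulVec (e j)) u • (Pi.single u 1 : Fin m → F) := by
      funext a
      rw [Finset.sum_apply]
      simp [Pi.single_apply]
    rw [h7, map_sum, Finset.sum_apply, Finset.mul_sum]
    refine sum_congr rfl fun u _ => ?_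
    rw [map_smul, Pi.smul_apply, smul_eq_mul, Matrix.mulVec, dotProduct, Finset.sum_mul,
      Finset.mul_sum]
    refine sum_congr rfl fun v _ => ?_
    ring
  refine trank_le ?_
  by_cases hr : r = 0
  · have ht : t ≠ 0 := hrt.resolve_left (fun h => h hr)
    refine main t ((inSnd F d).comp β') ((inFst F d).comp γ') ht fun X Y => ⟨r, fun u v => ?_⟩
    rw [pairMat, pair_dd, LinearMap.comp_apply, LinearMap.comp_apply, inFst_apply, inSnd_apply]
    simp only [comb_append_left, comb_append_right, comb_zero, Matrix.zero_mul, Matrix.mul_zero,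
      zero_add, add_zero]
    rw [add_comm (r • _)]
  · refine main r ((inFst F d).comp β') ((inSnd F d).comp γ') hr fun X Y => ⟨t, fun u v => ?_⟩
    rw [pairMat, pair_dd, LinearMap.comp_apply, LinearMap.comp_apply, inFst_apply, inSnd_apply]
    simp only [comb_append_left, comb_append_right, comb_zero, Matrix.zero_mul, Matrix.mul_zero,
      zero_add, add_zero]

end

end Pool.Agent.Helper16K9.TH
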